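import Pool.Agent.Helper58.LD.Def

/-!
# Project LD (MP_599705_an): combination of trees
-/

set_option autoImplicit false

namespace Pool.Agent.Helper58.LD

variable {L : Leaf → ℕ → ℕ → ℕ → ℕ → ℕ → ℕ → ℕ → ℕ → Bool} {l r : Tree}
  {t0 t1 a0 a1 z0 z1 y0 y1 v : ℕ}

theorem chk_t (h1 : chk L l t0 v a0 a1 z0 z1 y0 y1 = true)
    (h2 : chk L r v t1 a0 a1 z0 z1 y0 y1 = true) :
    chk L (.t v l r) t0 t1 a0 a1 z0 z1 y0 y1 = true := by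
  rw [chk, h1, h2]; rfl

theorem chk_a (h1 : chk L l t0 t1 a0 v z0 z1 y0 y1 = true)
    (h2 : chk L r t0 t1 v a1 z0 z1 y0 y1 = true) :
    chk L (.a v l r) t0 t1 a0 a1 z0 z1 y0 y1 = true := by
  rw [chk, h1, h2]; rfl

theorem chk_z (h1 : chk L l t0 t1 a0 a1 z0 v y0 y1 = true)
    (h2 : chk L r t0 t1 a0 a1 v z1 y0 y1 = true) :
    chk L (.z v l r) t0 t1 a0 a1 z0 z1 y0 y1 = true := by
  rw [chk, h1, h2]; rfl

theorem chk_y (h1 : chk L l t0 t1 a0 a1 z0 z1 y0 v = true)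
    (h2 : chk L r t0 t1 a0 a1 z0 z1 v y1 = true) :
    chk L (.y v l r) t0 t1 a0 a1 z0 z1 y0 y1 = true := by
  rw [chk, h1, h2]; rfl

end Pool.Agent.Helper58.LD
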