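import Pool.Agent.Helper58.LD.Def

/-!
# Project LD (MP_599705_an), piece LD-DF: the function `DD`
-/

set_option autoImplicit false

namespace Pool.Agent.Helper58.LD

theorem DD_neg (t x : ℝ) : DD t (-x) = DD t x := by
  unfold DD
  rw [Real.cos_neg, Real.sin_neg, neg_sq]

theorem DD_add (t x : ℝ) : DD t (x + 2 * Real.pi) = DD t x := by
  unfold DD
  rw [Real.cos_add_two_pi, Real.sin_add_two_pi]

/-- From the hypothesis `(d - t cos x)² ≤ M - t² sin² x`. -/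
theorem le_DD {d t x : ℝ} (h : d ^ 2 + t ^ 2 - 2 * d * t * Real.cos x ≤ 1.0401 ^ 2) :
    d ≤ DD t x := by
  unfold DD
  have h1 : (d - t * Real.cos x) ^ 2 ≤ 1.0401 ^ 2 - t ^ 2 * Real.sin x ^ 2 := by
    have h2 := Real.sin_sq_add_cos_sq x
    have h3 : (d - t * Real.cos x) ^ 2 + t ^ 2 * Real.sin x ^ 2 =
        d ^ 2 + t ^ 2 * (Real.sin x ^ 2 + Real.cos x ^ 2) - 2 * d * t * Real.cos x := by ring
    rw [h2] at h3
    linarith
  have h4 := Real.abs_le_sqrt h1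
  have h5 := le_abs_self (d - t * Real.cos x)
  linarith

private theorem pos_in {t s : ℝ} (ht0 : 0 ≤ t) (ht1 : t ≤ 1) (hs : s ^ 2 ≤ 1) :
    1.0401 ^ 2 - t ^ 2 ≤ 1.0401 ^ 2 - t ^ 2 * s ^ 2 ∧ 0 < 1.0401 ^ 2 - t ^ 2 := by
  have h1 : t ^ 2 ≤ 1 := by nlinarith
  constructor
  · nlinarith [sq_nonneg t]
  · norm_num
    linarith

/-- `D = DD t x` is positive and satisfies `D² - 2 D t cos x + t² = M`; if `y < D` then
`(y - D)(y + D - 2 t cos x) ≥ 0` gives `y + D ≤ 2 t cos x`, but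
`D (y + D - 2 t cos x) = D y + M - t² > 0`. -/
theorem DD_le {y t x : ℝ} (ht0 : 0 ≤ t) (ht1 : t ≤ 1) (hy : 0 ≤ y)
    (h : 1.0401 ^ 2 ≤ y ^ 2 + t ^ 2 - 2 * y * t * Real.cos x) : DD t x ≤ y := by
  unfold DD
  have h2 := Real.sin_sq_add_cos_sq x
  obtain ⟨hp1, hp2⟩ := pos_in ht0 ht1 (Real.sin_sq_le_one x)
  set g := √(1.0401 ^ 2 - t ^ 2 * Real.sin x ^ 2) with hg
  have hg2 : g ^ 2 = 1.0401 ^ 2 - t ^ 2 * Real.sin x ^ 2 := Real.sq_sqrt (by linarith)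
  have hg0 : 0 < g := Real.sqrt_pos.2 (by linarith)
  have h3 : (y - t * Real.cos x) ^ 2 + t ^ 2 * Real.sin x ^ 2 =
        y ^ 2 + t ^ 2 * (Real.sin x ^ 2 + Real.cos x ^ 2) - 2 * y * t * Real.cos x := by ring
  rw [h2] at h3
  have h4 : g ^ 2 ≤ (y - t * Real.cos x) ^ 2 := by
    rw [hg2]; linarith
  have h5 : (t * Real.cos x) ^ 2 < g ^ 2 := by
    have h6 : (t * Real.cos x) ^ 2 + t ^ 2 * Real.sin x ^ 2 = t ^ 2 := by
      have : (t * Real.cos x) ^ 2 + t ^ 2 * Real.sin x ^ 2 =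
        t ^ 2 * (Real.sin x ^ 2 + Real.cos x ^ 2) := by ring
      rw [this, h2, mul_one]
    rw [hg2]; linarith
  have h6 : |t * Real.cos x| < g := abs_lt_of_sq_lt_sq h5 hg0.le
  have h7 := (abs_lt.1 h6).2
  have h9 := sq_le_sq.1 h4
  rw [abs_of_pos hg0] at h9
  rcases le_abs.1 h9 with h8 | h8
  · linarith
  · linarith

/-- the convexity constant in `x` -/
private theorem cvx_x {t : ℝ} (ht0 : 0 ≤ t) (ht1 : t ≤ 1) :
    ConvexOn ℝ Set.univ fun x => DD t x + t * (1 + t / √(1.0401 ^ 2 - t ^ 2)) / 2 * x ^ 2 := by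
  set r := √(1.0401 ^ 2 - t ^ 2) with hr
  set κ := t * (1 + t / r) with hκ
  have hpos : ∀ x : ℝ, 0 < 1.0401 ^ 2 - t ^ 2 * Real.sin x ^ 2 := fun x => by
    obtain ⟨h1, h2⟩ := pos_in ht0 ht1 (Real.sin_sq_le_one x)
    linarith
  have hr0 : 0 < r := Real.sqrt_pos.2 (pos_in ht0 ht1 (Real.sin_sq_le_one 0)).2
  have hg0 : ∀ x : ℝ, 0 < √(1.0401 ^ 2 - t ^ 2 * Real.sin x ^ 2) := fun x =>
    Real.sqrt_pos.2 (hpos x)
  have hin : ∀ x : ℝ, HasDerivAt (fun x => 1.0401 ^ 2 - t ^ 2 * Real.sin x ^ 2)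
      (-(2 * t ^ 2 * Real.sin x * Real.cos x)) x := by
    intro x
    have h1 := ((Real.hasDerivAt_sin x).pow 2).const_mul (t ^ 2)
    have h2 := h1.const_sub (1.0401 ^ 2)
    refine h2.congr_deriv ?_
    simp
    ring
  have hg1 : ∀ x : ℝ, HasDerivAt (fun x => √(1.0401 ^ 2 - t ^ 2 * Real.sin x ^ 2))
      (-(t ^ 2 * Real.sin x * Real.cos x) / √(1.0401 ^ 2 - t ^ 2 * Real.sin x ^ 2)) x := by
    intro x
    have h1 := (hin x).sqrt (hpos x).ne'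
    refine h1.congr_deriv ?_
    have := (hg0 x).ne'
    field_simp
  refine convexOn_of_hasDerivWithinAt2_nonneg (f := fun x => DD t x + κ / 2 * x ^ 2)
    (f' := fun x => -(t * Real.sin x) +
      -(t ^ 2 * Real.sin x * Real.cos x) / √(1.0401 ^ 2 - t ^ 2 * Real.sin x ^ 2) + κ * x)
    (f'' := fun x => -(t * Real.cos x) +
      (-(t ^ 2 * (Real.cos x ^ 2 - Real.sin x ^ 2)) * √(1.0401 ^ 2 - t ^ 2 * Real.sin x ^ 2) -
        (-(t ^ 2 * Real.sin x * Real.cos x)) *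
        (-(t ^ 2 * Real.sin x * Real.cos x) / √(1.0401 ^ 2 - t ^ 2 * Real.sin x ^ 2))) /
        √(1.0401 ^ 2 - t ^ 2 * Real.sin x ^ 2) ^ 2 + κ) convex_univ ?_ ?_ ?_ ?_
  · refine Continuous.continuousOn ?_
    unfold DD
    fun_prop
  · intro x _
    refine HasDerivAt.hasDerivWithinAt ?_
    unfold DD
    have h1 := (Real.hasDerivAt_cos x).const_mul t
    have h2 := (hasDerivAt_pow 2 x).const_mul (κ / 2)
    refine ((h1.add (hg1 x)).add h2).congr_deriv ?_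
    simp
    ring
  · intro x _
    refine HasDerivAt.hasDerivWithinAt ?_
    have h1 := ((Real.hasDerivAt_sin x).const_mul t).neg
    have h2 : HasDerivAt (fun x => -(t ^ 2 * Real.sin x * Real.cos x))
        (-(t ^ 2 * (Real.cos x ^ 2 - Real.sin x ^ 2))) x := by
      have h3 := (((Real.hasDerivAt_sin x).const_mul (t ^ 2)).mul (Real.hasDerivAt_cos x)).neg
      refine h3.congr_deriv ?_
      ring
    have h3 := h2.div (hg1 x) (hg0 x).ne'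
    have h4 := (hasDerivAt_id x).const_mul κ
    refine ((h1.add h3).add h4).congr_deriv ?_
    simp
  · intro x _
    have hs := Real.sin_sq_add_cos_sq x
    have hgx := hg0 x
    have hg2 : √(1.0401 ^ 2 - t ^ 2 * Real.sin x ^ 2) ^ 2 = 1.0401 ^ 2 - t ^ 2 * Real.sin x ^ 2 :=
      Real.sq_sqrt (hpos x).le
    have hrg : r ≤ √(1.0401 ^ 2 - t ^ 2 * Real.sin x ^ 2) :=
      Real.sqrt_le_sqrt (pos_in ht0 ht1 (Real.sin_sq_le_one x)).1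
    set g := √(1.0401 ^ 2 - t ^ 2 * Real.sin x ^ 2) with hg
    set s := Real.sin x with hsd
    set c := Real.cos x with hcd
    have hc1 : c ≤ 1 := Real.cos_le_one x
    have e1 : (-(t ^ 2 * (c ^ 2 - s ^ 2)) * g - (-(t ^ 2 * s * c)) * (-(t ^ 2 * s * c) / g)) / g ^ 2 =
        -(t ^ 2 * ((c ^ 2 - s ^ 2) * g ^ 2 + t ^ 2 * s ^ 2 * c ^ 2)) / g ^ 3 := by
      field_simp
      ring
    have e2 : (c ^ 2 - s ^ 2) * g ^ 2 + t ^ 2 * s ^ 2 * c ^ 2 ≤ g ^ 2 := by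
      have ht2 : t ^ 2 ≤ 1.0401 ^ 2 := by
        have := (pos_in ht0 ht1 (Real.sin_sq_le_one 0)).2
        linarith
      have e3 : (c ^ 2 - s ^ 2) * g ^ 2 + t ^ 2 * s ^ 2 * c ^ 2 =
          c ^ 2 * 1.0401 ^ 2 - s ^ 2 * g ^ 2 := by
        have : c ^ 2 * 1.0401 ^ 2 = c ^ 2 * (g ^ 2 + t ^ 2 * s ^ 2) := by rw [hg2]; ring
        rw [this]; ring
      have e4 : c ^ 2 * 1.0401 ^ 2 ≤ g ^ 2 := by
        have : c ^ 2 = 1 - s ^ 2 := by linarith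
        rw [this, hg2]
        nlinarith [sq_nonneg s]
      rw [e3]
      nlinarith [sq_nonneg s, sq_nonneg g]
    have e5 : -(t ^ 2) / r ≤ -(t ^ 2 * ((c ^ 2 - s ^ 2) * g ^ 2 + t ^ 2 * s ^ 2 * c ^ 2)) / g ^ 3 := by
      rw [neg_div, neg_div, neg_le_neg_iff]
      calc t ^ 2 * ((c ^ 2 - s ^ 2) * g ^ 2 + t ^ 2 * s ^ 2 * c ^ 2) / g ^ 3 ≤
          t ^ 2 * g ^ 2 / g ^ 3 := by
            refine div_le_div_of_nonneg_right ?_ (by positivity)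
            exact mul_le_mul_of_nonneg_left e2 (sq_nonneg t)
        _ = t ^ 2 / g := by field_simp
        _ ≤ t ^ 2 / r := div_le_div_of_nonneg_left (sq_nonneg t) hr0 hrg
    rw [e1]
    have e6 : κ = t + t ^ 2 / r := by rw [hκ]; ring
    have e7 : t * c ≤ t := by nlinarith
    rw [e6]
    rw [neg_div] at e5
    linarith

/-- Interpolation in `x`.  With `κ = t (1 + t / √(M - t²))` the function `x ↦ DD t x + κ x² / 2` is
convex: for `g = √(M - t² sin² x)` one has `g' = - t² sin x cos x / g`,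
`g'' = - (t² cos 2x + g'²) / g = - t² (c² M / g² - s²) / g` (`c = cos x`, `s = sin x`), and
`c² M ≤ g²` because `t² ≤ M`, so `g'' ≥ - t² / g ≥ - t² / √(M - t²)`.
Then `μ(1-μ) ≤ 1/4`. -/
theorem DD_interp_x {t x0 x1 k : ℝ} (ht0 : 0 ≤ t) (ht1 : t ≤ 1) (hx : x0 ≤ x1) (hk0 : 0 ≤ k)
    (hk1 : k ≤ 1) :
    DD t ((1 - k) * x0 + k * x1) ≤ (1 - k) * DD t x0 + k * DD t x1 +
      (x1 - x0) ^ 2 / 8 * (t * (1 + t / √(1.0401 ^ 2 - t ^ 2))) := by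
  have h := (cvx_x ht0 ht1).2 (Set.mem_univ x0) (Set.mem_univ x1) (sub_nonneg.2 hk1) hk0 (by ring)
  simp only [smul_eq_mul] at h
  have hr0 : 0 < √(1.0401 ^ 2 - t ^ 2) :=
    Real.sqrt_pos.2 (pos_in ht0 ht1 (Real.sin_sq_le_one 0)).2
  set κ := t * (1 + t / √(1.0401 ^ 2 - t ^ 2)) with hκ
  have hκ0 : 0 ≤ κ := by positivity
  have h1 : (1 - k) * (κ / 2 * x0 ^ 2) + k * (κ / 2 * x1 ^ 2) -
      κ / 2 * ((1 - k) * x0 + k * x1) ^ 2 = κ / 2 * (k * (1 - k)) * (x1 - x0) ^ 2 := by ring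
  have h2 : κ / 2 * (k * (1 - k)) * (x1 - x0) ^ 2 ≤ κ / 2 * (1 / 4) * (x1 - x0) ^ 2 := by
    refine mul_le_mul_of_nonneg_right ?_ (sq_nonneg _)
    refine mul_le_mul_of_nonneg_left ?_ (by positivity)
    nlinarith [sq_nonneg (k - 1 / 2)]
  have h3 : κ / 2 * (1 / 4) * (x1 - x0) ^ 2 = (x1 - x0) ^ 2 / 8 * κ := by ring
  linarith

private theorem cvx_t {t0 t1 : ℝ} (x : ℝ) (h0 : 0 ≤ t0) (h01 : t0 ≤ t1) (h1 : t1 ≤ 1) :
    ConvexOn ℝ (Set.Icc t0 t1) fun t =>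
      DD t x + 1.0401 ^ 2 / √(1.0401 ^ 2 - t1 ^ 2) ^ 3 / 2 * t ^ 2 := by
  set r := √(1.0401 ^ 2 - t1 ^ 2) with hr
  set κ := 1.0401 ^ 2 / r ^ 3 with hκ
  set s := Real.sin x with hs
  have hs1 : s ^ 2 ≤ 1 := Real.sin_sq_le_one x
  have hpos : ∀ t ∈ Set.Icc t0 t1, 0 < 1.0401 ^ 2 - t ^ 2 * s ^ 2 := fun t ht => by
    obtain ⟨h1, h2⟩ := pos_in (h0.trans ht.1) (ht.2.trans h1) hs1
    linarith
  have hr0 : 0 < r := Real.sqrt_pos.2 (pos_in (h0.trans h01) h1 hs1).2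
  have hg0 : ∀ t ∈ Set.Icc t0 t1, 0 < √(1.0401 ^ 2 - t ^ 2 * s ^ 2) := fun t ht =>
    Real.sqrt_pos.2 (hpos t ht)
  have hsub : interior (Set.Icc t0 t1) ⊆ Set.Icc t0 t1 := interior_subset
  have hin : ∀ t : ℝ, HasDerivAt (fun t => 1.0401 ^ 2 - t ^ 2 * s ^ 2)
      (-(2 * t * s ^ 2)) t := by
    intro t
    have h1 := ((hasDerivAt_pow 2 t).mul_const (s ^ 2)).const_sub (1.0401 ^ 2)
    refine h1.congr_deriv ?_
    simp
  have hg1 : ∀ t ∈ Set.Icc t0 t1, HasDerivAt (fun t => √(1.0401 ^ 2 - t ^ 2 * s ^ 2))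
      (-(t * s ^ 2) / √(1.0401 ^ 2 - t ^ 2 * s ^ 2)) t := by
    intro t ht
    have h1 := (hin t).sqrt (hpos t ht).ne'
    refine h1.congr_deriv ?_
    have := (hg0 t ht).ne'
    field_simp
  refine convexOn_of_hasDerivWithinAt2_nonneg (f := fun t => DD t x + κ / 2 * t ^ 2)
    (f' := fun t => Real.cos x + -(t * s ^ 2) / √(1.0401 ^ 2 - t ^ 2 * s ^ 2) + κ * t)
    (f'' := fun t =>
      (-(s ^ 2) * √(1.0401 ^ 2 - t ^ 2 * s ^ 2) -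
        (-(t * s ^ 2)) * (-(t * s ^ 2) / √(1.0401 ^ 2 - t ^ 2 * s ^ 2))) /
        √(1.0401 ^ 2 - t ^ 2 * s ^ 2) ^ 2 + κ) (convex_Icc t0 t1) ?_ ?_ ?_ ?_
  · refine Continuous.continuousOn ?_
    unfold DD
    fun_prop
  · intro t ht
    refine HasDerivAt.hasDerivWithinAt ?_
    unfold DD
    have h1 := (hasDerivAt_id t).mul_const (Real.cos x)
    have h2 := (hasDerivAt_pow 2 t).const_mul (κ / 2)
    refine ((h1.add (hg1 t (hsub ht))).add h2).congr_deriv ?_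
    simp
    ring
  · intro t ht
    refine HasDerivAt.hasDerivWithinAt ?_
    have h2 : HasDerivAt (fun t => -(t * s ^ 2)) (-(s ^ 2)) t := by
      have h3 := ((hasDerivAt_id t).mul_const (s ^ 2)).neg
      refine h3.congr_deriv ?_
      ring
    have h3 := h2.div (hg1 t (hsub ht)) (hg0 t (hsub ht)).ne'
    have h4 := (hasDerivAt_id t).const_mul κ
    refine (((hasDerivAt_const t (Real.cos x)).add h3).add h4).congr_deriv ?_
    simp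
  · intro t ht
    have ht' := hsub ht
    have hgx := hg0 t ht'
    have hg2 : √(1.0401 ^ 2 - t ^ 2 * s ^ 2) ^ 2 = 1.0401 ^ 2 - t ^ 2 * s ^ 2 :=
      Real.sq_sqrt (hpos t ht').le
    have hrg : r ≤ √(1.0401 ^ 2 - t ^ 2 * s ^ 2) := by
      refine Real.sqrt_le_sqrt ?_
      have h2 : t ^ 2 ≤ t1 ^ 2 := pow_le_pow_left₀ (h0.trans ht'.1) ht'.2 2
      have h3 : t ^ 2 * s ^ 2 ≤ t ^ 2 := by nlinarith [sq_nonneg t]
      linarith
    set g := √(1.0401 ^ 2 - t ^ 2 * s ^ 2) with hg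
    have e1 : (-(s ^ 2) * g - (-(t * s ^ 2)) * (-(t * s ^ 2) / g)) / g ^ 2 =
        -(s ^ 2 * 1.0401 ^ 2) / g ^ 3 := by
      have e2 : (-(s ^ 2) * g - (-(t * s ^ 2)) * (-(t * s ^ 2) / g)) / g ^ 2 =
        -(s ^ 2 * (g ^ 2 + t ^ 2 * s ^ 2)) / g ^ 3 := by
        field_simp
        ring
      rw [e2, hg2]
      congr 1
      ring
    have e3 : s ^ 2 * 1.0401 ^ 2 / g ^ 3 ≤ κ := by
      rw [hκ]
      have h4 : r ^ 3 ≤ g ^ 3 := pow_le_pow_left₀ hr0.le hrg 3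
      have h5 : s ^ 2 * 1.0401 ^ 2 ≤ 1.0401 ^ 2 := by nlinarith
      exact div_le_div₀ (by positivity) h5 (by positivity) h4
    rw [e1, neg_div]
    linarith

/-- Interpolation in `t`.  `t ↦ √(M - t² s²)` (`s = sin x`) has second derivative
`- M s² / (M - t² s²)^(3/2) ≥ - M / (M - t1²)^(3/2)` on `[t0, t1]`; the other summand is linear. -/
theorem DD_interp_t {t0 t1 x l : ℝ} (h0 : 0 ≤ t0) (h01 : t0 ≤ t1) (h1 : t1 ≤ 1) (hl0 : 0 ≤ l)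
    (hl1 : l ≤ 1) :
    DD ((1 - l) * t0 + l * t1) x ≤ (1 - l) * DD t0 x + l * DD t1 x +
      (t1 - t0) ^ 2 / 8 * (1.0401 ^ 2 / √(1.0401 ^ 2 - t1 ^ 2) ^ 3) := by
  have h := (cvx_t x h0 h01 h1).2 (Set.left_mem_Icc.2 h01) (Set.right_mem_Icc.2 h01)
    (sub_nonneg.2 hl1) hl0 (by ring)
  simp only [smul_eq_mul] at h
  have hr0 : 0 < √(1.0401 ^ 2 - t1 ^ 2) :=
    Real.sqrt_pos.2 (pos_in (h0.trans h01) h1 (Real.sin_sq_le_one 0)).2
  set κ := 1.0401 ^ 2 / √(1.0401 ^ 2 - t1 ^ 2) ^ 3 with hκ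
  have hκ0 : 0 ≤ κ := by positivity
  have h1 : (1 - l) * (κ / 2 * t0 ^ 2) + l * (κ / 2 * t1 ^ 2) -
      κ / 2 * ((1 - l) * t0 + l * t1) ^ 2 = κ / 2 * (l * (1 - l)) * (t1 - t0) ^ 2 := by ring
  have h2 : κ / 2 * (l * (1 - l)) * (t1 - t0) ^ 2 ≤ κ / 2 * (1 / 4) * (t1 - t0) ^ 2 := by
    refine mul_le_mul_of_nonneg_right ?_ (sq_nonneg _)
    refine mul_le_mul_of_nonneg_left ?_ (by positivity)
    nlinarith [sq_nonneg (l - 1 / 2)]
  have h3 : κ / 2 * (1 / 4) * (t1 - t0) ^ 2 = (t1 - t0) ^ 2 / 8 * κ := by ring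
  linarith

/-- Combination of the two previous theorems; `t (1 + t / √(M - t²))` is increasing in `t`. -/
theorem DD_bilin {t0 t1 x0 x1 l k : ℝ} (h0 : 0 ≤ t0) (h01 : t0 ≤ t1) (h1 : t1 ≤ 1)
    (hx : x0 ≤ x1) (hl0 : 0 ≤ l) (hl1 : l ≤ 1) (hk0 : 0 ≤ k) (hk1 : k ≤ 1) :
    DD ((1 - l) * t0 + l * t1) ((1 - k) * x0 + k * x1) ≤
      (1 - l) * ((1 - k) * DD t0 x0 + k * DD t0 x1) +
      l * ((1 - k) * DD t1 x0 + k * DD t1 x1) +
      (x1 - x0) ^ 2 / 8 * (t1 * (1 + t1 / √(1.0401 ^ 2 - t1 ^ 2))) +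
      (t1 - t0) ^ 2 / 8 * (1.0401 ^ 2 / √(1.0401 ^ 2 - t1 ^ 2) ^ 3) := by
  have ha := DD_interp_t (x := (1 - k) * x0 + k * x1) h0 h01 h1 hl0 hl1
  have hb := DD_interp_x h0 (h01.trans h1) hx hk0 hk1
  have hc := DD_interp_x (h0.trans h01) h1 hx hk0 hk1
  have hr1 : 0 < √(1.0401 ^ 2 - t1 ^ 2) :=
    Real.sqrt_pos.2 (pos_in (h0.trans h01) h1 (Real.sin_sq_le_one 0)).2
  have hrr : √(1.0401 ^ 2 - t1 ^ 2) ≤ √(1.0401 ^ 2 - t0 ^ 2) := by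
    refine Real.sqrt_le_sqrt ?_
    have := pow_le_pow_left₀ h0 h01 2
    linarith
  have hκ : t0 * (1 + t0 / √(1.0401 ^ 2 - t0 ^ 2)) ≤ t1 * (1 + t1 / √(1.0401 ^ 2 - t1 ^ 2)) := by
    have h2 : t0 / √(1.0401 ^ 2 - t0 ^ 2) ≤ t1 / √(1.0401 ^ 2 - t1 ^ 2) :=
      div_le_div₀ (h0.trans h01) h01 hr1 hrr
    have h3 : 0 ≤ t0 / √(1.0401 ^ 2 - t0 ^ 2) := by positivity
    exact mul_le_mul h01 (by linarith) (by linarith) (h0.trans h01)
  set A := t0 * (1 + t0 / √(1.0401 ^ 2 - t0 ^ 2))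
  set B := t1 * (1 + t1 / √(1.0401 ^ 2 - t1 ^ 2))
  have hb' : DD t0 ((1 - k) * x0 + k * x1) ≤ (1 - k) * DD t0 x0 + k * DD t0 x1 +
      (x1 - x0) ^ 2 / 8 * B := by
    refine hb.trans ?_
    have := mul_le_mul_of_nonneg_left hκ (by positivity : 0 ≤ (x1 - x0) ^ 2 / 8)
    linarith
  have e1 := mul_le_mul_of_nonneg_left hb' (sub_nonneg.2 hl1)
  have e2 := mul_le_mul_of_nonneg_left hc hl0
  linarith

end Pool.Agent.Helper58.LD
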