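import Mathlib

/-!
# Project LD (MP_599705_an, Landau constant): the distance function of a disc (piece LD-DFun)

`Df M t x` is the distance from `0` to the far boundary point of the disc of radius `√M` with centre
at distance `t` from `0`, in the direction which makes the angle `x` with the centre.
-/

set_option autoImplicit false

namespace Pool.Agent.Helper58.LD

/-- the distance function -/
noncomputable def Df (M t x : ℝ) : ℝ := t * Real.cos x + √(M - t ^ 2 * Real.sin x ^ 2)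

/-- Proof. `(ρ - t cos x) ^ 2 ≤ M - t ^ 2 sin ^ 2 x`. -/
theorem Df_ge {M t x ρ : ℝ} (h : ρ ^ 2 + t ^ 2 - 2 * ρ * t * Real.cos x ≤ M) : ρ ≤ Df M t x := by
  sorry

/-- Proof. `t < 1 ≤ √M` : the right side is larger. Or from `Df ^ 2 + t ^ 2 - 2 Df t cos x = M`. -/
theorem Df_eq {M t x : ℝ} (hM : 1 < M) (ht : 0 ≤ t) (ht1 : t ≤ 1) :
    Df M t x ^ 2 + t ^ 2 - 2 * Df M t x * t * Real.cos x = M ∧ 0 < Df M t x := by
  sorry

/-- `Df` is decreasing in the angle. -/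
theorem Df_anti {M t x y : ℝ} (hM : 1 < M) (ht : 0 ≤ t) (ht1 : t ≤ 1) (hx : 0 ≤ x) (hxy : x ≤ y)
    (hy : y ≤ Real.pi) : Df M t y ≤ Df M t x := by
  sorry

/-- (D1) interpolation in the angle.
Proof (hints of helper58). Let `P` be the right side without the last term plus the last term;
because `Df M t x` is the larger root of `ρ ^ 2 + t ^ 2 - 2 ρ t cos x = M`, it is enough that
`P - t cos x ≥ 0` and `(P - t cos x) ^ 2 + t ^ 2 sin ^ 2 x ≥ M`. With `C i = cos (x i)`, `D i = Df M t (x i)` one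
has `(D0 - D1) (D0 + D1 - t (C0 + C1)) = t (C0 - C1) (D0 + D1)`. Alternatively (calculus): `g x =
Df M t x` has `g'' ≥ - t (1 + t / √(M - t ^ 2))`, so `g + t (1 + t / √(M - t ^ 2)) x ^ 2 / 2` is convex
on `ℝ` (`g' = - t sin x - t ^ 2 sin x cos x / √(M - t ^ 2 sin ^ 2 x)`; the second term of `g''` is
`- t ^ 2 (cos ^ 2 x - sin ^ 2 x) / S - t ^ 4 sin ^ 2 x cos ^ 2 x / S ^ 3`, `S = √(M - t ^ 2 sin ^ 2 x)`; show
that its modulus is at most `t ^ 2 / √(M - t ^ 2)` if it is negative: multiply by `S ^ 3`: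
`(cos ^ 2 - sin ^ 2) (M - t ^ 2 sin ^ 2) + t ^ 2 sin ^ 2 cos ^ 2 = M (cos ^ 2 - sin ^ 2) + t ^ 2 sin ^ 4 ≤ S ^ 2`
since `S ^ 2 - M cos ^ 2 + M sin ^ 2 - t ^ 2 sin ^ 4 = (2 M - t ^ 2 - t ^ 2 sin ^ 2) sin ^ 2 ≥ 0`). -/
theorem Df_interp_x {M t x0 x1 s : ℝ} (hM : 1 < M) (ht : 0 ≤ t) (ht1 : t ≤ 1) (hx : x0 ≤ x1)
    (hs : 0 ≤ s) (hs1 : s ≤ 1) :
    Df M t ((1 - s) * x0 + s * x1) ≤ (1 - s) * Df M t x0 + s * Df M t x1 +
      (x1 - x0) ^ 2 / 8 * (t * (1 + t / √(M - t ^ 2))) := by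
  sorry

/-- (D2) interpolation in the distance of the centre. Proof: `t ↦ √(M - t ^ 2 σ)` with
`σ = sin ^ 2 x ∈ [0, 1]` has the second derivative `- σ M / (M - t ^ 2 σ) ^ (3 / 2)`, and
`σ M / (M - t ^ 2 σ) ^ (3 / 2) ≤ M / (M - t1 ^ 2) ^ (3 / 2) = (1 + t1 ^ 2 / (M - t1 ^ 2)) / √(M - t1 ^ 2)`. -/
theorem Df_interp_t {M t0 t1 x s : ℝ} (hM : 1 < M) (ht0 : 0 ≤ t0) (ht : t0 ≤ t1) (ht1 : t1 ≤ 1)
    (hs : 0 ≤ s) (hs1 : s ≤ 1) :
    Df M ((1 - s) * t0 + s * t1) x ≤ (1 - s) * Df M t0 x + s * Df M t1 x +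
      (t1 - t0) ^ 2 / 8 * ((1 + t1 ^ 2 / (M - t1 ^ 2)) / √(M - t1 ^ 2)) := by
  sorry

end Pool.Agent.Helper58.LD
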