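import Pool.Agent.Helper58.LD.Step

/-!
# Project LD (MP_599705_an): definitions

Angles are measured in cells of size `uu = π / 360`; the angle `ψ` relative to the direction `ω`
of the centre is stored as `x = ψ / uu + 360` (or `+ 1080`).  The parameter `t` is stored as
`256 * t`, radii as `10 ^ 5 * d`, integrals as `10 ^ 6 / uu * ∫`.
-/

set_option autoImplicit false

namespace Pool.Agent.Helper58.LD

open Complex Metric Set MeasureTheory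
open Pool.Agent.Helper91.LC
open Pool.Agent.Helper54.LN

/-! ### real functions -/

/-- the size of a cell -/
noncomputable def uu : ℝ := Real.pi / 360

/-- the obstacle of a point at distance `d`, at angular distance `x` -/
noncomputable def Hf (d x : ℝ) : ℝ := psiS (0.7056 + d ^ 2 - 1.68 * d * Real.cos x)

/-- distance from the origin, in direction `x`, of the circle with radius `1.0401` and centre `t` -/
noncomputable def DD (t x : ℝ) : ℝ := t * Real.cos x + √(1.0401 ^ 2 - t ^ 2 * Real.sin x ^ 2)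

/-! ### tables -/

/-- the tables and the potentials: potential `j` is `g ↦ pB j * g - pA j` -/
structure Tb where
  /-- integrals of `Hf`, 25 bits per entry -/
  TN : ℕ
  /-- values of `Hf`, 20 bits per entry -/
  TH : ℕ
  /-- error coefficients, 32 bits per entry -/
  TE : ℕ
  /-- slopes of the potentials -/
  pB : ℕ → ℕ
  /-- constants of the potentials -/
  pA : ℕ → ℕ

/-- entries `(k, s)` and `(k + 1, s)` of `TN` -/
def pr (P : Tb) (k s : ℕ) : ℕ :=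
  Nat.land (Nat.shiftRight P.TN (Nat.mul 25 (Nat.add (Nat.mul 88 s) k))) 1125899906842623

/-- entry `(k, s)` of `TN` -/
def en (P : Tb) (k s : ℕ) : ℕ := Nat.land (pr P k s) 33554431

/-- entry `(k, s)` minus entry `(k + 1, s)` -/
def de (P : Tb) (k s : ℕ) : ℕ := Nat.sub (en P k s) (Nat.shiftRight (pr P k s) 25)

/-- entry `(c, n)` of `TH` -/
def hh (P : Tb) (c n : ℕ) : ℕ :=
  Nat.land (Nat.shiftRight P.TH (Nat.mul 20 (Nat.add (Nat.mul 88 n) c))) 1048575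

/-- the line of the entry `(k, s)` -/
noncomputable def Ln (P : Tb) (k s : ℕ) (d : ℝ) : ℝ :=
  (en P k s : ℝ) + (de P k s : ℝ) * (100 + k) - 100 * (de P k s : ℝ) * d

/-- row `j` of the table `TD` of radii -/
def row (TD j : ℕ) : ℕ :=
  Nat.land (Nat.shiftRight TD (Nat.mul 6498 j)) (Nat.sub (Nat.pow 2 6498) 1)

/-- `n` cells (offset 360) folded to `0..360` -/
def fo (n : ℕ) : ℕ :=
  bif Nat.ble (Nat.mod (Nat.add n 360) 720) 360 then Nat.mod (Nat.add n 360) 720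
  else Nat.sub 720 (Nat.mod (Nat.add n 360) 720)

/-- entry of a row -/
def ent (r n : ℕ) : ℕ := Nat.land (Nat.shiftRight r (Nat.mul 18 (fo n))) 262143

/-- error coefficients -/
def ee (P : Tb) (t : ℕ) : ℕ := Nat.land (Nat.shiftRight P.TE (Nat.mul 32 t)) 4294967295

/-- error of the bilinear interpolation, for `t0 ≤ 256 t ≤ t1` and `w` cells -/
def er (P : Tb) (t0 t1 w : ℕ) : ℕ :=
  Nat.succ (Nat.div (Nat.add (Nat.mul (Nat.mul w w) (Nat.land (ee P t1) 65535))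
    (Nat.mul (Nat.mul (Nat.sub t1 t0) (Nat.sub t1 t0)) (Nat.shiftRight (ee P t1) 16))) 1000)

/-! ### properties of the tables -/

/-- the lines are lower bounds of the integrals -/
def GoodN (P : Tb) : Prop :=
  ∀ k s : ℕ, k ≤ 84 → s ≤ 132 → ∀ d : ℝ, 1 ≤ d →
    Ln P k s d ≤ 10 ^ 6 / uu * ∫ x in (0 : ℝ)..(s * uu), Hf d x

/-- the values of `TH` are lower bounds of `Hf` -/
def GoodH (P : Tb) : Prop :=
  ∀ c n : ℕ, c ≤ 85 → n ≤ 132 → (hh P c n : ℝ) ≤ 10 ^ 6 * Hf (1 + c / 100) (n * uu)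

/-- bilinear interpolation of `DD` -/
def GoodD (P : Tb) (TD tb : ℕ) : Prop :=
  ∀ t0 t1 lo hi : ℕ, tb ≤ t0 → t0 ≤ t1 → t1 ≤ tb + 32 → lo ≤ hi →
    ∀ l k : ℝ, 0 ≤ l → l ≤ 1 → 0 ≤ k → k ≤ 1 →
      10 ^ 5 * DD (((1 - l) * t0 + l * t1) / 256) (uu * ((1 - k) * lo + k * hi - 360)) ≤
        (1 - l) * ((1 - k) * (ent (row TD (t0 - tb)) lo : ℝ) +
          k * (ent (row TD (t0 - tb)) hi : ℝ)) +
        l * ((1 - k) * (ent (row TD (t1 - tb)) lo : ℝ) +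
          k * (ent (row TD (t1 - tb)) hi : ℝ)) + er P t0 t1 (hi - lo)

/-- facts about an edge: points at distances `di`, `dj`, gap `g`, mass `J`; the potentials
`j < np` hold for it -/
structure EF (P : Tb) (np : ℕ) (di dj g J : ℝ) : Prop where
  g0 : 0 ≤ g
  nn : 0 ≤ J
  pot : ∀ j < np, 260 ≤ g → (P.pB j : ℝ) * g - (P.pA j : ℝ) ≤ J
  lf : ∀ k s k' s' : ℕ, k ≤ 84 → s ≤ 132 → k' ≤ 84 → s' ≤ 132 → (s : ℝ) + s' ≤ g →
    Ln P k s di + Ln P k' s' dj ≤ J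
  lm : ∀ k s k' s' c c' w : ℕ, k ≤ 84 → s + w ≤ 132 → k' ≤ 84 → s' + w ≤ 132 → c ≤ 85 →
    c' ≤ 85 → (s : ℝ) + s' ≤ g → g ≤ s + s' + 2 * w → di ≤ 1 + c / 100 → dj ≤ 1 + c' / 100 →
    Ln P k s di + Ln P k' s' dj +
      ((hh P c (s + w) : ℝ) + (hh P c' (s' + w) : ℝ)) / 2 * (g - s - s') ≤ J
  tip : ∀ k k' n : ℕ, k ≤ 84 → k' ≤ 84 → 0 < n → n ≤ 132 → g ≤ 2 * n →
    g * (Ln P k n di + Ln P k' n dj) ≤ 2 * n * J

/-! ### certificates -/

/-- lower bounds of the mass of an edge -/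
inductive EB
  | pot (j : ℕ)
  | lf (k s k' s' : ℕ)
  | lm (k s k' s' c c' w : ℕ)

/-- leaves -/
inductive Leaf
  | low (i : ℕ)
  | inf
  | tipa (k k' n : ℕ)
  | tipb (k k' n : ℕ)
  | dir (e : EB)
  | two (e f : EB)
  | thr (e f g : EB)

/-- trees of boxes -/
inductive Tree
  | lf (l : Leaf)
  | t (v : ℕ) (l r : Tree)
  | a (v : ℕ) (l r : Tree)
  | z (v : ℕ) (l r : Tree)
  | y (v : ℕ) (l r : Tree)

/-- contribution of a pair of leaves to the constant -/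
def lc (P : Tb) (k s k' s' : ℕ) : ℕ :=
  Nat.mul 2000 (Nat.add (Nat.add (en P k s) (en P k' s'))
    (Nat.add (Nat.mul (de P k s) (Nat.add 100 k)) (Nat.mul (de P k' s') (Nat.add 100 k'))))

/-- constant, positive part (all numbers of an edge bound are `2000` times the bound) -/
def EB.cp (P : Tb) : EB → ℕ
  | .pot _ => 0
  | .lf k s k' s' => lc P k s k' s'
  | .lm k s k' s' _ _ _ => lc P k s k' s'

/-- slope in the gap -/
def EB.kk (P : Tb) : EB → ℕ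
  | .pot j => Nat.mul 2000 (P.pB j)
  | .lf _ _ _ _ => 0
  | .lm _ s _ s' c c' w =>
    Nat.mul 1000 (Nat.add (hh P c (Nat.add s w)) (hh P c' (Nat.add s' w)))

/-- constant, negative part -/
def EB.cm (P : Tb) : EB → ℕ
  | .pot j => Nat.mul 2000 (P.pA j)
  | .lf _ _ _ _ => 0
  | .lm k s k' s' c c' w => Nat.mul (EB.kk P (.lm k s k' s' c c' w)) (Nat.add s s')

/-- slope in the first radius -/
def EB.bi (P : Tb) : EB → ℕ
  | .pot _ => 0
  | .lf k s _ _ => Nat.mul 2 (de P k s)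
  | .lm k s _ _ _ _ _ => Nat.mul 2 (de P k s)

/-- slope in the second radius -/
def EB.bj (P : Tb) : EB → ℕ
  | .pot _ => 0
  | .lf _ _ k' s' => Nat.mul 2 (de P k' s')
  | .lm _ _ k' s' _ _ _ => Nat.mul 2 (de P k' s')

/-- side conditions: the gap is between `g0` and `g1`, the radii are at most `r` and `r'` -/
def EB.ok (np g0 g1 r r' : ℕ) : EB → Bool
  | .pot j => Nat.blt j np && Nat.ble 260 g0
  | .lf k s k' s' => Nat.ble (Nat.add s s') g0 && (Nat.ble k 84 && (Nat.ble k' 84 &&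
      (Nat.ble s 132 && Nat.ble s' 132)))
  | .lm k s k' s' c c' w => Nat.ble (Nat.add s s') g0 && (Nat.ble k 84 && (Nat.ble k' 84 &&
      (Nat.ble (Nat.add s w) 132 && (Nat.ble (Nat.add s' w) 132 && (Nat.ble c 85 &&
      (Nat.ble c' 85 && (Nat.ble g1 (Nat.add (Nat.add s s') (Nat.mul 2 w)) &&
      (Nat.ble r (Nat.add 100000 (Nat.mul 1000 c)) &&
      Nat.ble r' (Nat.add 100000 (Nat.mul 1000 c'))))))))))

/-! ### evaluation of affine functions on a box -/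

/-- maximum -/
def mx (a b : ℕ) : ℕ := bif Nat.ble a b then b else a

/-- contribution of one vertex -/
def co (p q b n D : ℕ) : ℕ :=
  Nat.add (Nat.add (Nat.mul q n) (Nat.mul p (Nat.sub 1800 n))) (Nat.mul b D)

/-- contribution of one point -/
def cc (r p q b lo hi : ℕ) : ℕ := mx (co p q b lo (ent r lo)) (co p q b hi (ent r hi))

/-- the inequality at one value of `t` -/
def evr (r rhs lhs b0 b1 b2 ke kf kg a0 a1 z0 z1 y0 y1 : ℕ) : Bool :=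
  Nat.ble (Nat.add lhs (Nat.add (cc r kg ke b0 a0 a1) (Nat.add (cc r ke kf b1 z0 z1)
    (cc r kf kg b2 y0 y1)))) rhs

/-- certifies `0 ≤ cp - cm - b0 r0 - b1 r1 - b2 r2 + ke (x1 - x0) + kf (x2 - x1) + kg (x0 - x2)`
on the box, `ri` being `10 ^ 5` times the radii -/
def ev (P : Tb) (TD tb cp cm b0 b1 b2 ke kf kg t0 t1 a0 a1 z0 z1 y0 y1 : ℕ) : Bool :=
  Nat.ble tb t0 && (Nat.ble t1 (Nat.add tb 32) &&
  (evr (row TD (Nat.sub t0 tb)) (Nat.add cp (Nat.mul 1800 (Nat.add ke (Nat.add kf kg))))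
    (Nat.add cm (Nat.add (Nat.mul b0 (er P t0 t1 (Nat.sub a1 a0)))
      (Nat.add (Nat.mul b1 (er P t0 t1 (Nat.sub z1 z0)))
        (Nat.mul b2 (er P t0 t1 (Nat.sub y1 y0))))))
    b0 b1 b2 ke kf kg a0 a1 z0 z1 y0 y1 &&
  evr (row TD (Nat.sub t1 tb)) (Nat.add cp (Nat.mul 1800 (Nat.add ke (Nat.add kf kg))))
    (Nat.add cm (Nat.add (Nat.mul b0 (er P t0 t1 (Nat.sub a1 a0)))
      (Nat.add (Nat.mul b1 (er P t0 t1 (Nat.sub z1 z0)))
        (Nat.mul b2 (er P t0 t1 (Nat.sub y1 y0))))))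
    b0 b1 b2 ke kf kg a0 a1 z0 z1 y0 y1))

/-- upper bound of the radius on a box -/
def rm (P : Tb) (TD tb t0 t1 lo hi : ℕ) : ℕ :=
  Nat.add (mx (mx (ent (row TD (Nat.sub t0 tb)) lo) (ent (row TD (Nat.sub t0 tb)) hi))
    (mx (ent (row TD (Nat.sub t1 tb)) lo) (ent (row TD (Nat.sub t1 tb)) hi)))
    (er P t0 t1 (Nat.sub hi lo))

/-! ### the leaves of the recursion -/

/-- check of a leaf of the recursion for potential `K` -/
def leafR (P : Tb) (TD tb K : ℕ) (L : Leaf) (t0 t1 a0 a1 z0 z1 y0 y1 : ℕ) : Bool :=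
  match L with
  | .low i => bif Nat.beq i 0 then ev P TD tb 99999 0 1 0 0 0 0 0 t0 t1 a0 a1 z0 z1 y0 y1
    else bif Nat.beq i 1 then ev P TD tb 99999 0 0 1 0 0 0 0 t0 t1 a0 a1 z0 z1 y0 y1
    else ev P TD tb 99999 0 0 0 1 0 0 0 t0 t1 a0 a1 z0 z1 y0 y1
  | .inf => Nat.blt z1 a0 || (Nat.blt y1 z0 || (Nat.blt y1 (Nat.add a0 260) ||
      Nat.blt (Nat.add a1 360) y0))
  | .tipa k k' n => Nat.ble z1 (Nat.add a0 (Nat.mul 2 n)) && (Nat.ble (Nat.add z1 260) y0 &&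
      (Nat.blt 0 n && (Nat.ble n 132 && (Nat.ble k 84 && (Nat.ble k' 84 &&
      ev P TD tb (lc P k n k' n) (Nat.mul (Nat.mul 4000 n) (P.pB K))
        (Nat.mul 2 (de P k n)) (Nat.mul 2 (de P k' n)) 0 0 0 0 t0 t1 a0 a1 z0 z1 y0 y1)))))
  | .tipb k k' n => Nat.ble y1 (Nat.add z0 (Nat.mul 2 n)) && (Nat.ble (Nat.add a1 260) z0 &&
      (Nat.blt 0 n && (Nat.ble n 132 && (Nat.ble k 84 && (Nat.ble k' 84 &&
      ev P TD tb (lc P k n k' n) (Nat.mul (Nat.mul 4000 n) (P.pB K))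
        0 (Nat.mul 2 (de P k n)) (Nat.mul 2 (de P k' n)) 0 0 0 t0 t1 a0 a1 z0 z1 y0 y1)))))
  | .dir e => e.ok K (Nat.sub y0 a1) (Nat.sub y1 a0) (rm P TD tb t0 t1 a0 a1)
      (rm P TD tb t0 t1 y0 y1) &&
      ev P TD tb (Nat.add (e.cp P) (Nat.mul 2000 (P.pA K))) (e.cm P) (e.bi P) 0 (e.bj P)
        (e.kk P) (e.kk P) (Nat.mul 2000 (P.pB K)) t0 t1 a0 a1 z0 z1 y0 y1
  | .two e f => e.ok (Nat.succ K) (Nat.sub z0 a1) (Nat.sub z1 a0) (rm P TD tb t0 t1 a0 a1)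
      (rm P TD tb t0 t1 z0 z1) &&
      (f.ok (Nat.succ K) (Nat.sub y0 z1) (Nat.sub y1 z0) (rm P TD tb t0 t1 z0 z1)
      (rm P TD tb t0 t1 y0 y1) &&
      ev P TD tb (Nat.add (Nat.add (e.cp P) (f.cp P)) (Nat.mul 2000 (P.pA K)))
        (Nat.add (e.cm P) (f.cm P)) (e.bi P) (Nat.add (e.bj P) (f.bi P)) (f.bj P)
        (e.kk P) (f.kk P) (Nat.mul 2000 (P.pB K)) t0 t1 a0 a1 z0 z1 y0 y1)
  | .thr _ _ _ => false

/-- check of a leaf for the triangle of the origin, `np` potentials -/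
def leafT (P : Tb) (TD tb np : ℕ) (L : Leaf) (t0 t1 a0 a1 z0 z1 y0 y1 : ℕ) : Bool :=
  match L with
  | .low i => bif Nat.beq i 0 then ev P TD tb 99999 0 1 0 0 0 0 0 t0 t1 a0 a1 z0 z1 y0 y1
    else bif Nat.beq i 1 then ev P TD tb 99999 0 0 1 0 0 0 0 t0 t1 a0 a1 z0 z1 y0 y1
    else ev P TD tb 99999 0 0 0 1 0 0 0 t0 t1 a0 a1 z0 z1 y0 y1
  | .inf => Nat.blt z1 a0 || (Nat.blt y1 z0 || (Nat.blt y1 (Nat.add a0 360) ||
      (Nat.blt (Nat.add a1 360) z0 || (Nat.blt (Nat.add z1 360) y0 ||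
      (Nat.blt (Nat.add (Nat.mul 2 a1) 720) (Nat.add z0 y0) ||
      Nat.blt (Nat.add (Nat.add z1 a1) 720) (Nat.mul 2 y0))))))
  | .thr e f g => e.ok np (Nat.sub z0 a1) (Nat.sub z1 a0) (rm P TD tb t0 t1 a0 a1)
      (rm P TD tb t0 t1 z0 z1) &&
      (f.ok np (Nat.sub y0 z1) (Nat.sub y1 z0) (rm P TD tb t0 t1 z0 z1)
      (rm P TD tb t0 t1 y0 y1) &&
      (g.ok np (Nat.sub (Nat.add a0 720) y1) (Nat.sub (Nat.add a1 720) y0)
        (rm P TD tb t0 t1 y0 y1) (rm P TD tb t0 t1 a0 a1) &&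
      ev P TD tb (Nat.add (Nat.add (e.cp P) (Nat.add (f.cp P) (g.cp P)))
          (Nat.mul 720 (g.kk P)))
        (Nat.add (Nat.add (e.cm P) (Nat.add (f.cm P) (g.cm P))) 288720002000)
        (Nat.add (e.bi P) (g.bj P)) (Nat.add (e.bj P) (f.bi P)) (Nat.add (f.bj P) (g.bi P))
        (e.kk P) (f.kk P) (g.kk P) t0 t1 a0 a1 z0 z1 y0 y1))
  | _ => false

/-- check of a tree -/
def chk (L : Leaf → ℕ → ℕ → ℕ → ℕ → ℕ → ℕ → ℕ → ℕ → Bool) :
    Tree → ℕ → ℕ → ℕ → ℕ → ℕ → ℕ → ℕ → ℕ → Bool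
  | .lf l, t0, t1, a0, a1, z0, z1, y0, y1 => L l t0 t1 a0 a1 z0 z1 y0 y1
  | .t v l r, t0, t1, a0, a1, z0, z1, y0, y1 =>
    chk L l t0 v a0 a1 z0 z1 y0 y1 && chk L r v t1 a0 a1 z0 z1 y0 y1
  | .a v l r, t0, t1, a0, a1, z0, z1, y0, y1 =>
    chk L l t0 t1 a0 v z0 z1 y0 y1 && chk L r t0 t1 v a1 z0 z1 y0 y1
  | .z v l r, t0, t1, a0, a1, z0, z1, y0, y1 =>
    chk L l t0 t1 a0 a1 z0 v y0 y1 && chk L r t0 t1 a0 a1 v z1 y0 y1
  | .y v l r, t0, t1, a0, a1, z0, z1, y0, y1 =>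
    chk L l t0 t1 a0 a1 z0 z1 y0 v && chk L r t0 t1 a0 a1 z0 z1 v y1

/-- the point `(t, x0, x1, x2)` is in the box -/
structure InB (t0 t1 a0 a1 z0 z1 y0 y1 : ℕ) (t x0 x1 x2 : ℝ) : Prop where
  t0 : (t0 : ℝ) ≤ 256 * t
  t1 : 256 * t ≤ t1
  a0 : (a0 : ℝ) ≤ x0
  a1 : x0 ≤ a1
  z0 : (z0 : ℝ) ≤ x1
  z1 : x1 ≤ z1
  y0 : (y0 : ℝ) ≤ x2
  y1 : x2 ≤ y1

end Pool.Agent.Helper58.LD
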