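import Pool.Agent.Helper58.LD.Def

/-!
# Project LD (MP_599705_an), piece LD-EF: facts about an edge
-/

set_option autoImplicit false

namespace Pool.Agent.Helper58.LD

open Complex Metric Set MeasureTheory
open Pool.Agent.Helper91.LC
open Pool.Agent.Helper54.LN

/-- `Hf` is decreasing in the distance and in the angle (`psiS` is decreasing:
`Pool.Agent.Helper91.LC.R54Lower.psiS_anti`; `d² - 1.68 d cos x` is increasing in `d ≥ 1`). -/
theorem Hf_anti {d d' x x' : ℝ} (hd : 1 ≤ d) (hdd : d ≤ d') (hx : 0 ≤ x) (hxx : x ≤ x')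
    (hx' : x' ≤ Real.pi) : Hf d' x' ≤ Hf d x := by
  unfold Hf
  refine Pool.Agent.Helper91.LC.R54Lower.psiS_anti (sq_pos84 hd) ?_
  have hc : Real.cos x' ≤ Real.cos x := Real.cos_le_cos_of_nonneg_of_le_pi hx hx' hxx
  have hc1 := Real.cos_le_one x
  have h1 : 0 ≤ (d' - d) * (d' + d - 1.68 * Real.cos x) := by
    apply mul_nonneg (by linarith)
    linarith
  have h2 : 0 ≤ d' * (Real.cos x - Real.cos x') := by
    apply mul_nonneg (by linarith)
    linarith
  nlinarith

theorem Hf_nonneg {d x : ℝ} (hd : 1 ≤ d) : 0 ≤ Hf d x := by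
  unfold Hf
  exact Pool.Agent.Helper91.LC.R54Lower.psiS_nonneg _ (sq_pos84 hd)

/-- `V θ ≥ Hf d (θ - φ)` (`Cfg.low` and `dist_sq84`). -/
theorem Hf_le {V : ℝ → ℝ} {E : Set ℂ} {m : ℝ} (h : Cfg V E m) {d φ : ℝ} (hp : Pt E d φ)
    (θ : ℝ) : Hf d (θ - φ) ≤ V θ := by
  have h1 := h.low _ hp.2 θ
  rw [dist_sq84] at h1
  exact h1

private theorem uu_pos : 0 < uu := by
  unfold uu
  have := Real.pi_pos
  positivity

private theorem nat_uu_le {n : ℕ} (hn : n ≤ 132) : (n : ℝ) * uu ≤ Real.pi := by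
  unfold uu
  have h1 : (n : ℝ) ≤ 132 := by exact_mod_cast hn
  have h2 := Real.pi_pos
  nlinarith

private theorem Hf_neg (d x : ℝ) : Hf d (-x) = Hf d x := by
  unfold Hf
  rw [Real.cos_neg]

private theorem Hf_int {d a b : ℝ} (hd : 1 ≤ d) (ha : 0 ≤ a) (hab : a ≤ b)
    (hb : b ≤ Real.pi) : IntervalIntegrable (Hf d) volume a b := by
  refine AntitoneOn.intervalIntegrable ?_
  rw [uIcc_of_le hab]
  intro x hx y hy hxy
  exact Hf_anti hd le_rfl (ha.trans hx.1) hxy (hy.2.trans hb)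

/-- the obstacle of the left point -/
private theorem left_le {V : ℝ → ℝ} {E : Set ℂ} {m : ℝ} (h : Cfg V E m) {d φ l : ℝ}
    (hp : Pt E d φ) (hl : 0 ≤ l) (hl' : l ≤ Real.pi) :
    ∫ x in (0 : ℝ)..l, Hf d x ≤ ∫ θ in φ..(φ + l), V θ := by
  have h1 : ∫ x in (0 : ℝ)..l, V (x + φ) = ∫ θ in φ..(φ + l), V θ := by
    rw [intervalIntegral.integral_comp_add_right (fun x => V x) φ, zero_add, add_comm l φ]
  rw [← h1]
  refine intervalIntegral.integral_mono_on hl (Hf_int hp.1 le_rfl hl hl') ?_ ?_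
  · exact (h.cont.comp (continuous_id.add continuous_const)).intervalIntegrable _ _
  · intro x _
    have h2 := Hf_le h hp (x + φ)
    rwa [add_sub_cancel_right] at h2

/-- the obstacle of the right point -/
private theorem right_le {V : ℝ → ℝ} {E : Set ℂ} {m : ℝ} (h : Cfg V E m) {d φ l : ℝ}
    (hp : Pt E d φ) (hl : 0 ≤ l) (hl' : l ≤ Real.pi) :
    ∫ x in (0 : ℝ)..l, Hf d x ≤ ∫ θ in (φ - l)..φ, V θ := by
  have h1 : ∫ x in (0 : ℝ)..l, V (φ - x) = ∫ θ in (φ - l)..φ, V θ := by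
    rw [intervalIntegral.integral_comp_sub_left (fun x => V x) φ, sub_zero]
  rw [← h1]
  refine intervalIntegral.integral_mono_on hl (Hf_int hp.1 le_rfl hl hl') ?_ ?_
  · exact (h.cont.comp (continuous_const.sub continuous_id)).intervalIntegrable _ _
  · intro x _
    have h2 := Hf_le h hp (φ - x)
    rwa [show φ - x - φ = -x by ring, Hf_neg] at h2

/-- a constant lower bound on an interval -/
private theorem const_le {V : ℝ → ℝ} (hV : Continuous V) {a b c : ℝ} (hab : a ≤ b)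
    (hc : ∀ θ ∈ Icc a b, c ≤ V θ) : c * (b - a) ≤ ∫ θ in a..b, V θ := by
  have h1 : ∫ _ in a..b, c = c * (b - a) := by
    rw [intervalIntegral.integral_const, smul_eq_mul, mul_comm]
  rw [← h1]
  exact intervalIntegral.integral_mono_on hab (by simp) (hV.intervalIntegrable _ _) hc

/-- the average of a decreasing function -/
private theorem avg_le {d l t : ℝ} (hd : 1 ≤ d) (hl : 0 ≤ l) (hl' : l ≤ Real.pi) (ht : 0 ≤ t)
    (ht' : t ≤ 1) : t * ∫ x in (0 : ℝ)..l, Hf d x ≤ ∫ x in (0 : ℝ)..(t * l), Hf d x := by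
  have h1 : t * ∫ x in (0 : ℝ)..l, Hf d (t * x) = ∫ x in (0 : ℝ)..(t * l), Hf d x := by
    rw [intervalIntegral.mul_integral_comp_mul_left, mul_zero]
  rw [← h1]
  refine mul_le_mul_of_nonneg_left ?_ ht
  refine intervalIntegral.integral_mono_on hl (Hf_int hd le_rfl hl hl') ?_ ?_
  · refine AntitoneOn.intervalIntegrable ?_
    rw [uIcc_of_le hl]
    intro x hx y hy hxy
    refine Hf_anti hd le_rfl (mul_nonneg ht hx.1) (mul_le_mul_of_nonneg_left hxy ht) ?_
    calc t * y ≤ 1 * y := mul_le_mul_of_nonneg_right ht' hy.1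
      _ = y := one_mul y
      _ ≤ Real.pi := hy.2.trans hl'
  · intro x hx
    refine Hf_anti hd le_rfl (mul_nonneg ht hx.1) ?_ (hx.2.trans hl')
    calc t * x ≤ 1 * x := mul_le_mul_of_nonneg_right ht' hx.1
      _ = x := one_mul x

/-- The facts about an edge.

`lf`: the intervals `[φi, φi + s uu]` and `[φj - s' uu, φj]` are disjoint, `V ≥ Hf di (θ - φi)`
on the first, `V ≥ Hf dj (φj - θ)` on the second.
`lm`: in addition on the middle interval `[φi + s uu, φj - s' uu]`, of length `(g - s - s') uu`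
`≤ 2 w uu`, cut at its midpoint: on the left half `θ - φi ≤ (s + w) uu`, so
`V θ ≥ Hf di (θ - φi) ≥ Hf (1 + c/100) ((s + w) uu) ≥ 10^(-6) hh P c (s + w)`, and similarly on the
right half.
`tip`: with `φ = φj - φi ≤ 2 n uu`: as `Hf di` is decreasing,
`∫_0^{φ/2} Hf di ≥ (φ/2)/(n uu) ∫_0^{n uu} Hf di ≥ (φ/2)/(n uu) * uu / 10^6 * Ln P k n di`. -/
theorem EF_of {P : Tb} {V : ℝ → ℝ} {E : Set ℂ} {m : ℝ} {np : ℕ} (h : Cfg V E m)
    (hN : GoodN P) (hH : GoodH P) {di φi dj φj : ℝ} (hi : Pt E di φi) (hj : Pt E dj φj)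
    (hle : φi ≤ φj)
    (hpot : ∀ j < np, 260 ≤ (φj - φi) / uu →
      (P.pB j : ℝ) * ((φj - φi) / uu) - (P.pA j : ℝ) ≤ 10 ^ 6 / uu * ∫ θ in φi..φj, V θ) :
    EF P np di dj ((φj - φi) / uu) (10 ^ 6 / uu * ∫ θ in φi..φj, V θ) := by
  have hu := uu_pos
  obtain ⟨g, hg⟩ : ∃ g : ℝ, g = (φj - φi) / uu := ⟨_, rfl⟩
  have hgu : φj - φi = g * uu := by
    rw [hg]
    field_simp
  have hcu : 0 < 10 ^ 6 / uu := by positivity
  have hg0 : 0 ≤ g := by
    rw [hg]
    exact div_nonneg (by linarith) hu.le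
  have key : ∀ k s : ℕ, k ≤ 84 → s ≤ 132 → ∀ d : ℝ, 1 ≤ d → ∀ I : ℝ,
      ∫ x in (0 : ℝ)..(s * uu), Hf d x ≤ I → Ln P k s d ≤ 10 ^ 6 / uu * I := by
    intro k s hk hs d hd I hI
    exact (hN k s hk hs d hd).trans (mul_le_mul_of_nonneg_left hI hcu.le)
  rw [← hg] at hpot ⊢
  refine ⟨hg0, mul_nonneg hcu.le (h.int_nonneg hle), hpot, ?_, ?_, ?_⟩
  · intro k s k' s' hk hs hk' hs' hss
    have h0 : 0 ≤ (s : ℝ) * uu := by positivity
    have h0' : 0 ≤ (s' : ℝ) * uu := by positivity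
    have h1 : φi + s * uu ≤ φj - s' * uu := by nlinarith
    have h2 := key k s hk hs di hi.1 _ (left_le h hi h0 (nat_uu_le hs))
    have h3 := key k' s' hk' hs' dj hj.1 _ (right_le h hj h0' (nat_uu_le hs'))
    have h4 := intervalIntegral.integral_add_adjacent_intervals
      (h.intervalIntegrable φi (φi + s * uu))
      (h.intervalIntegrable (φi + s * uu) (φj - s' * uu))
    have h5 := intervalIntegral.integral_add_adjacent_intervals
      (h.intervalIntegrable φi (φj - s' * uu))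
      (h.intervalIntegrable (φj - s' * uu) φj)
    have h6 := h.int_nonneg h1
    rw [← h5, ← h4]
    rw [mul_add, mul_add]
    have h7 := mul_nonneg hcu.le h6
    linarith
  · intro k s k' s' c c' w hk hs hk' hs' hc hc' hss hgw hdi hdj
    have h0 : 0 ≤ (s : ℝ) * uu := by positivity
    have h0' : 0 ≤ (s' : ℝ) * uu := by positivity
    have h1 : φi + s * uu ≤ φj - s' * uu := by nlinarith
    have h2 := key k s hk (by omega) di hi.1 _ (left_le h hi h0 (nat_uu_le (by omega)))
    have h3 := key k' s' hk' (by omega) dj hj.1 _ (right_le h hj h0' (nat_uu_le (by omega)))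
    obtain ⟨μ, hμ⟩ : ∃ μ : ℝ, μ = ((φi + s * uu) + (φj - s' * uu)) / 2 := ⟨_, rfl⟩
    have hμ1 : μ - (φi + s * uu) = (g - s - s') * uu / 2 := by
      rw [hμ]
      linarith
    have hμ2 : (φj - s' * uu) - μ = (g - s - s') * uu / 2 := by
      rw [hμ]
      linarith
    have hl0 : 0 ≤ (g - s - s') * uu / 2 := by
      have : 0 ≤ (g - s - s') * uu := mul_nonneg (by linarith) hu.le
      linarith
    have hl1 : (g - s - s') * uu / 2 ≤ w * uu := by
      have : (g - s - s') * uu ≤ (2 * w) * uu := mul_le_mul_of_nonneg_right (by linarith) hu.le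
      linarith
    have h4 := intervalIntegral.integral_add_adjacent_intervals
      (h.intervalIntegrable φi (φi + s * uu))
      (h.intervalIntegrable (φi + s * uu) μ)
    have h5 := intervalIntegral.integral_add_adjacent_intervals
      (h.intervalIntegrable φi μ)
      (h.intervalIntegrable μ (φj - s' * uu))
    have h6 := intervalIntegral.integral_add_adjacent_intervals
      (h.intervalIntegrable φi (φj - s' * uu))
      (h.intervalIntegrable (φj - s' * uu) φj)
    have hmid1 : (hh P c (s + w) : ℝ) / 10 ^ 6 * (μ - (φi + s * uu)) ≤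
        ∫ θ in (φi + s * uu)..μ, V θ := by
      refine const_le h.cont (by linarith) ?_
      intro θ hθ
      have h7 := hH c (s + w) hc hs
      have h8 := Hf_le h hi θ
      have hθ1 : 0 ≤ θ - φi := by linarith [hθ.1]
      have hθ2 : θ - φi ≤ ((s + w : ℕ) : ℝ) * uu := by
        push_cast
        nlinarith [hθ.2]
      have h9 := Hf_anti (d := di) (d' := 1 + c / 100) hi.1 hdi hθ1 hθ2 (nat_uu_le hs)
      rw [div_le_iff₀ (by norm_num)]
      calc (hh P c (s + w) : ℝ) ≤ 10 ^ 6 * Hf (1 + c / 100) (((s + w : ℕ) : ℝ) * uu) := h7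
        _ ≤ 10 ^ 6 * V θ := by
          apply mul_le_mul_of_nonneg_left _ (by norm_num)
          linarith
        _ = V θ * 10 ^ 6 := by ring
    have hmid2 : (hh P c' (s' + w) : ℝ) / 10 ^ 6 * ((φj - s' * uu) - μ) ≤
        ∫ θ in μ..(φj - s' * uu), V θ := by
      refine const_le h.cont (by linarith) ?_
      intro θ hθ
      have h7 := hH c' (s' + w) hc' hs'
      have h8 := Hf_le h hj θ
      have hθ1 : 0 ≤ φj - θ := by linarith [hθ.2]
      have hθ2 : φj - θ ≤ ((s' + w : ℕ) : ℝ) * uu := by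
        push_cast
        nlinarith [hθ.1]
      have h10 : Hf dj (φj - θ) = Hf dj (θ - φj) := by rw [← Hf_neg, neg_sub]
      have h9 := Hf_anti (d := dj) (d' := 1 + c' / 100) hj.1 hdj hθ1 hθ2 (nat_uu_le hs')
      rw [h10] at h9
      rw [div_le_iff₀ (by norm_num)]
      calc (hh P c' (s' + w) : ℝ) ≤ 10 ^ 6 * Hf (1 + c' / 100) (((s' + w : ℕ) : ℝ) * uu) := h7
        _ ≤ 10 ^ 6 * V θ := by
          apply mul_le_mul_of_nonneg_left _ (by norm_num)
          linarith
        _ = V θ * 10 ^ 6 := by ring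
    rw [hμ1] at hmid1
    rw [hμ2] at hmid2
    have hm1 := mul_le_mul_of_nonneg_left hmid1 hcu.le
    have hm2 := mul_le_mul_of_nonneg_left hmid2 hcu.le
    have e1 : 10 ^ 6 / uu * ((hh P c (s + w) : ℝ) / 10 ^ 6 * ((g - s - s') * uu / 2)) =
        (hh P c (s + w) : ℝ) / 2 * (g - s - s') := by
      field_simp
    have e2 : 10 ^ 6 / uu * ((hh P c' (s' + w) : ℝ) / 10 ^ 6 * ((g - s - s') * uu / 2)) =
        (hh P c' (s' + w) : ℝ) / 2 * (g - s - s') := by
      field_simp
    rw [e1] at hm1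
    rw [e2] at hm2
    rw [← h6, ← h5, ← h4]
    rw [mul_add, mul_add, mul_add]
    have e3 : ((hh P c (s + w) : ℝ) + (hh P c' (s' + w) : ℝ)) / 2 * (g - s - s') =
        (hh P c (s + w) : ℝ) / 2 * (g - s - s') + (hh P c' (s' + w) : ℝ) / 2 * (g - s - s') := by
      ring
    rw [e3]
    linarith
  · intro k k' n hk hk' hn0 hn hgn
    have hnR : (0 : ℝ) < n := by exact_mod_cast hn0
    obtain ⟨t, ht⟩ : ∃ t : ℝ, t = g / (2 * n) := ⟨_, rfl⟩
    have ht0 : 0 ≤ t := by
      rw [ht]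
      positivity
    have ht1 : t ≤ 1 := by
      rw [ht, div_le_one (by positivity)]
      exact hgn
    have hgt : g = t * (2 * n) := by
      rw [ht]
      field_simp
    have h0 : 0 ≤ (n : ℝ) * uu := by positivity
    have h00 : 0 ≤ t * (n * uu) := mul_nonneg ht0 h0
    have hpi : t * (n * uu) ≤ Real.pi := by
      calc t * (n * uu) ≤ 1 * (n * uu) := mul_le_mul_of_nonneg_right ht1 h0
        _ = n * uu := one_mul _
        _ ≤ Real.pi := nat_uu_le hn
    have hmid : φi + t * (n * uu) = φj - t * (n * uu) := by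
      have : φj - φi = 2 * (t * (n * uu)) := by
        rw [hgu, hgt]
        ring
      linarith
    have h1 := left_le h hi h00 hpi
    have h2 := right_le h hj h00 hpi
    have h3 := avg_le (d := di) hi.1 h0 (nat_uu_le hn) ht0 ht1
    have h4 := avg_le (d := dj) hj.1 h0 (nat_uu_le hn) ht0 ht1
    have h5 := hN k n hk hn di hi.1
    have h6 := hN k' n hk' hn dj hj.1
    have h7 := intervalIntegral.integral_add_adjacent_intervals
      (h.intervalIntegrable φi (φi + t * (n * uu)))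
      (h.intervalIntegrable (φi + t * (n * uu)) φj)
    rw [← hmid] at h2
    have h8 := mul_le_mul_of_nonneg_left (h3.trans h1) hcu.le
    have h9 := mul_le_mul_of_nonneg_left (h4.trans h2) hcu.le
    have h10 := mul_le_mul_of_nonneg_left h5 ht0
    have h11 := mul_le_mul_of_nonneg_left h6 ht0
    have h12 : t * (Ln P k n di + Ln P k' n dj) ≤ 10 ^ 6 / uu * ∫ θ in φi..φj, V θ := by
      rw [← h7, mul_add, mul_add]
      have e1 : t * (10 ^ 6 / uu * ∫ x in (0 : ℝ)..(n * uu), Hf di x) =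
          10 ^ 6 / uu * (t * ∫ x in (0 : ℝ)..(n * uu), Hf di x) := by ring
      have e2 : t * (10 ^ 6 / uu * ∫ x in (0 : ℝ)..(n * uu), Hf dj x) =
          10 ^ 6 / uu * (t * ∫ x in (0 : ℝ)..(n * uu), Hf dj x) := by ring
      rw [e1] at h10
      rw [e2] at h11
      linarith
    have h13 := mul_le_mul_of_nonneg_left h12 (show (0 : ℝ) ≤ 2 * n by positivity)
    calc g * (Ln P k n di + Ln P k' n dj) = 2 * n * (t * (Ln P k n di + Ln P k' n dj)) := by
          rw [hgt]
          ring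
      _ ≤ _ := h13

end Pool.Agent.Helper58.LD
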