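import Pool.Agent.Helper58.LD.Def

/-!
# Project LD (MP_599705_an), piece LD-EV: soundness of the evaluation on a box
-/

set_option autoImplicit false

namespace Pool.Agent.Helper58.LD

private theorem mx_left (a b : ℕ) : a ≤ mx a b := by
  unfold mx
  cases h : Nat.ble a b
  · exact le_rfl
  · exact Nat.le_of_ble_eq_true h

private theorem mx_right (a b : ℕ) : b ≤ mx a b := by
  unfold mx
  cases h : Nat.ble a b
  · have : ¬ a ≤ b := by
      intro hc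
      rw [Nat.ble_eq_true_of_le hc] at h
      exact Bool.noConfusion h
    exact (not_le.1 this).le
  · exact le_rfl

private theorem exists_conv {a b y : ℝ} (ha : a ≤ y) (hb : y ≤ b) :
    ∃ l : ℝ, 0 ≤ l ∧ l ≤ 1 ∧ y = (1 - l) * a + l * b := by
  rcases eq_or_lt_of_le (ha.trans hb) with h | h
  · refine ⟨0, le_rfl, zero_le_one, ?_⟩
    linarith
  · refine ⟨(y - a) / (b - a), div_nonneg (by linarith) (by linarith), ?_, ?_⟩
    · rw [div_le_one (by linarith)]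
      linarith
    · have h1 : (y - a) / (b - a) * (b - a) = y - a := div_mul_cancel₀ _ (by linarith)
      linarith

private theorem bil_le {l k a b c d M : ℝ} (hl0 : 0 ≤ l) (hl1 : l ≤ 1) (hk0 : 0 ≤ k)
    (hk1 : k ≤ 1) (ha : a ≤ M) (hb : b ≤ M) (hc : c ≤ M) (hd : d ≤ M) :
    (1 - l) * ((1 - k) * a + k * b) + l * ((1 - k) * c + k * d) ≤ M := by
  have e1 : (1 - k) * a + k * b ≤ M := by
    have := mul_le_mul_of_nonneg_left ha (by linarith : 0 ≤ 1 - k)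
    have := mul_le_mul_of_nonneg_left hb hk0
    linarith
  have e2 : (1 - k) * c + k * d ≤ M := by
    have := mul_le_mul_of_nonneg_left hc (by linarith : 0 ≤ 1 - k)
    have := mul_le_mul_of_nonneg_left hd hk0
    linarith
  have := mul_le_mul_of_nonneg_left e1 (by linarith : 0 ≤ 1 - l)
  have := mul_le_mul_of_nonneg_left e2 hl0
  linarith

private theorem good_use {P : Tb} {TD tb t0 t1 lo hi : ℕ} (hD : GoodD P TD tb) (h0 : tb ≤ t0)
    (h1 : t1 ≤ tb + 32) {l t x d : ℝ} (hl0 : 0 ≤ l) (hl1 : l ≤ 1) (h01 : t0 ≤ t1)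
    (ht : 256 * t = (1 - l) * t0 + l * t1)
    (hx0 : (lo : ℝ) ≤ x) (hx1 : x ≤ hi) (hd : d ≤ DD t (uu * (x - 360))) :
    ∃ k : ℝ, 0 ≤ k ∧ k ≤ 1 ∧ x = (1 - k) * lo + k * hi ∧ 10 ^ 5 * d ≤
      (1 - l) * ((1 - k) * (ent (row TD (t0 - tb)) lo : ℝ) +
          k * (ent (row TD (t0 - tb)) hi : ℝ)) +
        l * ((1 - k) * (ent (row TD (t1 - tb)) lo : ℝ) +
          k * (ent (row TD (t1 - tb)) hi : ℝ)) + er P t0 t1 (hi - lo) := by
  obtain ⟨k, hk0, hk1, hk⟩ := exists_conv hx0 hx1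
  refine ⟨k, hk0, hk1, hk, ?_⟩
  have hlo : lo ≤ hi := by
    have := hx0.trans hx1
    exact_mod_cast this
  refine le_trans ?_ (hD t0 t1 lo hi h0 h01 h1 hlo l k hl0 hl1 hk0 hk1)
  have e1 : ((1 - l) * (t0 : ℝ) + l * t1) / 256 = t := by
    rw [← ht]
    ring
  rw [e1, ← hk]
  exact mul_le_mul_of_nonneg_left hd (by norm_num)

private theorem co_le (p q b n D : ℕ) :
    (q : ℝ) * n + p * (1800 - n) + b * D ≤ (co p q b n D : ℝ) := by
  have e1 : co p q b n D = q * n + p * (1800 - n) + b * D := rfl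
  rw [e1]
  push_cast
  have e2 : (1800 : ℝ) - n ≤ ((1800 - n : ℕ) : ℝ) := by
    rcases le_total n 1800 with h | h
    · rw [Nat.cast_sub h]
      norm_num
    · have : (1800 : ℝ) ≤ n := by exact_mod_cast h
      have h2 : (0 : ℝ) ≤ ((1800 - n : ℕ) : ℝ) := Nat.cast_nonneg _
      linarith
  have e3 : (p : ℝ) * (1800 - n) ≤ p * ((1800 - n : ℕ) : ℝ) :=
    mul_le_mul_of_nonneg_left e2 (Nat.cast_nonneg _)
  linarith

private theorem pt {P : Tb} {TD tb t0 t1 lo hi : ℕ} (p q b : ℕ) (hD : GoodD P TD tb)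
    (h0 : tb ≤ t0) (h1 : t1 ≤ tb + 32) {l t x d : ℝ} (hl0 : 0 ≤ l) (hl1 : l ≤ 1)
    (h01 : t0 ≤ t1) (ht : 256 * t = (1 - l) * t0 + l * t1)
    (hx0 : (lo : ℝ) ≤ x) (hx1 : x ≤ hi) (hd : d ≤ DD t (uu * (x - 360))) :
    (b : ℝ) * (10 ^ 5 * d) + q * x + p * (1800 - x) ≤
      (1 - l) * (cc (row TD (t0 - tb)) p q b lo hi : ℝ) +
        l * (cc (row TD (t1 - tb)) p q b lo hi : ℝ) + b * (er P t0 t1 (hi - lo) : ℝ) := by
  obtain ⟨k, hk0, hk1, hk, hh⟩ := good_use hD h0 h1 hl0 hl1 h01 ht hx0 hx1 hd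
  have e1 : ∀ r : ℕ, (1 - k) * ((q : ℝ) * lo + p * (1800 - lo) + b * (ent r lo : ℝ)) +
      k * ((q : ℝ) * hi + p * (1800 - hi) + b * (ent r hi : ℝ)) ≤
        (cc r p q b lo hi : ℝ) := by
    intro r
    have f1 : (co p q b lo (ent r lo) : ℝ) ≤ (cc r p q b lo hi : ℝ) := by
      exact_mod_cast mx_left _ _
    have f2 : (co p q b hi (ent r hi) : ℝ) ≤ (cc r p q b lo hi : ℝ) := by
      exact_mod_cast mx_right _ _
    have f3 := (co_le p q b lo (ent r lo)).trans f1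
    have f4 := (co_le p q b hi (ent r hi)).trans f2
    have f5 := mul_le_mul_of_nonneg_left f3 (by linarith : 0 ≤ 1 - k)
    have f6 := mul_le_mul_of_nonneg_left f4 hk0
    linarith
  have e2 := mul_le_mul_of_nonneg_left (e1 (row TD (t0 - tb))) (by linarith : 0 ≤ 1 - l)
  have e3 := mul_le_mul_of_nonneg_left (e1 (row TD (t1 - tb))) hl0
  have e4 := mul_le_mul_of_nonneg_left hh (Nat.cast_nonneg b : (0 : ℝ) ≤ b)
  refine le_trans ?_ (add_le_add (add_le_add e2 e3) le_rfl)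
  rw [hk]
  linarith

/-- The maximum over the four vertices plus the error bounds the radius. -/
theorem rm_sound {P : Tb} {TD tb t0 t1 lo hi : ℕ} (hD : GoodD P TD tb) (h0 : tb ≤ t0)
    (h1 : t1 ≤ tb + 32) {t x d : ℝ} (ht0 : (t0 : ℝ) ≤ 256 * t) (ht1 : 256 * t ≤ t1)
    (hx0 : (lo : ℝ) ≤ x) (hx1 : x ≤ hi) (hd : d ≤ DD t (uu * (x - 360))) :
    10 ^ 5 * d ≤ rm P TD tb t0 t1 lo hi := by
  have h01 : t0 ≤ t1 := by
    have := ht0.trans ht1
    exact_mod_cast this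
  obtain ⟨l, hl0, hl1, hl⟩ := exists_conv ht0 ht1
  obtain ⟨k, hk0, hk1, hk, hh⟩ := good_use hD h0 h1 hl0 hl1 h01 hl hx0 hx1 hd
  refine hh.trans ?_
  have e1 : rm P TD tb t0 t1 lo hi =
      mx (mx (ent (row TD (t0 - tb)) lo) (ent (row TD (t0 - tb)) hi))
        (mx (ent (row TD (t1 - tb)) lo) (ent (row TD (t1 - tb)) hi)) +
        er P t0 t1 (hi - lo) := rfl
  rw [e1]
  push_cast
  refine add_le_add ?_ le_rfl
  apply bil_le hl0 hl1 hk0 hk1
  · exact_mod_cast (mx_left _ _).trans (mx_left _ _)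
  · exact_mod_cast (mx_right _ _).trans (mx_left _ _)
  · exact_mod_cast (mx_left _ _).trans (mx_right _ _)
  · exact_mod_cast (mx_right _ _).trans (mx_right _ _)

theorem ev_rng {P : Tb} {TD tb cp cm b0 b1 b2 ke kf kg t0 t1 a0 a1 z0 z1 y0 y1 : ℕ}
    (h : ev P TD tb cp cm b0 b1 b2 ke kf kg t0 t1 a0 a1 z0 z1 y0 y1 = true) :
    tb ≤ t0 ∧ t1 ≤ tb + 32 := by
  unfold ev at h
  simp only [Bool.and_eq_true] at h
  exact ⟨Nat.le_of_ble_eq_true h.1, Nat.le_of_ble_eq_true h.2.1⟩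

/-- Soundness of `ev`.

Proof: write `256 t = (1-l) t0 + l t1`, `xi = (1 - ki) lo_i + ki hi_i`.  By `GoodD` the quantity
`bi * 10^5 di + qi xi + pi (1800 - xi)` is at most the bilinear interpolation of its values
`co pi qi bi n D` at the four vertices plus `bi * er`, hence at most `(1-l) cc(row t0) +
l cc(row t1) + bi er`, where `(p0,q0) = (kg,ke)`, `(p1,q1) = (ke,kf)`, `(p2,q2) = (kf,kg)`
(the truncated difference `1800 - n` only makes `co` larger).  Sum over `i = 0,1,2` and use the two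
inequalities of the check. -/
theorem ev_sound {P : Tb} {TD tb cp cm b0 b1 b2 ke kf kg t0 t1 a0 a1 z0 z1 y0 y1 : ℕ}
    (hD : GoodD P TD tb)
    (h : ev P TD tb cp cm b0 b1 b2 ke kf kg t0 t1 a0 a1 z0 z1 y0 y1 = true)
    {t x0 x1 x2 d0 d1 d2 : ℝ} (hB : InB t0 t1 a0 a1 z0 z1 y0 y1 t x0 x1 x2)
    (hd0 : d0 ≤ DD t (uu * (x0 - 360))) (hd1 : d1 ≤ DD t (uu * (x1 - 360)))
    (hd2 : d2 ≤ DD t (uu * (x2 - 360))) :
    0 ≤ (cp : ℝ) - cm - b0 * (10 ^ 5 * d0) - b1 * (10 ^ 5 * d1) - b2 * (10 ^ 5 * d2) +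
      ke * (x1 - x0) + kf * (x2 - x1) + kg * (x0 - x2) := by
  obtain ⟨h0, h1⟩ := ev_rng h
  unfold ev evr at h
  simp only [Bool.and_eq_true] at h
  obtain ⟨_, _, h2, h3⟩ := h
  replace h2 := Nat.le_of_ble_eq_true h2
  replace h3 := Nat.le_of_ble_eq_true h3
  have h01 : t0 ≤ t1 := by
    have := hB.t0.trans hB.t1
    exact_mod_cast this
  obtain ⟨l, hl0, hl1, hl⟩ := exists_conv hB.t0 hB.t1
  have g0 := pt kg ke b0 hD h0 h1 hl0 hl1 h01 hl hB.a0 hB.a1 hd0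
  have g1 := pt ke kf b1 hD h0 h1 hl0 hl1 h01 hl hB.z0 hB.z1 hd1
  have g2 := pt kf kg b2 hD h0 h1 hl0 hl1 h01 hl hB.y0 hB.y1 hd2
  have k2 : (cm : ℝ) + (b0 * (er P t0 t1 (a1 - a0) : ℝ) + (b1 * (er P t0 t1 (z1 - z0) : ℝ) +
      b2 * (er P t0 t1 (y1 - y0) : ℝ))) +
      ((cc (row TD (t0 - tb)) kg ke b0 a0 a1 : ℝ) +
        ((cc (row TD (t0 - tb)) ke kf b1 z0 z1 : ℝ) +
          (cc (row TD (t0 - tb)) kf kg b2 y0 y1 : ℝ))) ≤
      cp + 1800 * (ke + (kf + kg)) := by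
    exact_mod_cast h2
  have k3 : (cm : ℝ) + (b0 * (er P t0 t1 (a1 - a0) : ℝ) + (b1 * (er P t0 t1 (z1 - z0) : ℝ) +
      b2 * (er P t0 t1 (y1 - y0) : ℝ))) +
      ((cc (row TD (t1 - tb)) kg ke b0 a0 a1 : ℝ) +
        ((cc (row TD (t1 - tb)) ke kf b1 z0 z1 : ℝ) +
          (cc (row TD (t1 - tb)) kf kg b2 y0 y1 : ℝ))) ≤
      cp + 1800 * (ke + (kf + kg)) := by
    exact_mod_cast h3
  have k4 := mul_le_mul_of_nonneg_left k2 (by linarith : 0 ≤ 1 - l)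
  have k5 := mul_le_mul_of_nonneg_left k3 hl0
  linarith

end Pool.Agent.Helper58.LD
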