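import Mathlib

set_option autoImplicit false

namespace Pool.Agent.Helper58.LD

open Complex Metric Set

theorem exists_fin {E : Set ℂ} {m₀ m' : ℝ} (h : m₀ < m')
    (hc : ∀ w : ℂ, ∃ p ∈ E, ‖w - p‖ ≤ m₀) :
    ∃ E' : Set ℂ, E' ⊆ E ∧ IsClosed E' ∧ (∀ R : ℝ, (E' ∩ closedBall 0 R).Finite) ∧
      ∀ w : ℂ, ∃ p ∈ E', ‖w - p‖ ≤ m' := by
  set δ : ℝ := m' - m₀ with hδ
  have hδ0 : 0 < δ := by rw [hδ]; linarith
  set z : ℤ × ℤ → ℂ := fun a => ⟨δ / 2 * a.1, δ / 2 * a.2⟩ with hz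
  choose p hpE hp using fun a : ℤ × ℤ => hc (z a)
  have hfin : ∀ R : ℝ, (range p ∩ closedBall 0 R).Finite := by
    intro R
    obtain ⟨N, hN⟩ := exists_nat_ge (2 * (R + m₀) / δ)
    refine ((((Set.finite_Icc (-(N : ℤ)) N).prod (Set.finite_Icc (-(N : ℤ)) N))).image p).subset ?_
    rintro q ⟨⟨a, rfl⟩, hq⟩
    rw [mem_closedBall_zero_iff] at hq
    refine ⟨a, ?_, rfl⟩
    have h1 : ‖z a‖ ≤ R + m₀ := by
      calc ‖z a‖ = ‖(z a - p a) + p a‖ := by rw [sub_add_cancel]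
        _ ≤ ‖z a - p a‖ + ‖p a‖ := norm_add_le _ _
        _ ≤ R + m₀ := by linarith [hp a]
    have key : ∀ x : ℤ, |δ / 2 * (x : ℝ)| ≤ R + m₀ → x ∈ Set.Icc (-(N : ℤ)) N := by
      intro x hx
      rw [abs_mul, abs_of_pos (by positivity)] at hx
      have h2 : |(x : ℝ)| ≤ N := by
        refine le_trans ?_ hN
        rw [le_div_iff₀ hδ0]
        linarith
      rw [abs_le] at h2
      constructor
      · have := h2.1
        exact_mod_cast this
      · exact_mod_cast h2.2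
    constructor
    · exact key a.1 ((Complex.abs_re_le_norm (z a)).trans h1)
    · exact key a.2 ((Complex.abs_im_le_norm (z a)).trans h1)
  refine ⟨range p, ?_, ?_, hfin, ?_⟩
  · rintro q ⟨a, rfl⟩
    exact hpE a
  · rw [← closure_subset_iff_isClosed]
    intro x hx
    by_contra hxn
    set F : Set ℂ := range p ∩ closedBall 0 (‖x‖ + 1) with hF
    have hFc : IsClosed F := (hfin _).isClosed
    have hxF : x ∈ Fᶜ := fun h => hxn h.1
    have hU : Fᶜ ∩ ball x 1 ∈ nhds x :=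
      Filter.inter_mem (hFc.isOpen_compl.mem_nhds hxF) (ball_mem_nhds x one_pos)
    obtain ⟨y, ⟨hy1, hy2⟩, hy3⟩ := mem_closure_iff_nhds.1 hx _ hU
    apply hy1
    refine ⟨hy3, ?_⟩
    rw [mem_closedBall_zero_iff]
    rw [mem_ball, dist_eq_norm] at hy2
    calc ‖y‖ = ‖(y - x) + x‖ := by rw [sub_add_cancel]
      _ ≤ ‖y - x‖ + ‖x‖ := norm_add_le _ _
      _ ≤ ‖x‖ + 1 := by linarith
  · intro w
    set a : ℤ × ℤ := (round (2 * w.re / δ), round (2 * w.im / δ)) with ha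
    refine ⟨p a, ⟨a, rfl⟩, ?_⟩
    have key : ∀ x : ℝ, |x - δ / 2 * (round (2 * x / δ) : ℤ)| ≤ δ / 4 := by
      intro x
      have h1 := abs_sub_round (2 * x / δ)
      have h2 : x - δ / 2 * (round (2 * x / δ) : ℤ) =
          δ / 2 * (2 * x / δ - (round (2 * x / δ) : ℤ)) := by
        field_simp
      rw [h2, abs_mul, abs_of_pos (by positivity)]
      have h3 : 0 < δ / 2 := by positivity
      nlinarith
    have h1 : ‖w - z a‖ ≤ δ / 4 + δ / 4 := by
      refine (Complex.norm_le_abs_re_add_abs_im _).trans ?_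
      exact add_le_add (key w.re) (key w.im)
    calc ‖w - p a‖ = ‖(w - z a) + (z a - p a)‖ := by rw [sub_add_sub_cancel]
      _ ≤ ‖w - z a‖ + ‖z a - p a‖ := norm_add_le _ _
      _ ≤ m' := by
        have := hp a
        rw [hδ] at h1
        linarith

end Pool.Agent.Helper58.LD
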