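import Pool.Agent.Helper54.LN.Chk

/-!
# Project LD (MP_599705_an, Landau constant): the obstacle of one point, basic facts (piece LD-HBase)
-/

set_option autoImplicit false

namespace Pool.Agent.Helper58.LD

open Complex Metric Set MeasureTheory
open Pool.Agent.Helper91.LC Pool.Agent.Helper54.LN

/-- the obstacle of a point at distance `d` from `0`, at the point of the circle of radius `0.84`
whose angular distance is `x` -/
noncomputable def Hf (d x : ℝ) : ℝ := psiS (0.7056 + d ^ 2 - 1.68 * d * Real.cos x)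

theorem Hf_nonneg {d : ℝ} (hd : 1 ≤ d) (x : ℝ) : 0 ≤ Hf d x :=
  Pool.Agent.Helper91.LC.R54Lower.psiS_nonneg _ (sq_pos84 hd)

/-- the tangent at a point -/
theorem hbase_tan {d A B : ℝ} (hd : 1 ≤ d) (hT : Tan A B) (x : ℝ) :
    A - B * (0.7056 + d ^ 2) + 1.68 * B * d * Real.cos x ≤ Hf d x := by
  have h := hT.2 _ (sq_pos84 (x := x) hd)
  unfold Hf
  linarith

/-- Hint: `psiS_anti`, `sq_pos84` (file Cfg); the argument increases with `d` since
`2 d - 1.68 cos x > 0`. -/
theorem Hf_anti_d {d d' : ℝ} (hd : 1 ≤ d) (h : d ≤ d') (x : ℝ) : Hf d' x ≤ Hf d x := by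
  apply Pool.Agent.Helper91.LC.R54Lower.psiS_anti (sq_pos84 hd)
  have h1 := Real.cos_le_one x
  have h2 : 0 ≤ (d' - d) * (d' + d - 1.68 * Real.cos x) := by
    apply mul_nonneg (by linarith)
    linarith
  linarith

theorem Hf_anti_x {d x y : ℝ} (hd : 1 ≤ d) (hx : 0 ≤ x) (hxy : x ≤ y) (hy : y ≤ Real.pi) :
    Hf d y ≤ Hf d x := by
  apply Pool.Agent.Helper91.LC.R54Lower.psiS_anti (sq_pos84 hd)
  have h1 := Real.cos_le_cos_of_nonneg_of_le_pi hx hy hxy
  have h2 : 1.68 * d * Real.cos y ≤ 1.68 * d * Real.cos x :=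
    mul_le_mul_of_nonneg_left h1 (by linarith)
  linarith

theorem hbase_psiS {s : ℝ} (hs : 0 < s) :
    psiS s = max (- Real.log s / 2) 0 - Real.log (1 + max (- Real.log s / 2) 0) := by
  rcases lt_or_ge s 1 with h | h
  · have h1 : 0 ≤ - Real.log s / 2 := by
      have := Real.log_nonpos hs.le h.le
      linarith
    rw [Pool.Agent.Helper91.LC.R54Lower.psiS_of_lt h, max_eq_left h1]
  · have h1 : - Real.log s / 2 ≤ 0 := by
      have := Real.log_nonneg h
      linarith
    rw [Pool.Agent.Helper91.LC.R54Lower.psiS_of_ge h, max_eq_right h1]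
    simp

/-- Hint: `psiS` is continuous on `(0, ∞)`: it is `- (log s) / 2 - log (1 - (log s) / 2)` for
`s < 1` (`psiS_of_lt`) and `0` for `s ≥ 1` (`psiS_of_ge`); write it as
`max (- (log s) / 2) 0 - log (1 + max (- (log s) / 2) 0)`. -/
theorem Hf_cont {d : ℝ} (hd : 1 ≤ d) : Continuous (Hf d) := by
  have h1 : Hf d = fun x =>
      max (- Real.log (0.7056 + d ^ 2 - 1.68 * d * Real.cos x) / 2) 0 -
        Real.log (1 + max (- Real.log (0.7056 + d ^ 2 - 1.68 * d * Real.cos x) / 2) 0) := by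
    funext x
    exact hbase_psiS (sq_pos84 hd)
  rw [h1]
  have h2 : Continuous fun x : ℝ => Real.log (0.7056 + d ^ 2 - 1.68 * d * Real.cos x) := by
    apply Continuous.log
    · fun_prop
    · intro x
      exact (sq_pos84 hd).ne'
  have h3 : Continuous fun x : ℝ =>
      max (- Real.log (0.7056 + d ^ 2 - 1.68 * d * Real.cos x) / 2) 0 :=
    (h2.neg.div_const 2).max continuous_const
  apply h3.sub
  apply Continuous.log
  · exact continuous_const.add h3
  · intro x
    have := le_max_right (- Real.log (0.7056 + d ^ 2 - 1.68 * d * Real.cos x) / 2) 0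
    positivity

/-- Hint: `h.low`, `dist_sq84` (file Cfg), `Real.cos_abs`. -/
theorem Hf_le {V : ℝ → ℝ} {E : Set ℂ} {m : ℝ} (h : Cfg V E m) {d φ : ℝ} (hp : Pt E d φ) (θ : ℝ) :
    Hf d |θ - φ| ≤ V θ := by
  have h1 := h.low _ hp.2 θ
  rw [dist_sq84] at h1
  unfold Hf
  rw [Real.cos_abs]
  exact h1

theorem Hf_int_right {V : ℝ → ℝ} {E : Set ℂ} {m : ℝ} (h : Cfg V E m) {d φ x : ℝ} (hp : Pt E d φ)
    (hx : 0 ≤ x) : ∫ t in (0 : ℝ)..x, Hf d t ≤ ∫ θ in φ..(φ + x), V θ := by
  have h1 : ∫ θ in φ..(φ + x), V θ = ∫ t in (0 : ℝ)..x, V (t + φ) := by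
    rw [intervalIntegral.integral_comp_add_right V φ, zero_add, add_comm x φ]
  rw [h1]
  refine intervalIntegral.integral_mono_on hx ((Hf_cont hp.1).intervalIntegrable _ _)
    ((h.cont.comp (continuous_id.add continuous_const)).intervalIntegrable _ _) ?_
  intro t ht
  have h2 := Hf_le h hp (t + φ)
  rwa [add_sub_cancel_right, abs_of_nonneg ht.1] at h2

/-- Hint: `Hf_int_right` for `h.mirror`, `hp.mirror`, `int_mirror` (see `bump_left` in file Gap). -/
theorem Hf_int_left {V : ℝ → ℝ} {E : Set ℂ} {m : ℝ} (h : Cfg V E m) {d φ x : ℝ} (hp : Pt E d φ)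
    (hx : 0 ≤ x) : ∫ t in (0 : ℝ)..x, Hf d t ≤ ∫ θ in (φ - x)..φ, V θ := by
  have h1 := Hf_int_right h.mirror hp.mirror hx
  rw [int_mirror] at h1
  have h2 : -(-φ + x) = φ - x := by ring
  rwa [h2, neg_neg] at h1

/-- Hint: as `cell_right` in file Cfg (`sq_pos84`, `hT.2`, the integral of `cos` is
`2 sin (u / 2) cos (a + u / 2)`, `Real.sin_ge_sub_cube`). -/
theorem Hf_cell {d A B a u c : ℝ} (hd : 1 ≤ d) (hT : Tan A B) (hu : 0 ≤ u) (hu1 : u ≤ 1)
    (hc0 : 0 ≤ c) (hc : c ≤ Real.cos (a + u / 2)) :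
    u * (A - B * (0.7056 + d ^ 2) + 1.68 * B * d * ((1 - u ^ 2 / 24) * c)) ≤
      ∫ t in a..(a + u), Hf d t := by
  have h1 : ∫ t in a..(a + u),
      (A - B * (0.7056 + d ^ 2) + 1.68 * B * d * Real.cos t) ≤
      ∫ t in a..(a + u), Hf d t := by
    refine intervalIntegral.integral_mono_on (by linarith) ?_
      ((Hf_cont hd).intervalIntegrable _ _) ?_
    · refine Continuous.intervalIntegrable ?_ _ _
      fun_prop
    · intro t _
      exact hbase_tan hd hT t
  refine le_trans ?_ h1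
  rw [intervalIntegral.integral_add (by simp)
    (by refine Continuous.intervalIntegrable ?_ _ _; fun_prop),
    intervalIntegral.integral_const, intervalIntegral.integral_const_mul, integral_cos,
    smul_eq_mul]
  have h3 : Real.sin (a + u) - Real.sin a = 2 * Real.sin (u / 2) * Real.cos (a + u / 2) := by
    rw [Real.sin_sub_sin]
    congr 2
    · congr 1; ring
    · ring
  have h4 : u / 2 - (u / 2) ^ 3 / 6 ≤ Real.sin (u / 2) := Real.sin_ge_sub_cube (by linarith)
  have h5 : 0 ≤ u / 2 - (u / 2) ^ 3 / 6 := by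
    have h6 : u / 2 - (u / 2) ^ 3 / 6 = u / 2 * (1 - u ^ 2 / 24) := by ring
    rw [h6]
    apply mul_nonneg (by linarith)
    nlinarith
  have h6 : u * ((1 - u ^ 2 / 24) * c) ≤ Real.sin (a + u) - Real.sin a := by
    rw [h3]
    calc u * ((1 - u ^ 2 / 24) * c) = 2 * (u / 2 - (u / 2) ^ 3 / 6) * c := by ring
      _ ≤ 2 * Real.sin (u / 2) * Real.cos (a + u / 2) := by
        apply mul_le_mul _ hc hc0
        · linarith
        · linarith
  have h7 : 0 ≤ 1.68 * B * d := by
    have := hT.1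
    have : 0 ≤ d := by linarith
    positivity
  have h8 := mul_le_mul_of_nonneg_left h6 h7
  have h9 : a + u - a = u := by ring
  rw [h9]
  nlinarith

/-- Hint: `Hf D y ≤ Hf d x` by the monotonicities, the tangent at `cos y ≥ cos (a + u / 2) ≥ c`. -/
theorem Hf_point {d D A B a u c x : ℝ} (hd : 1 ≤ d) (hD : d ≤ D) (hT : Tan A B) (hu : 0 ≤ u)
    (hu1 : u ≤ 1) (hc0 : 0 ≤ c) (hc : c ≤ Real.cos (a + u / 2)) (ha : a + u / 2 ≤ Real.pi)
    (hx : 0 ≤ x) (hxa : x ≤ a) :
    A - B * (0.7056 + D ^ 2) + 1.68 * B * D * ((1 - u ^ 2 / 24) * c) ≤ Hf d x := by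
  have hD1 : 1 ≤ D := hd.trans hD
  have h1 : Hf d (a + u / 2) ≤ Hf d x := Hf_anti_x hd hx (by linarith) ha
  have h2 : Hf D (a + u / 2) ≤ Hf d (a + u / 2) := Hf_anti_d hd hD _
  have h3 := hbase_tan hD1 hT (a + u / 2)
  have h4 : (1 - u ^ 2 / 24) * c ≤ Real.cos (a + u / 2) := by
    have : 0 ≤ u ^ 2 / 24 * c := by positivity
    linarith
  have h5 : 0 ≤ 1.68 * B * D := by
    have := hT.1
    have : 0 ≤ D := by linarith
    positivity
  have h6 := mul_le_mul_of_nonneg_left h4 h5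
  linarith

end Pool.Agent.Helper58.LD
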