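import Pool.Agent.Helper58.LD.HBase

/-!
# Project LD (MP_599705_an, Landau constant): the table of the integrals (piece LD-HTab)

Cells of width `π / 360`; the radii are `R k = 1 + k / 100`, `k ≤ 86`; there are `132` cells, beyond
them the table is constant; the rows `k ≥ 86` are zero.
-/

set_option autoImplicit false

namespace Pool.Agent.Helper58.LD

open Complex Metric Set MeasureTheory
open Pool.Agent.Helper91.LC Pool.Agent.Helper54.LN

/-- the value of the table: `T` is a packed table with `32` bits per entry and `133` entries per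
row -/
def NJ (T k n : ℕ) : ℕ :=
  cond (Nat.blt k 86) (get 32 (get (32 * 133) T k) (cond (Nat.ble 132 n) 132 n)) 0

/-- the test of one cell at one radius: `c` (units `1 / W`) is at most the lower bound given by the
tangent `A / 10 ^ 8 - B / 10 ^ 6 * s` for the radius `D / 10 ^ 4`; `co / 10 ^ 8` is a lower bound
of the cosine at the midpoint. `99999682 / 10 ^ 8 ≤ 1 - (π / 360) ^ 2 / 24`. -/
def hcB (W A B D co c : ℕ) : Bool :=
  Nat.ble (c * 10 ^ 28 + W * (B * (70560000 + D ^ 2) * 10 ^ 14))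
    (W * (A * 10 ^ 20 + 168 * B * D * 99999682 * co))

/-- the test of row `k`, cell `n`, with the tangent number `i` -/
def hcellB (W T TA TB TC k n i : ℕ) : Bool :=
  Nat.blt i 38 &&
  (Nat.ble (NJ T k n) (NJ T k (n + 1)) &&
  (Nat.ble (NJ T (k + 1) n) (NJ T (k + 1) (n + 1)) &&
  (hcB W (get 32 TA i) (get 32 TB i) (10000 + 100 * k) (get 32 TC n)
      (NJ T k (n + 1) - NJ T k n) &&
  (hcB W (get 32 TA i) (get 32 TB i) (10000 + 100 * (k + 1)) (get 32 TC n)
      (NJ T (k + 1) (n + 1) - NJ T (k + 1) n) &&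
  (Nat.ble (NJ T (k + 1) (n + 1)) (NJ T k (n + 1)) &&
  Nat.ble (2 * NJ T (k + 1) (n + 1)) (NJ T k (n + 1) + NJ T (k + 2) (n + 1)))))))

/-- the test of the table; `TI` contains the numbers of the tangents, 8 bits per entry, 132 entries
per row -/
def hrowB (W T TA TB TC TI k : ℕ) : Bool :=
  Nat.beq (NJ T k 0) 0 &&
  allB (fun n => hcellB W T TA TB TC k n (get 8 (get (8 * 132) TI k) n)) 132

def htabB (W T TA TB TC TI : ℕ) : Bool := allB (fun k => hrowB W T TA TB TC TI k) 86

/-- the test of the cosines: `co / 10 ^ 8` is a lower bound of the cosine at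
`(2 n + 1) π / 720` -/
def hcosB (TC : ℕ) : Bool :=
  allB (fun n => cosLB (10 ^ 8) ((2 * n + 1) * 314159266 / 720 + 1) (get 32 TC n)) 132

/-- the table is correct -/
structure HGood (W : ℕ) (T : ℕ) : Prop where
  pos : 0 < W
  T1 : ∀ (k n : ℕ) (d : ℝ), 1 ≤ d →
    (NJ T k n : ℝ) - ((NJ T k n : ℝ) - NJ T (k + 1) n) * (100 * (d - 1) - k) ≤
      W / (Real.pi / 360) * ∫ t in (0 : ℝ)..(n * (Real.pi / 360)), Hf d t
  T2 : ∀ (k n : ℕ) (d x : ℝ), 1 ≤ d → d ≤ 1 + k / 100 → 0 ≤ x → x ≤ n * (Real.pi / 360) →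
    (NJ T k (n + 1) : ℝ) - NJ T k n ≤ W * Hf d x
  anti : ∀ k n, NJ T (k + 1) n ≤ NJ T k n
  mono : ∀ k n, NJ T k n ≤ NJ T k (n + 1)

theorem htab_big (T k : ℕ) {n : ℕ} (hn : 132 ≤ n) : NJ T k n = NJ T k 132 := by
  unfold NJ
  rw [Nat.ble_eq_true_of_le hn, Nat.ble_eq_true_of_le (le_refl 132)]
  rfl

theorem htab_row (T : ℕ) {k : ℕ} (n : ℕ) (hk : 86 ≤ k) : NJ T k n = 0 := by
  unfold NJ
  have h : Nat.blt k 86 = false := by
    rw [← Bool.not_eq_true]
    intro h
    have : k < 86 := by simpa [Nat.blt_eq] using h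
    omega
  rw [h]
  rfl

theorem htab_u : (0 : ℝ) < Real.pi / 360 ∧ Real.pi / 360 ≤ 1 := by
  have h1 := Real.pi_pos
  have h2 := Real.pi_lt_d20
  constructor
  · positivity
  · linarith

theorem htab_kap : (99999682 : ℝ) / 10 ^ 8 ≤ 1 - (Real.pi / 360) ^ 2 / 24 := by
  have h1 := Real.pi_pos
  have h2 := Real.pi_lt_d20
  have h3 : Real.pi / 360 ≤ 0.0087267 := by linarith
  have h4 : (Real.pi / 360) ^ 2 ≤ 0.0087267 ^ 2 :=
    pow_le_pow_left₀ (by positivity) h3 2
  have h5 : (0.0087267 : ℝ) ^ 2 / 24 ≤ 318 / 10 ^ 8 := by norm_num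
  linarith

/-- the meaning of the test of a cell -/
theorem htab_hcB {W A B D co c : ℕ} (h : hcB W A B D co c = true) :
    (c : ℝ) ≤ W * ((A : ℝ) / 10 ^ 8 - (B : ℝ) / 10 ^ 6 * (0.7056 + ((D : ℝ) / 10 ^ 4) ^ 2) +
      1.68 * ((B : ℝ) / 10 ^ 6) * ((D : ℝ) / 10 ^ 4) *
        ((99999682 : ℝ) / 10 ^ 8 * ((co : ℝ) / 10 ^ 8))) := by
  have h1 := Nat.le_of_ble_eq_true h
  have h2 : (c : ℝ) * 10 ^ 28 + W * (B * (70560000 + D ^ 2) * 10 ^ 14) ≤
      W * (A * 10 ^ 20 + 168 * B * D * 99999682 * co) := by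
    exact_mod_cast h1
  rw [← sub_nonneg]
  have h3 : (W : ℝ) * ((A : ℝ) / 10 ^ 8 - (B : ℝ) / 10 ^ 6 * (0.7056 + ((D : ℝ) / 10 ^ 4) ^ 2) +
      1.68 * ((B : ℝ) / 10 ^ 6) * ((D : ℝ) / 10 ^ 4) *
        ((99999682 : ℝ) / 10 ^ 8 * ((co : ℝ) / 10 ^ 8))) - c =
      ((W : ℝ) * (A * 10 ^ 20 + 168 * B * D * 99999682 * co) -
        ((c : ℝ) * 10 ^ 28 + W * (B * (70560000 + D ^ 2) * 10 ^ 14))) / 10 ^ 28 := by
    ring
  rw [h3]
  apply div_nonneg
  · linarith
  · positivity

/-- the cosines -/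
theorem htab_cos {TC : ℕ} (h2 : hcosB TC = true) {n : ℕ} (hn : n < 132) :
    (get 32 TC n : ℝ) / 10 ^ 8 ≤
      Real.cos (n * (Real.pi / 360) + Real.pi / 360 / 2) := by
  have h3 := cosLB_of (W := 10 ^ 8) (by norm_num) (allB_iff.1 h2 n hn)
  have hW8 : ((10 ^ 8 : ℕ) : ℝ) = 10 ^ 8 := by norm_num
  rw [hW8] at h3
  refine le_trans h3 ?_
  have hpi := Real.pi_pos
  have hpi2 := Real.pi_lt_d20
  have hpi3 := Real.pi_gt_d6
  have hn' : (n : ℝ) ≤ 131 := by exact_mod_cast Nat.le_of_lt_succ hn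
  have hn0 : (0 : ℝ) ≤ n := by positivity
  clear h3
  have hq : ∃ q : ℕ, q = (2 * n + 1) * 314159266 / 720 := ⟨_, rfl⟩
  obtain ⟨q, hq⟩ := hq
  rw [← hq]
  have hq1 : (2 * n + 1) * 314159266 < 720 * (q + 1) := by
    rw [hq]
    omega
  have hq2 : 720 * q ≤ (2 * n + 1) * 314159266 := by
    rw [hq]
    omega
  have hq1' : (2 * (n : ℝ) + 1) * 314159266 < 720 * (q + 1) := by exact_mod_cast hq1
  have hq2' : 720 * (q : ℝ) ≤ (2 * n + 1) * 314159266 := by exact_mod_cast hq2
  have hq0 : (0 : ℝ) ≤ q := Nat.cast_nonneg q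
  rw [Nat.cast_add, Nat.cast_one]
  apply Real.cos_le_cos_of_nonneg_of_le_pi
  · have h4 : 0 ≤ Real.pi / 360 := by positivity
    have h5 := mul_nonneg hn0 h4
    linarith
  · rw [div_le_iff₀ (by norm_num)]
    linarith
  · rw [le_div_iff₀ (by norm_num)]
    have h4 : (n * (Real.pi / 360) + Real.pi / 360 / 2) * 10 ^ 8 =
        (2 * (n : ℝ) + 1) * Real.pi * 10 ^ 8 / 720 := by ring
    rw [h4]
    have h5 : (2 * (n : ℝ) + 1) * Real.pi ≤ (2 * (n : ℝ) + 1) * 3.14159266 := by
      apply mul_le_mul_of_nonneg_left _ (by positivity)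
      linarith
    linarith

/-- data of a tested cell -/
structure HCell (W T TC k n : ℕ) : Prop where
  m1 : NJ T k n ≤ NJ T k (n + 1)
  m2 : NJ T (k + 1) n ≤ NJ T (k + 1) (n + 1)
  a1 : NJ T (k + 1) (n + 1) ≤ NJ T k (n + 1)
  cv : 2 * NJ T (k + 1) (n + 1) ≤ NJ T k (n + 1) + NJ T (k + 2) (n + 1)
  tn : ∃ A B : ℝ, Tan A B ∧
    (NJ T k (n + 1) : ℝ) - NJ T k n ≤ W * (A - B * (0.7056 + (1 + (k : ℝ) / 100) ^ 2) +
      1.68 * B * (1 + (k : ℝ) / 100) *
        ((99999682 : ℝ) / 10 ^ 8 * ((get 32 TC n : ℝ) / 10 ^ 8))) ∧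
    (NJ T (k + 1) (n + 1) : ℝ) - NJ T (k + 1) n ≤
      W * (A - B * (0.7056 + (1 + ((k : ℝ) + 1) / 100) ^ 2) +
      1.68 * B * (1 + ((k : ℝ) + 1) / 100) *
        ((99999682 : ℝ) / 10 ^ 8 * ((get 32 TC n : ℝ) / 10 ^ 8)))

theorem htab_cell {W T TA TB TC TL TI : ℕ} (h1 : tansB TA TB TL = true)
    (h3 : htabB W T TA TB TC TI = true) {k n : ℕ} (hk : k < 86) (hn : n < 132) :
    HCell W T TC k n := by
  have h4 := allB_iff.1 h3 k hk
  unfold hrowB at h4
  rw [Bool.and_eq_true, allB_iff] at h4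
  have h5 := h4.2 n hn
  generalize get 8 (get (8 * 132) TI k) n = i at h5
  unfold hcellB at h5
  rw [Bool.and_eq_true, Bool.and_eq_true, Bool.and_eq_true, Bool.and_eq_true, Bool.and_eq_true,
    Bool.and_eq_true] at h5
  obtain ⟨e1, e2, e3, e4, e5, e6, e7⟩ := h5
  have hi : i < 38 := by simpa [Nat.blt_eq] using e1
  have e2 := Nat.le_of_ble_eq_true e2
  have e3 := Nat.le_of_ble_eq_true e3
  have e6 := Nat.le_of_ble_eq_true e6
  have e7 := Nat.le_of_ble_eq_true e7
  refine ⟨e2, e3, e6, e7, (get 32 TA i : ℝ) / 10 ^ 8, (get 32 TB i : ℝ) / 10 ^ 6,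
    tan_of (allB_iff.1 h1 i hi), ?_, ?_⟩
  · have h6 := htab_hcB e4
    rw [Nat.cast_sub e2] at h6
    have h7 : ((10000 + 100 * k : ℕ) : ℝ) / 10 ^ 4 = 1 + (k : ℝ) / 100 := by
      push_cast
      ring
    rw [h7] at h6
    exact h6
  · have h6 := htab_hcB e5
    rw [Nat.cast_sub e3] at h6
    have h7 : ((10000 + 100 * (k + 1) : ℕ) : ℝ) / 10 ^ 4 = 1 + ((k : ℝ) + 1) / 100 := by
      push_cast
      ring
    rw [h7] at h6
    exact h6

theorem htab_zero {W T TA TB TC TI : ℕ}
    (h3 : htabB W T TA TB TC TI = true) (k : ℕ) : NJ T k 0 = 0 := by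
  rcases lt_or_ge k 86 with hk | hk
  · have h4 := allB_iff.1 h3 k hk
    unfold hrowB at h4
    rw [Bool.and_eq_true] at h4
    exact Nat.eq_of_beq_eq_true h4.1
  · exact htab_row T 0 hk

/-- comparison of the line through two values of a convex sequence with the interpolation -/
theorem htab_conv {a : ℕ → ℝ} (ha : ∀ k, 2 * a (k + 1) ≤ a k + a (k + 2)) {t : ℝ} {j : ℕ}
    (h1 : (j : ℝ) ≤ t) (h2 : t ≤ j + 1) (k : ℕ) :
    a k + (a (k + 1) - a k) * (t - k) ≤ a j + (a (j + 1) - a j) * (t - j) := by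
  have step : ∀ m : ℕ, (a (m + 1) + (a (m + 2) - a (m + 1)) * (t - (m + 1 : ℕ))) -
      (a m + (a (m + 1) - a m) * (t - m)) =
      (t - (m + 1 : ℕ)) * (a m + a (m + 2) - 2 * a (m + 1)) := by
    intro m
    push_cast
    ring
  rcases le_total k j with hkj | hkj
  · -- k ≤ j
    induction j, hkj using Nat.le_induction with
    | base => exact le_rfl
    | succ m hm ih =>
      have hup : ∀ i : ℕ, i ≤ m + 1 → k ≤ i →
          a k + (a (k + 1) - a k) * (t - k) ≤ a i + (a (i + 1) - a i) * (t - i) := by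
        intro i hi hki
        induction i, hki using Nat.le_induction with
        | base => exact le_rfl
        | succ q hq ihq =>
          have h5 := ihq (by omega)
          have h6 := step q
          have h7 : ((q + 1 : ℕ) : ℝ) ≤ t := by
            have : ((q + 1 : ℕ) : ℝ) ≤ ((m + 1 : ℕ) : ℝ) := by exact_mod_cast hi
            linarith
          have h8 : 0 ≤ (t - (q + 1 : ℕ)) * (a q + a (q + 2) - 2 * a (q + 1)) := by
            apply mul_nonneg
            · linarith
            · linarith [ha q]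
          have h9 : a (q + 1 + 1) = a (q + 2) := rfl
          rw [h9]
          linarith
      exact hup (m + 1) le_rfl (by omega)
  · -- j ≤ k
    have hdn : ∀ i : ℕ, j ≤ i →
        a i + (a (i + 1) - a i) * (t - i) ≤ a j + (a (j + 1) - a j) * (t - j) := by
      intro i hi
      induction i, hi using Nat.le_induction with
      | base => exact le_rfl
      | succ q hq ihq =>
        have h6 := step q
        have h7 : t ≤ ((q + 1 : ℕ) : ℝ) := by
          have : ((j + 1 : ℕ) : ℝ) ≤ ((q + 1 : ℕ) : ℝ) := by exact_mod_cast Nat.succ_le_succ hq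
          push_cast at this ⊢
          linarith
        have h8 : (t - (q + 1 : ℕ)) * (a q + a (q + 2) - 2 * a (q + 1)) ≤ 0 := by
          apply mul_nonpos_of_nonpos_of_nonneg
          · linarith
          · linarith [ha q]
        have h9 : a (q + 1 + 1) = a (q + 2) := rfl
        rw [h9]
        linarith
    exact hdn k hkj

/-- one step of the induction for the table -/
theorem htab_step {W T TC j n : ℕ} (h2 : hcosB TC = true) (hc : HCell W T TC j n) (hn : n < 132)
    {d s : ℝ} (hs0 : 0 ≤ s) (hs1 : s ≤ 1) (hd : d = 1 + ((j : ℝ) + s) / 100) :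
    ((NJ T j (n + 1) : ℝ) - NJ T j n) * (1 - s) +
      ((NJ T (j + 1) (n + 1) : ℝ) - NJ T (j + 1) n) * s ≤
      W / (Real.pi / 360) *
        ∫ t in (n * (Real.pi / 360))..(n * (Real.pi / 360) + Real.pi / 360), Hf d t := by
  obtain ⟨hu0, hu1⟩ := htab_u
  obtain ⟨A, B, hT, t1, t2⟩ := hc.tn
  have hB := hT.1
  set co : ℝ := (get 32 TC n : ℝ) / 10 ^ 8 with hco
  have hco0 : 0 ≤ co := by positivity
  have hj0 : (0 : ℝ) ≤ j := by positivity
  have hd1 : 1 ≤ d := by
    rw [hd]
    have : 0 ≤ ((j : ℝ) + s) / 100 := by positivity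
    linarith
  have h5 := Hf_cell hd1 hT hu0.le hu1 hco0 (htab_cos h2 hn)
  have hW : (0 : ℝ) ≤ W := by positivity
  have h6 : (W : ℝ) * (A - B * (0.7056 + d ^ 2) + 1.68 * B * d *
      ((1 - (Real.pi / 360) ^ 2 / 24) * co)) ≤
      W / (Real.pi / 360) *
        ∫ t in (n * (Real.pi / 360))..(n * (Real.pi / 360) + Real.pi / 360), Hf d t := by
    have h7 := mul_le_mul_of_nonneg_left h5 (div_nonneg hW hu0.le)
    refine le_trans (le_of_eq ?_) h7
    field_simp
  refine le_trans ?_ h6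
  have h8 : 1.68 * B * d * ((99999682 : ℝ) / 10 ^ 8 * co) ≤
      1.68 * B * d * ((1 - (Real.pi / 360) ^ 2 / 24) * co) := by
    apply mul_le_mul_of_nonneg_left
    · exact mul_le_mul_of_nonneg_right htab_kap hco0
    · positivity
  have h9 : (W : ℝ) * (A - B * (0.7056 + d ^ 2) + 1.68 * B * d * ((99999682 : ℝ) / 10 ^ 8 * co)) ≤
      (W : ℝ) * (A - B * (0.7056 + d ^ 2) + 1.68 * B * d *
      ((1 - (Real.pi / 360) ^ 2 / 24) * co)) := by
    apply mul_le_mul_of_nonneg_left _ hW
    linarith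
  refine le_trans ?_ h9
  have h10 := mul_le_mul_of_nonneg_right t1 (show 0 ≤ 1 - s by linarith)
  have h11 := mul_le_mul_of_nonneg_right t2 hs0
  refine le_trans (add_le_add h10 h11) ?_
  have h12 : (W : ℝ) * (A - B * (0.7056 + (1 + (j : ℝ) / 100) ^ 2) +
      1.68 * B * (1 + (j : ℝ) / 100) * ((99999682 : ℝ) / 10 ^ 8 * co)) * (1 - s) +
      W * (A - B * (0.7056 + (1 + ((j : ℝ) + 1) / 100) ^ 2) +
      1.68 * B * (1 + ((j : ℝ) + 1) / 100) * ((99999682 : ℝ) / 10 ^ 8 * co)) * s =
      W * (A - B * (0.7056 + d ^ 2) + 1.68 * B * d * ((99999682 : ℝ) / 10 ^ 8 * co)) -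
      W * B * (s * (1 - s) / 10000) := by
    rw [hd]
    ring
  rw [h12]
  have h13 : 0 ≤ (W : ℝ) * B * (s * (1 - s) / 10000) := by
    apply mul_nonneg (mul_nonneg hW hB)
    apply div_nonneg _ (by norm_num)
    exact mul_nonneg hs0 (by linarith)
  linarith

theorem htab_intervalIntegrable {d : ℝ} (hd : 1 ≤ d) (a b : ℝ) :
    IntervalIntegrable (Hf d) volume a b :=
  (Hf_cont hd).intervalIntegrable a b

/-- the interpolation between consecutive rows -/
theorem htab_interp {W T TA TB TC TL TI : ℕ} (h1 : tansB TA TB TL = true)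
    (h2 : hcosB TC = true) (h3 : htabB W T TA TB TC TI = true) {j : ℕ}
    {d s : ℝ} (hs0 : 0 ≤ s) (hs1 : s ≤ 1) (hd : d = 1 + ((j : ℝ) + s) / 100) (n : ℕ) :
    (NJ T j n : ℝ) + ((NJ T (j + 1) n : ℝ) - NJ T j n) * s ≤
      W / (Real.pi / 360) * ∫ t in (0 : ℝ)..(n * (Real.pi / 360)), Hf d t := by
  obtain ⟨hu0, hu1⟩ := htab_u
  have hj0 : (0 : ℝ) ≤ j := by positivity
  have hW : (0 : ℝ) ≤ W := by positivity
  have hd1 : 1 ≤ d := by
    rw [hd]
    have : 0 ≤ ((j : ℝ) + s) / 100 := by positivity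
    linarith
  rcases lt_or_ge j 86 with hj | hj
  · have hmain : ∀ n ≤ 132, (NJ T j n : ℝ) + ((NJ T (j + 1) n : ℝ) - NJ T j n) * s ≤
      W / (Real.pi / 360) * ∫ t in (0 : ℝ)..(n * (Real.pi / 360)), Hf d t := by
      intro n
      induction n with
      | zero =>
        intro _
        rw [htab_zero h3 j, htab_zero h3 (j + 1)]
        simp
      | succ n ih =>
        intro hn
        have ih' := ih (by omega)
        have h5 := htab_step h2 (htab_cell h1 h3 hj (show n < 132 by omega)) (by omega) hs0 hs1 hd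
        have h6 := intervalIntegral.integral_add_adjacent_intervals
          (htab_intervalIntegrable hd1 0 (n * (Real.pi / 360)))
          (htab_intervalIntegrable hd1 (n * (Real.pi / 360))
            (n * (Real.pi / 360) + Real.pi / 360))
        have h7 : ((n + 1 : ℕ) : ℝ) * (Real.pi / 360) = n * (Real.pi / 360) + Real.pi / 360 := by
          push_cast
          ring
        rw [h7, ← h6, mul_add]
        linarith
    rcases le_total n 132 with hn | hn
    · exact hmain n hn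
    · rw [htab_big T j hn, htab_big T (j + 1) hn]
      refine le_trans (hmain 132 le_rfl) ?_
      apply mul_le_mul_of_nonneg_left _ (div_nonneg hW hu0.le)
      have h6 := intervalIntegral.integral_add_adjacent_intervals
        (htab_intervalIntegrable hd1 0 (((132 : ℕ) : ℝ) * (Real.pi / 360)))
        (htab_intervalIntegrable hd1 (((132 : ℕ) : ℝ) * (Real.pi / 360)) (n * (Real.pi / 360)))
      rw [← h6]
      have h7 : 0 ≤ ∫ t in (((132 : ℕ) : ℝ) * (Real.pi / 360))..(n * (Real.pi / 360)), Hf d t := by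
        apply intervalIntegral.integral_nonneg
        · have h8 : ((132 : ℕ) : ℝ) ≤ n := by exact_mod_cast hn
          exact mul_le_mul_of_nonneg_right h8 hu0.le
        · intro t _
          exact Hf_nonneg hd1 t
      linarith
  · rw [htab_row T n hj, htab_row T n (show 86 ≤ j + 1 by omega)]
    have h7 : 0 ≤ ∫ t in (0 : ℝ)..(n * (Real.pi / 360)), Hf d t := by
      apply intervalIntegral.integral_nonneg (by positivity)
      intro t _
      exact Hf_nonneg hd1 t
    have h8 := mul_nonneg (div_nonneg hW hu0.le) h7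
    simpa using h8

/-- Proof. `tan_of` gives the tangents, `cosLB_of` (with `W = 10 ^ 8`), `Real.cos_le_cos_of_nonneg_of_le_pi`
and `Real.pi_lt_d6` (or a sharper bound `π < 3.14159266`) give the cosines at the midpoints of the
cells. Put `u = π / 360`.
T2: for `n ≥ 132` or `k ≥ 86` the left side is `0`; otherwise `Hf_point` with `D = 1 + k / 100`,
`a = n u`.
T1: let `j = ⌊100 (d - 1)⌋`, `s = 100 (d - 1) - j ∈ [0, 1)`. First
`NJ j n - (NJ j n - NJ (j + 1) n) s ≤ W / u ∫_0^{n u} Hf d`: if `j ≥ 86` the left side is `0`;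
otherwise by induction on `n ≤ 132`: in the cell `n` use `Hf_cell` with the tangent of the cell; the
bound `A - B (0.7056 + d ^ 2) + 1.68 B d κ c` is concave in `d`, so it is at least
`(1 - s)` times its value at `1 + j / 100` plus `s` times its value at `1 + (j + 1) / 100`, and these
are bounded below by the two tests `hcB`; for `n ≥ 132` the table is constant and `Hf ≥ 0`. Then the
line through the values `k, k + 1` is below the interpolation at `j, j + 1` by the discrete convexity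
`2 NJ (k + 1) n ≤ NJ k n + NJ (k + 2) n` (tested for all `k < 86`, `1 ≤ n ≤ 132`, trivial
otherwise). -/
theorem hgood_of {W T TA TB TC TL TI : ℕ} (hW : 0 < W) (h1 : tansB TA TB TL = true)
    (h2 : hcosB TC = true) (h3 : htabB W T TA TB TC TI = true) : HGood W T := by
  obtain ⟨hu0, hu1⟩ := htab_u
  have hW' : (0 : ℝ) ≤ W := by positivity
  have hz := htab_zero h3
  have hcell : ∀ k n, k < 86 → n < 132 → HCell W T TC k n :=
    fun k n hk hn => htab_cell h1 h3 hk hn
  have hmono : ∀ k n, NJ T k n ≤ NJ T k (n + 1) := by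
    intro k n
    rcases lt_or_ge k 86 with hk | hk
    · rcases lt_or_ge n 132 with hn | hn
      · exact (hcell k n hk hn).m1
      · rw [htab_big T k hn, htab_big T k (show 132 ≤ n + 1 by omega)]
    · rw [htab_row T n hk]
      exact Nat.zero_le _
  have hanti0 : ∀ k n, n ≤ 132 → NJ T (k + 1) n ≤ NJ T k n := by
    intro k n hn
    rcases lt_or_ge k 86 with hk | hk
    · rcases n with _ | n
      · rw [hz, hz]
      · exact (hcell k n hk (by omega)).a1
    · rw [htab_row T n (show 86 ≤ k + 1 by omega)]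
      exact Nat.zero_le _
  have hanti : ∀ k n, NJ T (k + 1) n ≤ NJ T k n := by
    intro k n
    rcases le_total n 132 with hn | hn
    · exact hanti0 k n hn
    · rw [htab_big T k hn, htab_big T (k + 1) hn]
      exact hanti0 k 132 le_rfl
  have hconv0 : ∀ k n, n ≤ 132 → 2 * NJ T (k + 1) n ≤ NJ T k n + NJ T (k + 2) n := by
    intro k n hn
    rcases lt_or_ge k 86 with hk | hk
    · rcases n with _ | n
      · rw [hz, hz, hz]
      · exact (hcell k n hk (by omega)).cv
    · rw [htab_row T n (show 86 ≤ k + 1 by omega)]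
      exact Nat.zero_le _
  have hconv : ∀ k n, 2 * NJ T (k + 1) n ≤ NJ T k n + NJ T (k + 2) n := by
    intro k n
    rcases le_total n 132 with hn | hn
    · exact hconv0 k n hn
    · rw [htab_big T k hn, htab_big T (k + 1) hn, htab_big T (k + 2) hn]
      exact hconv0 k 132 le_rfl
  refine ⟨hW, ?_, ?_, hanti, hmono⟩
  · intro k n d hd
    have ht0 : 0 ≤ 100 * (d - 1) := by linarith
    set j : ℕ := ⌊100 * (d - 1)⌋₊ with hj
    have hj1 : (j : ℝ) ≤ 100 * (d - 1) := Nat.floor_le ht0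
    have hj2 : 100 * (d - 1) < j + 1 := Nat.lt_floor_add_one _
    have h5 := htab_interp h1 h2 h3 (j := j) (d := d) (s := 100 * (d - 1) - j)
      (by linarith) (by linarith) (by ring) n
    refine le_trans ?_ h5
    have h6 := htab_conv (a := fun k => (NJ T k n : ℝ))
      (fun k => by exact_mod_cast hconv k n) hj1 hj2.le k
    have h7 : (NJ T k n : ℝ) - ((NJ T k n : ℝ) - NJ T (k + 1) n) * (100 * (d - 1) - k) =
        (NJ T k n : ℝ) + ((NJ T (k + 1) n : ℝ) - NJ T k n) * (100 * (d - 1) - k) := by ring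
    rw [h7]
    exact h6
  · intro k n d x hd hdk hx hxn
    have hH := mul_nonneg hW' (Hf_nonneg hd x)
    rcases lt_or_ge k 86 with hk | hk
    · rcases lt_or_ge n 132 with hn | hn
      · obtain ⟨A, B, hT, t1, -⟩ := (hcell k n hk hn).tn
        have hB := hT.1
        refine le_trans t1 ?_
        apply mul_le_mul_of_nonneg_left _ hW'
        have hco0 : (0 : ℝ) ≤ (get 32 TC n : ℝ) / 10 ^ 8 := by positivity
        have ha : n * (Real.pi / 360) + Real.pi / 360 / 2 ≤ Real.pi := by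
          have hn' : (n : ℝ) ≤ 131 := by exact_mod_cast Nat.le_of_lt_succ hn
          have h5 := mul_le_mul_of_nonneg_right hn' hu0.le
          have h6 := Real.pi_pos
          linarith
        have h5 := Hf_point hd hdk hT hu0.le hu1 hco0 (htab_cos h2 hn) ha hx hxn
        refine le_trans ?_ h5
        have h8 : 1.68 * B * (1 + (k : ℝ) / 100) *
            ((99999682 : ℝ) / 10 ^ 8 * ((get 32 TC n : ℝ) / 10 ^ 8)) ≤
            1.68 * B * (1 + (k : ℝ) / 100) *
            ((1 - (Real.pi / 360) ^ 2 / 24) * ((get 32 TC n : ℝ) / 10 ^ 8)) := by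
          apply mul_le_mul_of_nonneg_left
          · exact mul_le_mul_of_nonneg_right htab_kap hco0
          · positivity
        linarith
      · rw [htab_big T k hn, htab_big T k (show 132 ≤ n + 1 by omega)]
        simpa using hH
    · rw [htab_row T n hk, htab_row T (n + 1) hk]
      simpa using hH

end Pool.Agent.Helper58.LD
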