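import Pool.Agent.Helper58.LD.ST1

/-!
# Project LD (MP_599705_an), piece LD-IN: induction over the Delaunay edges
-/

set_option autoImplicit false

namespace Pool.Agent.Helper58.LD

open Complex Metric Set MeasureTheory
open Pool.Agent.Helper91.LC
open Pool.Agent.Helper54.LN

private theorem ind_sect_finite {E : Set ℂ} (hfin : ∀ R : ℝ, (E ∩ closedBall 0 R).Finite)
    (φa φb : ℝ) : (sect E φa φb).Finite := by
  refine (hfin 2.0401).subset ?_
  rintro p ⟨hp, d, φ, h1, h2, -, -, rfl⟩
  refine ⟨hp, ?_⟩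
  rw [mem_closedBall, dist_zero_right, norm_pol (by linarith)]
  exact h2

private theorem ind_pol_ne {d φ e ψ : ℝ} (hd : 1 ≤ d) (he : 1 ≤ e) (h1 : 0 < ψ - φ)
    (h2 : ψ - φ ≤ Real.pi) : pol d φ ≠ pol e ψ := by
  intro h
  have hde : d = e := by
    have := congrArg norm h
    rwa [norm_pol (by linarith), norm_pol (by linarith)] at this
  have h3 := dist_pol d φ e ψ
  rw [h, sub_self, norm_zero, hde] at h3
  have h4 : 0 < e ^ 2 := by positivity
  have h5 : Real.cos (ψ - φ) = 1 := by
    have h6 : e ^ 2 * (1 - Real.cos (ψ - φ)) = 0 := by linarith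
    have h7 := (mul_eq_zero.1 h6).resolve_left h4.ne'
    linarith
  have hpi := Real.pi_pos
  rw [Real.cos_eq_one_iff_of_lt_of_lt (by linarith) (by linarith)] at h5
  linarith

/-- Strong induction on the number of points of `E` in the open sector: the sectors of the two
sub-edges do not contain `q` (`φb - φa ≤ π`, so the angle of `q` in the sector is unique) and are
contained in the sector of the edge. -/
theorem val_of {P : Tb} {TD : ℕ → ℕ} {K : ℕ} {V : ℝ → ℝ} {E : Set ℂ} {m' : ℝ}
    (h : Cfg V E m') (hm0 : 0 ≤ m') (hm : m' < 1.0401)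
    (hfin : ∀ R : ℝ, (E ∩ closedBall 0 R).Finite) (hN : GoodN P) (hH : GoodH P)
    (hD : ∀ i < 8, GoodD P (TD i) (32 * i))
    (hchk : ∀ i < 8, ∃ T : Tree,
      chk (leafR P (TD i) (32 * i) K) T (32 * i) (32 * i + 32) 0 360 0 720 360 720 = true)
    (hprev : ∀ j < K, Val P V E j) : Val P V E K := by
  have key : ∀ n : ℕ, ∀ da φa db φb : ℝ, (sect E φa φb).ncard = n → Edge E da φa db φb →
      260 ≤ (φb - φa) / uu →
      (P.pB K : ℝ) * ((φb - φa) / uu) - (P.pA K : ℝ) ≤ 10 ^ 6 / uu * ∫ θ in φa..φb, V θ := by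
    intro n
    induction n using Nat.strong_induction_on with
    | _ n ih =>
      intro da φa db φb hn he hg
      obtain ⟨dq, φq, hq, hdq, h1, h2, e1, e2, hstep⟩ :=
        one_step h hm0 hm hfin hN hH hD hchk hprev he hg
      have hle := he.le
      have hqs : pol dq φq ∈ sect E φa φb := ⟨hq.2, dq, φq, hq.1, hdq, h1, h2, rfl⟩
      have hT := ind_sect_finite hfin φa φb
      have hlt1 : (sect E φa φq).ncard < n := by
        rw [← hn]
        refine Set.ncard_lt_ncard ⟨?_, ?_⟩ hT
        · rintro p ⟨hp, d, φ, g1, g2, g3, g4, g5⟩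
          exact ⟨hp, d, φ, g1, g2, g3, g4.trans h2, g5⟩
        · intro hsub
          obtain ⟨-, d, φ, g1, g2, g3, g4, g5⟩ := hsub hqs
          exact ind_pol_ne g1 hq.1 (by linarith) (by linarith) g5.symm
      have hlt2 : (sect E φq φb).ncard < n := by
        rw [← hn]
        refine Set.ncard_lt_ncard ⟨?_, ?_⟩ hT
        · rintro p ⟨hp, d, φ, g1, g2, g3, g4, g5⟩
          exact ⟨hp, d, φ, g1, g2, h1.trans g3, g4, g5⟩
        · intro hsub
          obtain ⟨-, d, φ, g1, g2, g3, g4, g5⟩ := hsub hqs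
          exact ind_pol_ne hq.1 g1 (by linarith) (by linarith) g5
      exact hstep (ih _ hlt1 da φa dq φq rfl e1) (ih _ hlt2 dq φq db φb rfl e2)
  intro da φa db φb he hg
  exact key _ da φa db φb rfl he hg

end Pool.Agent.Helper58.LD
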