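import Pool.Agent.Helper58.LD.EVS

/-!
# Project LD (MP_599705_an), piece LD-LR: soundness of the trees of the recursion
-/

set_option autoImplicit false

namespace Pool.Agent.Helper58.LD

/-- Soundness of an edge bound (case analysis; `EF.pot`, `EF.lf`, `EF.lm`). -/
theorem EB.sound {P : Tb} {np : ℕ} {di dj g J : ℝ} (hE : EF P np di dj g J) {e : EB}
    {g0 g1 r r' : ℕ} (h : e.ok np g0 g1 r r' = true) (hg0 : (g0 : ℝ) ≤ g) (hg1 : g ≤ g1)
    (hr : 10 ^ 5 * di ≤ r) (hr' : 10 ^ 5 * dj ≤ r') :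
    (e.cp P : ℝ) - e.cm P - e.bi P * (10 ^ 5 * di) - e.bj P * (10 ^ 5 * dj) + e.kk P * g ≤
      2000 * J := by
  cases e with
  | pot j =>
    simp only [EB.ok, Bool.and_eq_true, Nat.blt_eq, Nat.ble_eq] at h
    obtain ⟨hj, h260⟩ := h
    have h260' : (260 : ℝ) ≤ g := le_trans (by exact_mod_cast h260) hg0
    have h1 := hE.pot j hj h260'
    simp only [EB.cp, EB.cm, EB.bi, EB.bj, EB.kk, Nat.mul_eq]
    push_cast
    linarith
  | lf k s k' s' =>
    simp only [EB.ok, Bool.and_eq_true, Nat.ble_eq, Nat.add_eq] at h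
    obtain ⟨hs, hk, hk', hs1, hs1'⟩ := h
    have hs2 : (s : ℝ) + s' ≤ g := le_trans (by exact_mod_cast hs) hg0
    have h1 := hE.lf k s k' s' hk hs1 hk' hs1' hs2
    simp only [EB.cp, EB.cm, EB.bi, EB.bj, EB.kk, lc, Nat.mul_eq, Nat.add_eq]
    simp only [Ln] at h1
    push_cast
    nlinarith [h1]
  | lm k s k' s' c c' w =>
    simp only [EB.ok, Bool.and_eq_true, Nat.ble_eq, Nat.add_eq, Nat.mul_eq] at h
    obtain ⟨hs, hk, hk', hs1, hs1', hc, hc', hgw, hrc, hrc'⟩ := h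
    have hs2 : (s : ℝ) + s' ≤ g := le_trans (by exact_mod_cast hs) hg0
    have hg2 : g ≤ s + s' + 2 * w := le_trans hg1 (by exact_mod_cast hgw)
    have hr2 : (r : ℝ) ≤ 100000 + 1000 * c := by exact_mod_cast hrc
    have hr2' : (r' : ℝ) ≤ 100000 + 1000 * c' := by exact_mod_cast hrc'
    have hdi : di ≤ 1 + c / 100 := by linarith
    have hdj : dj ≤ 1 + c' / 100 := by linarith
    have h1 := hE.lm k s k' s' c c' w hk hs1 hk' hs1' hc hc' hs2 hg2 hdi hdj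
    simp only [EB.cp, EB.cm, EB.bi, EB.bj, EB.kk, lc, Nat.mul_eq, Nat.add_eq]
    simp only [Ln] at h1
    push_cast
    nlinarith [h1]

/-- truncated difference, lower side -/
private theorem sub_lo {a b : ℕ} {u v : ℝ} (h1 : (a : ℝ) ≤ u) (h2 : v ≤ b) (h3 : v ≤ u) :
    ((a - b : ℕ) : ℝ) ≤ u - v := by
  rcases le_total b a with h | h
  · rw [Nat.cast_sub h]
    linarith
  · rw [Nat.sub_eq_zero_of_le h]
    simp only [Nat.cast_zero]
    linarith

/-- truncated difference, upper side -/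
private theorem sub_hi {a b : ℕ} {u v : ℝ} (h1 : u ≤ (a : ℝ)) (h2 : (b : ℝ) ≤ v) :
    u - v ≤ ((a - b : ℕ) : ℝ) := by
  rcases le_total b a with h | h
  · rw [Nat.cast_sub h]
    linarith
  · rw [Nat.sub_eq_zero_of_le h]
    have : (a : ℝ) ≤ b := by exact_mod_cast h
    simp only [Nat.cast_zero]
    linarith

/-- Soundness of a leaf of the recursion.

`low i`: `ev_sound` says `10^5 di ≤ 99999`, against `1 ≤ di`.  `inf`: the box is empty.
`tipa`: `ev_sound` says `Ln P k n d0 + Ln P k' n d1 ≥ 2 n pB K`; `e12.pot K` (the gap `x2 - x1` is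
at least `y0 - z1 ≥ 260`) and `e01.tip`.  `tipb`: symmetric.  `dir`, `two`: `EB.sound`,
`rm_sound`, `ev_sound`. -/
theorem leafR_sound {P : Tb} {TD tb K : ℕ} (hD : GoodD P TD tb) {L : Leaf}
    {t0 t1 a0 a1 z0 z1 y0 y1 : ℕ} (h : leafR P TD tb K L t0 t1 a0 a1 z0 z1 y0 y1 = true)
    {t x0 x1 x2 d0 d1 d2 J01 J12 : ℝ} (hB : InB t0 t1 a0 a1 z0 z1 y0 y1 t x0 x1 x2)
    (h0 : 1 ≤ d0) (h1 : 1 ≤ d1) (h2 : 1 ≤ d2)
    (hd0 : d0 ≤ DD t (uu * (x0 - 360))) (hd1 : d1 ≤ DD t (uu * (x1 - 360)))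
    (hd2 : d2 ≤ DD t (uu * (x2 - 360))) (h01 : x0 ≤ x1) (h12 : x1 ≤ x2)
    (hg : 260 ≤ x2 - x0) (hg' : x2 - x0 ≤ 360)
    (e01 : EF P (K + 1) d0 d1 (x1 - x0) J01) (e12 : EF P (K + 1) d1 d2 (x2 - x1) J12)
    (e02 : EF P K d0 d2 (x2 - x0) (J01 + J12)) :
    (P.pB K : ℝ) * (x2 - x0) - P.pA K ≤ J01 + J12 := by
  have hx0l := hB.a0
  have hx0u := hB.a1
  have hx1l := hB.z0
  have hx1u := hB.z1
  have hx2l := hB.y0
  have hx2u := hB.y1
  cases L with
  | low i =>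
    exfalso
    simp only [leafR, cond_eq_ite] at h
    split_ifs at h
    · have h1 := ev_sound hD h hB hd0 hd1 hd2
      push_cast at h1
      linarith
    · have h1 := ev_sound hD h hB hd0 hd1 hd2
      push_cast at h1
      linarith
    · have h1 := ev_sound hD h hB hd0 hd1 hd2
      push_cast at h1
      linarith
  | inf =>
    exfalso
    simp only [leafR, Bool.or_eq_true, Nat.blt_eq, Nat.add_eq] at h
    rcases h with h | h | h | h
    · have h' : (z1 : ℝ) < a0 := by exact_mod_cast h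
      linarith
    · have h' : (y1 : ℝ) < z0 := by exact_mod_cast h
      linarith
    · have h' : (y1 : ℝ) < a0 + 260 := by exact_mod_cast h
      linarith
    · have h' : (a1 : ℝ) + 360 < y0 := by exact_mod_cast h
      linarith
  | tipa k k' n =>
    simp only [leafR, Bool.and_eq_true, Nat.ble_eq, Nat.blt_eq, Nat.add_eq, Nat.mul_eq] at h
    obtain ⟨hz, hy, hn0, hn, hk, hk', hev⟩ := h
    have hz' : (z1 : ℝ) ≤ a0 + 2 * n := by exact_mod_cast hz
    have hy' : (z1 : ℝ) + 260 ≤ y0 := by exact_mod_cast hy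
    have hn0' : (0 : ℝ) < n := by exact_mod_cast hn0
    have h1 := ev_sound hD hev hB hd0 hd1 hd2
    have h2 := e01.tip k k' n hk hk' hn0 hn (by linarith)
    have h3 := e12.pot K (Nat.lt_succ_self K) (by linarith)
    have h4 : 2 * (n : ℝ) * P.pB K ≤ Ln P k n d0 + Ln P k' n d1 := by
      simp only [Ln]
      simp only [lc, Nat.mul_eq, Nat.add_eq] at h1
      push_cast at h1
      nlinarith [h1]
    have h5 : 2 * (n : ℝ) * (P.pB K * (x1 - x0)) ≤ 2 * n * J01 := by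
      have h6 : (x1 - x0) * (2 * (n : ℝ) * P.pB K) ≤
          (x1 - x0) * (Ln P k n d0 + Ln P k' n d1) :=
        mul_le_mul_of_nonneg_left h4 (by linarith)
      nlinarith [h6, h2]
    have h7 : (P.pB K : ℝ) * (x1 - x0) ≤ J01 :=
      le_of_mul_le_mul_left h5 (by linarith)
    linarith
  | tipb k k' n =>
    simp only [leafR, Bool.and_eq_true, Nat.ble_eq, Nat.blt_eq, Nat.add_eq, Nat.mul_eq] at h
    obtain ⟨hz, hy, hn0, hn, hk, hk', hev⟩ := h
    have hz' : (y1 : ℝ) ≤ z0 + 2 * n := by exact_mod_cast hz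
    have hy' : (a1 : ℝ) + 260 ≤ z0 := by exact_mod_cast hy
    have hn0' : (0 : ℝ) < n := by exact_mod_cast hn0
    have h1 := ev_sound hD hev hB hd0 hd1 hd2
    have h2 := e12.tip k k' n hk hk' hn0 hn (by linarith)
    have h3 := e01.pot K (Nat.lt_succ_self K) (by linarith)
    have h4 : 2 * (n : ℝ) * P.pB K ≤ Ln P k n d1 + Ln P k' n d2 := by
      simp only [Ln]
      simp only [lc, Nat.mul_eq, Nat.add_eq] at h1
      push_cast at h1
      nlinarith [h1]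
    have h5 : 2 * (n : ℝ) * (P.pB K * (x2 - x1)) ≤ 2 * n * J12 := by
      have h6 : (x2 - x1) * (2 * (n : ℝ) * P.pB K) ≤
          (x2 - x1) * (Ln P k n d1 + Ln P k' n d2) :=
        mul_le_mul_of_nonneg_left h4 (by linarith)
      nlinarith [h6, h2]
    have h7 : (P.pB K : ℝ) * (x2 - x1) ≤ J12 :=
      le_of_mul_le_mul_left h5 (by linarith)
    linarith
  | dir e =>
    simp only [leafR, Bool.and_eq_true, Nat.sub_eq] at h
    obtain ⟨he, hev⟩ := h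
    obtain ⟨hr0, hr1⟩ := ev_rng hev
    have h1 := ev_sound hD hev hB hd0 hd1 hd2
    have h2 := EB.sound e02 he (sub_lo hx2l hx0u (by linarith)) (sub_hi hx2u hx0l)
      (rm_sound hD hr0 hr1 hB.t0 hB.t1 hx0l hx0u hd0)
      (rm_sound hD hr0 hr1 hB.t0 hB.t1 hx2l hx2u hd2)
    simp only [Nat.mul_eq, Nat.add_eq] at h1
    push_cast at h1
    linarith
  | two e f =>
    simp only [leafR, Bool.and_eq_true, Nat.sub_eq] at h
    obtain ⟨he, hf, hev⟩ := h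
    obtain ⟨hr0, hr1⟩ := ev_rng hev
    have h1 := ev_sound hD hev hB hd0 hd1 hd2
    have h2 := EB.sound e01 he (sub_lo hx1l hx0u h01) (sub_hi hx1u hx0l)
      (rm_sound hD hr0 hr1 hB.t0 hB.t1 hx0l hx0u hd0)
      (rm_sound hD hr0 hr1 hB.t0 hB.t1 hx1l hx1u hd1)
    have h3 := EB.sound e12 hf (sub_lo hx2l hx1u h12) (sub_hi hx2u hx1l)
      (rm_sound hD hr0 hr1 hB.t0 hB.t1 hx1l hx1u hd1)
      (rm_sound hD hr0 hr1 hB.t0 hB.t1 hx2l hx2u hd2)
    simp only [Nat.mul_eq, Nat.add_eq] at h1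
    push_cast at h1
    linarith
  | thr e f g => simp [leafR] at h

/-- Soundness of a tree of the recursion (induction on the tree). -/
theorem chkR_sound {P : Tb} {TD tb K : ℕ} (hD : GoodD P TD tb) (T : Tree)
    {t0 t1 a0 a1 z0 z1 y0 y1 : ℕ} (h : chk (leafR P TD tb K) T t0 t1 a0 a1 z0 z1 y0 y1 = true)
    {t x0 x1 x2 d0 d1 d2 J01 J12 : ℝ} (hB : InB t0 t1 a0 a1 z0 z1 y0 y1 t x0 x1 x2)
    (h0 : 1 ≤ d0) (h1 : 1 ≤ d1) (h2 : 1 ≤ d2)
    (hd0 : d0 ≤ DD t (uu * (x0 - 360))) (hd1 : d1 ≤ DD t (uu * (x1 - 360)))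
    (hd2 : d2 ≤ DD t (uu * (x2 - 360))) (h01 : x0 ≤ x1) (h12 : x1 ≤ x2)
    (hg : 260 ≤ x2 - x0) (hg' : x2 - x0 ≤ 360)
    (e01 : EF P (K + 1) d0 d1 (x1 - x0) J01) (e12 : EF P (K + 1) d1 d2 (x2 - x1) J12)
    (e02 : EF P K d0 d2 (x2 - x0) (J01 + J12)) :
    (P.pB K : ℝ) * (x2 - x0) - P.pA K ≤ J01 + J12 := by
  induction T generalizing t0 t1 a0 a1 z0 z1 y0 y1 with
  | lf l =>
    exact leafR_sound hD (by simpa only [chk] using h) hB h0 h1 h2 hd0 hd1 hd2 h01 h12 hg hg'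
      e01 e12 e02
  | t v l r ihl ihr =>
    simp only [chk, Bool.and_eq_true] at h
    rcases le_total (256 * t) (v : ℝ) with hv | hv
    · exact ihl h.1 ⟨hB.t0, hv, hB.a0, hB.a1, hB.z0, hB.z1, hB.y0, hB.y1⟩
    · exact ihr h.2 ⟨hv, hB.t1, hB.a0, hB.a1, hB.z0, hB.z1, hB.y0, hB.y1⟩
  | a v l r ihl ihr =>
    simp only [chk, Bool.and_eq_true] at h
    rcases le_total x0 (v : ℝ) with hv | hv
    · exact ihl h.1 ⟨hB.t0, hB.t1, hB.a0, hv, hB.z0, hB.z1, hB.y0, hB.y1⟩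
    · exact ihr h.2 ⟨hB.t0, hB.t1, hv, hB.a1, hB.z0, hB.z1, hB.y0, hB.y1⟩
  | z v l r ihl ihr =>
    simp only [chk, Bool.and_eq_true] at h
    rcases le_total x1 (v : ℝ) with hv | hv
    · exact ihl h.1 ⟨hB.t0, hB.t1, hB.a0, hB.a1, hB.z0, hv, hB.y0, hB.y1⟩
    · exact ihr h.2 ⟨hB.t0, hB.t1, hB.a0, hB.a1, hv, hB.z1, hB.y0, hB.y1⟩
  | y v l r ihl ihr =>
    simp only [chk, Bool.and_eq_true] at h
    rcases le_total x2 (v : ℝ) with hv | hv
    · exact ihl h.1 ⟨hB.t0, hB.t1, hB.a0, hB.a1, hB.z0, hB.z1, hB.y0, hv⟩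
    · exact ihr h.2 ⟨hB.t0, hB.t1, hB.a0, hB.a1, hB.z0, hB.z1, hv, hB.y1⟩

end Pool.Agent.Helper58.LD
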