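import Pool.Agent.Helper58.LD.LR

/-!
# Project LD (MP_599705_an), piece LD-LT: soundness of the trees of the triangle of the origin
-/

set_option autoImplicit false

namespace Pool.Agent.Helper58.LD

private theorem nat_sub_le {a b : ℕ} {g : ℝ} (h : (a : ℝ) - b ≤ g) (h0 : 0 ≤ g) :
    ((Nat.sub a b : ℕ) : ℝ) ≤ g := by
  have e : Nat.sub a b = a - b := rfl
  rw [e]
  rcases le_total b a with h1 | h1
  · rw [Nat.cast_sub h1]; exact h
  · rw [Nat.sub_eq_zero_of_le h1, Nat.cast_zero]; exact h0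

private theorem le_nat_sub {a b : ℕ} {g : ℝ} (h : g ≤ (a : ℝ) - b) :
    g ≤ ((Nat.sub a b : ℕ) : ℝ) := by
  have e : Nat.sub a b = a - b := rfl
  rw [e]
  refine h.trans ?_
  rcases le_total b a with h1 | h1
  · rw [Nat.cast_sub h1]
  · rw [Nat.sub_eq_zero_of_le h1, Nat.cast_zero]
    have : (a : ℝ) ≤ b := by exact_mod_cast h1
    linarith

/-- Soundness of a leaf. `thr`: three times `EB.sound`, with the gaps `x1 - x0`, `x2 - x1`,
`x0 + 720 - x2`. -/
theorem leafT_sound {P : Tb} {TD tb np : ℕ} (hD : GoodD P TD tb) {L : Leaf}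
    {t0 t1 a0 a1 z0 z1 y0 y1 : ℕ} (h : leafT P TD tb np L t0 t1 a0 a1 z0 z1 y0 y1 = true)
    {t x0 x1 x2 d0 d1 d2 J01 J12 J20 : ℝ} (hB : InB t0 t1 a0 a1 z0 z1 y0 y1 t x0 x1 x2)
    (h0 : 1 ≤ d0) (h1 : 1 ≤ d1) (h2 : 1 ≤ d2)
    (hd0 : d0 ≤ DD t (uu * (x0 - 360))) (hd1 : d1 ≤ DD t (uu * (x1 - 360)))
    (hd2 : d2 ≤ DD t (uu * (x2 - 360))) (h01 : x0 ≤ x1) (h12 : x1 ≤ x2)
    (g01 : x1 ≤ x0 + 360) (g12 : x2 ≤ x1 + 360) (g20 : x0 + 360 ≤ x2)
    (w01 : x1 + x2 ≤ 2 * x0 + 720) (w12 : 2 * x2 ≤ x1 + x0 + 720)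
    (e01 : EF P np d0 d1 (x1 - x0) J01) (e12 : EF P np d1 d2 (x2 - x1) J12)
    (e20 : EF P np d2 d0 (x0 + 720 - x2) J20) :
    144360001 ≤ J01 + J12 + J20 := by
  obtain ⟨ht0, ht1, ha0, ha1, hz0, hz1, hy0, hy1⟩ := hB
  have hB : InB t0 t1 a0 a1 z0 z1 y0 y1 t x0 x1 x2 := ⟨ht0, ht1, ha0, ha1, hz0, hz1, hy0, hy1⟩
  cases L with
  | low i =>
    exfalso
    simp only [leafT] at h
    rcases hi : Nat.beq i 0 with _ | _
    · rw [hi, cond_false] at h
      rcases hi' : Nat.beq i 1 with _ | _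
      · rw [hi', cond_false] at h
        have := ev_sound hD h hB hd0 hd1 hd2
        norm_num at this
        linarith
      · rw [hi', cond_true] at h
        have := ev_sound hD h hB hd0 hd1 hd2
        norm_num at this
        linarith
    · rw [hi, cond_true] at h
      have := ev_sound hD h hB hd0 hd1 hd2
      norm_num at this
      linarith
  | inf =>
    exfalso
    simp only [leafT, Bool.or_eq_true, Nat.blt_eq, Nat.add_eq, Nat.mul_eq] at h
    rcases h with h | h | h | h | h | h | h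
    · have h' : (z1 : ℝ) < a0 := by exact_mod_cast h
      linarith
    · have h' : (y1 : ℝ) < z0 := by exact_mod_cast h
      linarith
    · have h' : (y1 : ℝ) < a0 + 360 := by exact_mod_cast h
      linarith
    · have h' : (a1 : ℝ) + 360 < z0 := by exact_mod_cast h
      linarith
    · have h' : (z1 : ℝ) + 360 < y0 := by exact_mod_cast h
      linarith
    · have h' : 2 * (a1 : ℝ) + 720 < z0 + y0 := by exact_mod_cast h
      linarith
    · have h' : (z1 : ℝ) + a1 + 720 < 2 * y0 := by exact_mod_cast h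
      linarith
  | thr e f g =>
    simp only [leafT, Bool.and_eq_true] at h
    obtain ⟨he, hf, hg, hev⟩ := h
    obtain ⟨r0, r1⟩ := ev_rng hev
    have m0 := rm_sound hD r0 r1 ht0 ht1 ha0 ha1 hd0
    have m1 := rm_sound hD r0 r1 ht0 ht1 hz0 hz1 hd1
    have m2 := rm_sound hD r0 r1 ht0 ht1 hy0 hy1 hd2
    have s0 := EB.sound e01 he (nat_sub_le (by linarith) (by linarith))
      (le_nat_sub (by linarith)) m0 m1
    have s1 := EB.sound e12 hf (nat_sub_le (by linarith) (by linarith))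
      (le_nat_sub (by linarith)) m1 m2
    have s2 := EB.sound e20 hg
      (nat_sub_le (by simp only [Nat.add_eq]; push_cast; linarith) (by linarith))
      (le_nat_sub (by simp only [Nat.add_eq]; push_cast; linarith)) m2 m0
    have s3 := ev_sound hD hev hB hd0 hd1 hd2
    simp only [Nat.add_eq, Nat.mul_eq] at s3
    push_cast at s3
    have key : (0 : ℝ) ≤ 2000 * (J01 + J12 + J20) - 288720002000 := by
      have := add_le_add (add_le_add s0 s1) s2
      refine s3.trans ?_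
      refine le_trans (le_of_eq ?_) (sub_le_sub_right this 288720002000 |>.trans (le_of_eq ?_))
      · ring
      · ring
    linarith
  | tipa _ _ _ => exact absurd h (by simp [leafT])
  | tipb _ _ _ => exact absurd h (by simp [leafT])
  | dir _ => exact absurd h (by simp [leafT])
  | two _ _ => exact absurd h (by simp [leafT])

/-- Soundness of a tree. -/
theorem chkT_sound {P : Tb} {TD tb np : ℕ} (hD : GoodD P TD tb) (T : Tree)
    {t0 t1 a0 a1 z0 z1 y0 y1 : ℕ} (h : chk (leafT P TD tb np) T t0 t1 a0 a1 z0 z1 y0 y1 = true)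
    {t x0 x1 x2 d0 d1 d2 J01 J12 J20 : ℝ} (hB : InB t0 t1 a0 a1 z0 z1 y0 y1 t x0 x1 x2)
    (h0 : 1 ≤ d0) (h1 : 1 ≤ d1) (h2 : 1 ≤ d2)
    (hd0 : d0 ≤ DD t (uu * (x0 - 360))) (hd1 : d1 ≤ DD t (uu * (x1 - 360)))
    (hd2 : d2 ≤ DD t (uu * (x2 - 360))) (h01 : x0 ≤ x1) (h12 : x1 ≤ x2)
    (g01 : x1 ≤ x0 + 360) (g12 : x2 ≤ x1 + 360) (g20 : x0 + 360 ≤ x2)
    (w01 : x1 + x2 ≤ 2 * x0 + 720) (w12 : 2 * x2 ≤ x1 + x0 + 720)
    (e01 : EF P np d0 d1 (x1 - x0) J01) (e12 : EF P np d1 d2 (x2 - x1) J12)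
    (e20 : EF P np d2 d0 (x0 + 720 - x2) J20) :
    144360001 ≤ J01 + J12 + J20 := by
  induction T generalizing t0 t1 a0 a1 z0 z1 y0 y1 with
  | lf L =>
    exact leafT_sound hD h hB h0 h1 h2 hd0 hd1 hd2 h01 h12 g01 g12 g20 w01 w12 e01 e12 e20
  | t v l r ihl ihr =>
    simp only [chk, Bool.and_eq_true] at h
    rcases le_total (256 * t) (v : ℝ) with hv | hv
    · exact ihl h.1 { hB with t1 := hv }
    · exact ihr h.2 { hB with t0 := hv }
  | a v l r ihl ihr =>
    simp only [chk, Bool.and_eq_true] at h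
    rcases le_total x0 (v : ℝ) with hv | hv
    · exact ihl h.1 { hB with a1 := hv }
    · exact ihr h.2 { hB with a0 := hv }
  | z v l r ihl ihr =>
    simp only [chk, Bool.and_eq_true] at h
    rcases le_total x1 (v : ℝ) with hv | hv
    · exact ihl h.1 { hB with z1 := hv }
    · exact ihr h.2 { hB with z0 := hv }
  | y v l r ihl ihr =>
    simp only [chk, Bool.and_eq_true] at h
    rcases le_total x2 (v : ℝ) with hv | hv
    · exact ihl h.1 { hB with y1 := hv }
    · exact ihr h.2 { hB with y0 := hv }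

end Pool.Agent.Helper58.LD
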