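import Mathlib

/-!
# Project LD (MP_599705_an): plane geometry of the Delaunay step
-/

set_option autoImplicit false

namespace Pool.Agent.Helper58.LD

open Complex

/-- cross product -/
def cr (u v : ℂ) : ℝ := u.re * v.im - u.im * v.re

/-- scalar product -/
def dt (u v : ℂ) : ℝ := u.re * v.re + u.im * v.im

/-- signed distance to the line `a b`, times the length of `b - a` -/
def sd (a b p : ℂ) : ℝ := cr a p + cr p b - cr a b

/-- power of `p` with respect to the circle with diameter `a b` -/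
def Q (a b p : ℂ) : ℝ := dt (p - a) (p - b)

/-- the centres of the circles through `a` and `b` -/
noncomputable def ctr (a b : ℂ) (l : ℝ) : ℂ := (a + b) / 2 - (l : ℂ) * I * (b - a)

theorem nsq (z : ℂ) : ‖z‖ ^ 2 = z.re ^ 2 + z.im ^ 2 := by
  rw [Complex.sq_norm, Complex.normSq_apply]
  ring

theorem ctr_re (a b : ℂ) (l : ℝ) : (ctr a b l).re = (a.re + b.re) / 2 + l * (b.im - a.im) := by
  simp [ctr]

theorem ctr_im (a b : ℂ) (l : ℝ) : (ctr a b l).im = (a.im + b.im) / 2 - l * (b.re - a.re) := by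
  simp [ctr]

/-- the power of `p` -/
theorem pow_ctr (a b p : ℂ) (l : ℝ) :
    ‖p - ctr a b l‖ ^ 2 - ‖a - ctr a b l‖ ^ 2 = Q a b p - 2 * l * sd a b p := by
  rw [nsq, nsq]
  simp only [sub_re, sub_im, ctr_re, ctr_im, Q, sd, cr, dt]
  ring

theorem rad_ctr (a b : ℂ) (l : ℝ) :
    ‖a - ctr a b l‖ ^ 2 = (1 / 4 + l ^ 2) * ‖b - a‖ ^ 2 := by
  rw [nsq, nsq]
  simp only [sub_re, sub_im, ctr_re, ctr_im]
  ring

theorem rad_ctr' (a b : ℂ) (l : ℝ) :
    ‖b - ctr a b l‖ ^ 2 = (1 / 4 + l ^ 2) * ‖b - a‖ ^ 2 := by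
  rw [nsq, nsq]
  simp only [sub_re, sub_im, ctr_re, ctr_im]
  ring

/-- every centre is of this form -/
theorem exists_ctr {a b c : ℂ} (hab : a ≠ b) (h : ‖a - c‖ = ‖b - c‖) : ∃ l : ℝ, c = ctr a b l := by
  have h2 : ‖a - c‖ ^ 2 = ‖b - c‖ ^ 2 := by rw [h]
  rw [nsq, nsq] at h2
  simp only [sub_re, sub_im] at h2
  set L : ℝ := (b.re - a.re) ^ 2 + (b.im - a.im) ^ 2 with hL
  have hL0 : L ≠ 0 := by
    intro h0
    apply hab
    have e1 : b.re - a.re = 0 := by nlinarith [sq_nonneg (b.re - a.re), sq_nonneg (b.im - a.im)]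
    have e2 : b.im - a.im = 0 := by nlinarith [sq_nonneg (b.re - a.re), sq_nonneg (b.im - a.im)]
    apply Complex.ext <;> linarith
  refine ⟨((c.re - (a.re + b.re) / 2) * (b.im - a.im) -
    (c.im - (a.im + b.im) / 2) * (b.re - a.re)) / L, ?_⟩
  have h3 : (c.re - (a.re + b.re) / 2) * (b.re - a.re) +
      (c.im - (a.im + b.im) / 2) * (b.im - a.im) = 0 := by
    linear_combination h2 / 2
  apply Complex.ext
  · rw [ctr_re]
    field_simp
    rw [hL]
    linear_combination (2 * (b.re - a.re)) * h3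
  · rw [ctr_im]
    field_simp
    rw [hL]
    linear_combination (2 * (b.im - a.im)) * h3

/-- the new point is visible between `a` and `b` -/
theorem cr_pos {a b w q : ℂ} {M : ℝ} (hab : 0 < cr a b ∨ (cr a b = 0 ∧ dt a b < 0))
    (ha : ‖a - w‖ ^ 2 = M) (hb : ‖b - w‖ ^ 2 = M) (hq : ‖q - w‖ ^ 2 < M)
    (hs : 0 < sd a b q) (hd : 0 ≤ dt a (a - w)) : 0 < cr a q := by
  by_contra hcon
  push Not at hcon
  have hc0 : 0 ≤ cr a b := by
    rcases hab with h | h
    · exact h.le
    · exact h.1.ge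
  -- vectors from `a`
  have e1 : dt (b - a) (w - a) = ((b.re - a.re) ^ 2 + (b.im - a.im) ^ 2) / 2 := by
    rw [nsq] at ha hb
    simp only [sub_re, sub_im] at ha hb
    simp only [dt, sub_re, sub_im]
    linear_combination (ha - hb) / 2
  have e2 : 0 < dt (q - a) (w - a) := by
    rw [nsq] at ha hq
    simp only [sub_re, sub_im] at ha hq
    simp only [dt, sub_re, sub_im]
    nlinarith [sq_nonneg (q.re - a.re), sq_nonneg (q.im - a.im)]
  have e3 : dt a (w - a) ≤ 0 := by
    simp only [dt, sub_re, sub_im] at hd ⊢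
    linarith
  have e4 : cr (b - a) (q - a) < 0 := by
    have : cr (b - a) (q - a) = - sd a b q := by
      simp only [sd, cr, sub_re, sub_im]
      ring
    rw [this]
    linarith
  have e5 : cr a (b - a) = cr a b := by
    simp only [cr, sub_re, sub_im]
    ring
  have e6 : cr (q - a) a = - cr a q := by
    simp only [cr, sub_re, sub_im]
    ring
  have hid : dt a (w - a) * cr (b - a) (q - a) + dt (b - a) (w - a) * cr (q - a) a +
      dt (q - a) (w - a) * cr a (b - a) = 0 := by
    simp only [cr, dt, sub_re, sub_im]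
    ring
  rw [e5, e6] at hid
  have hL : 0 ≤ dt (b - a) (w - a) := by
    rw [e1]
    positivity
  have t1 : 0 ≤ dt a (w - a) * cr (b - a) (q - a) := mul_nonneg_of_nonpos_of_nonpos e3 e4.le
  have t2 : 0 ≤ dt (b - a) (w - a) * (- cr a q) := mul_nonneg hL (by linarith)
  have t3 : 0 ≤ dt (q - a) (w - a) * cr a b := mul_nonneg e2.le hc0
  rcases hab with h | ⟨h, hneg⟩
  · have : 0 < dt (q - a) (w - a) * cr a b := mul_pos e2 h
    linarith
  · -- opposite directions
    have t4 : dt (b - a) (w - a) * (- cr a q) = 0 := by linarith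
    have hL' : 0 < dt (b - a) (w - a) := by
      rw [e1]
      have : 0 < (b.re - a.re) ^ 2 + (b.im - a.im) ^ 2 := by
        have h5 : (b.re - a.re) ^ 2 + (b.im - a.im) ^ 2 =
          (a.re ^ 2 + a.im ^ 2) + (b.re ^ 2 + b.im ^ 2) - 2 * dt a b := by
          simp only [dt]
          ring
        rw [h5]
        nlinarith [sq_nonneg a.re, sq_nonneg a.im, sq_nonneg b.re, sq_nonneg b.im]
      linarith
    have h6 : cr a q = 0 := by
      rcases mul_eq_zero.1 t4 with h7 | h7
      · linarith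
      · linarith
    -- `a` is parallel to both
    have ha0 : 0 < a.re ^ 2 + a.im ^ 2 := by
      have h8 : dt a b ≠ 0 := hneg.ne
      by_contra h9
      push Not at h9
      apply h8
      have h10 : a.re = 0 := by nlinarith [sq_nonneg a.re, sq_nonneg a.im]
      have h11 : a.im = 0 := by nlinarith [sq_nonneg a.re, sq_nonneg a.im]
      simp only [dt, h10, h11]
      ring
    have h12 : (a.re ^ 2 + a.im ^ 2) * sd a b q = 0 := by
      have h13 : (a.re ^ 2 + a.im ^ 2) * cr q b = dt a q * cr a b - cr a q * dt a b := by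
        simp only [cr, dt]
        ring
      have h14 : sd a b q = cr a q + cr q b - cr a b := rfl
      rw [h14, h, h6]
      have : (a.re ^ 2 + a.im ^ 2) * (0 + cr q b - 0) = (a.re ^ 2 + a.im ^ 2) * cr q b := by ring
      rw [this, h13, h, h6]
      ring
    have := mul_pos ha0 hs
    linarith

/-- the centre is visible between `a` and `b` -/
theorem cr_nonneg {a b w : ℂ} {M : ℝ} (hc : 0 ≤ cr a b)
    (ha : ‖a - w‖ ^ 2 = M) (hb : ‖b - w‖ ^ 2 = M) (hw : ‖w‖ ^ 2 < M)
    (hs : 0 < sd a b w) : 0 ≤ cr a w := by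
  by_contra hcon
  push Not at hcon
  set A := cr a w with hA
  set B := cr w b with hB
  set C := cr a b with hC
  have hS : 0 < A + B - C := hs
  have hB0 : 0 < B := by linarith
  rw [nsq] at ha hb hw
  simp only [sub_re, sub_im] at ha hb
  have hid : (M - (w.re ^ 2 + w.im ^ 2)) * (A + B) ^ 2 - A * B * ((b.re - a.re) ^ 2 +
      (b.im - a.im) ^ 2) = C * (C - 2 * (A + B)) * (w.re ^ 2 + w.im ^ 2) := by
    have v1 : C * w.re = B * a.re + A * b.re := by
      simp only [hA, hB, hC, cr]
      ring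
    have v2 : C * w.im = B * a.im + A * b.im := by
      simp only [hA, hB, hC, cr]
      ring
    have fa : a.re ^ 2 + a.im ^ 2 - 2 * (a.re * w.re + a.im * w.im) =
        M - (w.re ^ 2 + w.im ^ 2) := by linear_combination ha
    have fb : b.re ^ 2 + b.im ^ 2 - 2 * (b.re * w.re + b.im * w.im) =
        M - (w.re ^ 2 + w.im ^ 2) := by linear_combination hb
    linear_combination (-(B * (A + B))) * fa + (-(A * (A + B))) * fb -
      (C * w.re + B * a.re + A * b.re - 2 * (A + B) * w.re) * v1 -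
      (C * w.im + B * a.im + A * b.im - 2 * (A + B) * w.im) * v2
  have h1 : 0 < (M - (w.re ^ 2 + w.im ^ 2)) * (A + B) ^ 2 := by
    apply mul_pos (by linarith)
    have : 0 < A + B := by linarith
    positivity
  have h2 : 0 ≤ -(A * B) * ((b.re - a.re) ^ 2 + (b.im - a.im) ^ 2) := by
    apply mul_nonneg
    · nlinarith
    · positivity
  have h3 : C * (C - 2 * (A + B)) * (w.re ^ 2 + w.im ^ 2) ≤ 0 := by
    apply mul_nonpos_of_nonpos_of_nonneg
    · apply mul_nonpos_of_nonneg_of_nonpos hc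
      linarith
    · positivity
  linarith

end Pool.Agent.Helper58.LD
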