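import Pool.Agent.Helper58.LD.Def
import Pool.Agent.Helper54.LN.Root2

/-!
# Project LD (MP_599705_an), piece LD-RO: the Delaunay triangle of the origin
-/

set_option autoImplicit false

namespace Pool.Agent.Helper58.LD

open Complex Metric Set MeasureTheory
open Pool.Agent.Helper91.LC
open Pool.Agent.Helper54.LN

private theorem ro1_dot (v e : ℂ) :
    (v * (starRingEnd ℂ) e).re = v.re * e.re + v.im * e.im := by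
  rw [Complex.mul_re, Complex.conj_re, Complex.conj_im]
  ring

private theorem ro1_sq (z : ℂ) : ‖z‖ ^ 2 = z.re ^ 2 + z.im ^ 2 := by
  rw [Complex.sq_norm, Complex.normSq_apply]
  ring

open Filter Topology in
/-- As `Pool.Agent.Helper54.LN.root_min` (file `Helper54/LN/Root1.lean`), with the additional
information that no point of `E` is nearer to `c`: copy that proof, `ρ + ‖c‖² = infDist c E ^ 2`. -/
theorem root_min' {E : Set ℂ} {m : ℝ} (hE : IsClosed E) (hn : ∀ p ∈ E, 1 ≤ ‖p‖)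
    (hm : m < 5 / 4) (hc : ∀ w : ℂ, ∃ p ∈ E, ‖w - p‖ ≤ m) :
    ∃ (c : ℂ) (ρ : ℝ), 1 ≤ ρ ∧ ρ + ‖c‖ ^ 2 ≤ m ^ 2 ∧
      (∀ p ∈ E, ρ + ‖c‖ ^ 2 ≤ ‖p - c‖ ^ 2) ∧
      ∀ v : ℂ, ∃ p ∈ E, ‖p - c‖ ^ 2 = ρ + ‖c‖ ^ 2 ∧ 0 ≤ (p * (starRingEnd ℂ) v).re := by
  have hne : E.Nonempty := by
    obtain ⟨p, hp, -⟩ := hc 0
    exact ⟨p, hp⟩
  have hdm : ∀ w : ℂ, infDist w E ≤ m := by
    intro w
    obtain ⟨p, hp, h⟩ := hc w
    have h1 := infDist_le_dist_of_mem (x := w) hp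
    rw [dist_eq_norm] at h1
    exact h1.trans h
  have hcont : Continuous fun w : ℂ => ‖w‖ ^ 2 - infDist w E ^ 2 :=
    (continuous_norm.pow 2).sub ((continuous_infDist_pt E).pow 2)
  obtain ⟨c, -, hmin⟩ := (isCompact_closedBall (0 : ℂ) 1).exists_isMinOn
    ⟨0, mem_closedBall_self (by norm_num)⟩ hcont.continuousOn
  have hmin' : ∀ w : ℂ, ‖w‖ ≤ 1 → ‖c‖ ^ 2 - infDist c E ^ 2 ≤ ‖w‖ ^ 2 - infDist w E ^ 2 := by
    intro w hw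
    exact hmin (by rw [mem_closedBall, dist_zero_right]; exact hw)
  have h0 : (1 : ℝ) ≤ infDist 0 E := by
    refine (le_infDist hne).2 fun p hp => ?_
    rw [dist_zero_left]
    exact hn p hp
  have hmin0 := hmin' 0 (by rw [norm_zero]; exact zero_le_one)
  rw [norm_zero] at hmin0
  have hd0 : 0 ≤ infDist c E := infDist_nonneg
  have hdc := hdm c
  have hsq0 : (1 : ℝ) ≤ infDist 0 E ^ 2 := one_le_pow₀ h0
  have hsqc : infDist c E ^ 2 ≤ m ^ 2 := pow_le_pow_left₀ hd0 hdc 2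
  have hm0 : 0 ≤ m := hd0.trans hdc
  have hm2 : m ^ 2 < (5 / 4) ^ 2 := pow_lt_pow_left₀ hm hm0 (by norm_num)
  have hcn : ‖c‖ < 3 / 4 := by
    have h1 : ‖c‖ ^ 2 < (3 / 4) ^ 2 := by nlinarith
    exact lt_of_pow_lt_pow_left₀ 2 (by norm_num) h1
  refine ⟨c, infDist c E ^ 2 - ‖c‖ ^ 2, by linarith, by linarith, ?_, ?_⟩
  · intro p hp
    have h1 : infDist c E ≤ ‖p - c‖ := by
      rw [← dist_eq_norm, dist_comm]
      exact infDist_le_dist_of_mem hp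
    have h2 := pow_le_pow_left₀ hd0 h1 2
    linarith
  intro v
  set ε : ℝ := 1 / (4 * (‖v‖ + 1)) with hε
  have hv0 : 0 ≤ ‖v‖ := norm_nonneg v
  have hεp : 0 < ε := by positivity
  have hεv : ε * ‖v‖ ≤ 1 / 4 := by
    rw [hε, div_mul_eq_mul_div, one_mul, div_le_iff₀ (by positivity)]
    linarith
  have ht0 : ∀ n : ℕ, 0 < ε * (1 / ((n : ℝ) + 1)) := fun n =>
    mul_pos hεp Nat.one_div_pos_of_nat
  have ht1 : ∀ n : ℕ, ε * (1 / ((n : ℝ) + 1)) ≤ ε := fun n => by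
    have h1 : 1 / ((n : ℝ) + 1) ≤ 1 := by
      rw [div_le_one (by positivity)]
      have : (0 : ℝ) ≤ n := Nat.cast_nonneg n
      linarith
    nlinarith
  have hnear : ∀ n : ℕ, ∃ p ∈ E, infDist (c + ((ε * (1 / ((n : ℝ) + 1)) : ℝ) : ℂ) * v) E
      = dist (c + ((ε * (1 / ((n : ℝ) + 1)) : ℝ) : ℂ) * v) p :=
    fun n => hE.exists_infDist_eq_dist hne _
  choose p hpE hpd using hnear
  have hnorm_t : ∀ n : ℕ, ‖((ε * (1 / ((n : ℝ) + 1)) : ℝ) : ℂ) * v‖ ≤ 1 / 4 := by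
    intro n
    rw [norm_mul, Complex.norm_real, Real.norm_of_nonneg (ht0 n).le]
    have h1 := mul_le_mul_of_nonneg_right (ht1 n) hv0
    linarith
  have hbd : ∀ n, p n ∈ closedBall c (m + 1 / 4) := by
    intro n
    rw [mem_closedBall]
    have h1 : dist (p n) c ≤ dist (p n) (c + ((ε * (1 / ((n : ℝ) + 1)) : ℝ) : ℂ) * v)
        + dist (c + ((ε * (1 / ((n : ℝ) + 1)) : ℝ) : ℂ) * v) c := dist_triangle _ _ _
    have h2 : dist (c + ((ε * (1 / ((n : ℝ) + 1)) : ℝ) : ℂ) * v) c ≤ 1 / 4 := by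
      rw [dist_eq_norm, add_sub_cancel_left]
      exact hnorm_t n
    have h3 := hpd n
    have h4 := hdm (c + ((ε * (1 / ((n : ℝ) + 1)) : ℝ) : ℂ) * v)
    rw [dist_comm] at h3
    linarith
  obtain ⟨P, -, φ, hφ, hlim⟩ := (isCompact_closedBall c (m + 1 / 4)).tendsto_subseq hbd
  have hPE : P ∈ E := hE.mem_of_tendsto hlim (Eventually.of_forall fun n => hpE (φ n))
  have htlim : Tendsto (fun n => ε * (1 / (((φ n : ℕ) : ℝ) + 1))) atTop (𝓝 0) := by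
    have h1 := ((tendsto_one_div_add_atTop_nhds_zero_nat (𝕜 := ℝ)).comp
      hφ.tendsto_atTop).const_mul ε
    rw [mul_zero] at h1
    exact h1
  have htlimC : Tendsto (fun n => ((ε * (1 / (((φ n : ℕ) : ℝ) + 1)) : ℝ) : ℂ) * v) atTop
      (𝓝 0) := by
    have h1 := (Complex.continuous_ofReal.tendsto 0).comp htlim
    have h2 := h1.mul_const v
    rw [Complex.ofReal_zero, zero_mul] at h2
    exact h2
  have hwlim : Tendsto (fun n => c + ((ε * (1 / (((φ n : ℕ) : ℝ) + 1)) : ℝ) : ℂ) * v) atTop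
      (𝓝 c) := by
    have := htlimC.const_add c
    rwa [add_zero] at this
  have hPd : dist c P = infDist c E := by
    have h1 : Tendsto (fun n => dist (c + ((ε * (1 / (((φ n : ℕ) : ℝ) + 1)) : ℝ) : ℂ) * v)
        (p (φ n))) atTop (𝓝 (dist c P)) := hwlim.dist hlim
    have h2 : Tendsto (fun n => infDist (c + ((ε * (1 / (((φ n : ℕ) : ℝ) + 1)) : ℝ) : ℂ) * v) E)
        atTop (𝓝 (infDist c E)) := ((continuous_infDist_pt E).tendsto c).comp hwlim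
    refine tendsto_nhds_unique h1 (h2.congr fun n => ?_)
    exact hpd (φ n)
  have hnP : ‖P - c‖ = infDist c E := by rw [← dist_eq_norm, dist_comm]; exact hPd
  have key : ∀ n : ℕ, 0 ≤ (p n).re * v.re + (p n).im * v.im := by
    intro n
    set t := ε * (1 / ((n : ℝ) + 1)) with ht
    have htp : 0 < t := ht0 n
    have hpn : infDist c E ≤ ‖c - p n‖ := by
      rw [← dist_eq_norm]
      exact infDist_le_dist_of_mem (hpE n)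
    have hpn2 : infDist c E ^ 2 ≤ ‖c - p n‖ ^ 2 := pow_le_pow_left₀ hd0 hpn 2
    have h1 : infDist (c + (t : ℂ) * v) E = ‖c + (t : ℂ) * v - p n‖ := by
      rw [hpd n, dist_eq_norm]
    have hball : ‖c + (t : ℂ) * v‖ ≤ 1 := by
      have h3 := norm_add_le c ((t : ℂ) * v)
      have h4 := hnorm_t n
      rw [← ht] at h4
      linarith
    have h2 := hmin' (c + (t : ℂ) * v) hball
    rw [h1] at h2
    have h3 : ‖c‖ ^ 2 - ‖c - p n‖ ^ 2 ≤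
        ‖c + (t : ℂ) * v‖ ^ 2 - ‖c + (t : ℂ) * v - p n‖ ^ 2 := by linarith
    rw [ro1_sq, ro1_sq, ro1_sq, ro1_sq] at h3
    simp only [Complex.sub_re, Complex.sub_im, Complex.add_re, Complex.add_im, Complex.mul_re,
      Complex.mul_im, Complex.ofReal_re, Complex.ofReal_im, zero_mul, sub_zero, add_zero] at h3
    have h4 : t * 0 ≤ t * ((p n).re * v.re + (p n).im * v.im) := by nlinarith
    exact le_of_mul_le_mul_left h4 htp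
  refine ⟨P, hPE, by rw [hnP]; ring, ?_⟩
  rw [ro1_dot]
  have hQlim : Tendsto (fun n => (p (φ n)).re * v.re + (p (φ n)).im * v.im) atTop
      (𝓝 (P.re * v.re + P.im * v.im)) :=
    (((Complex.continuous_re.tendsto _).comp hlim).mul_const _).add
      (((Complex.continuous_im.tendsto _).comp hlim).mul_const _)
  exact ge_of_tendsto' hQlim fun n => key (φ n)

private theorem ro_mem {E : Set ℂ} {c : ℂ} {ρ m d φ : ℝ} (hm0 : 0 ≤ m)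
    (hρm : ρ + ‖c‖ ^ 2 ≤ m ^ 2)
    (hp : pol d φ ∈ {p | p ∈ E ∧ ‖p - c‖ ^ 2 = ρ + ‖c‖ ^ 2}) :
    d ^ 2 + ‖c‖ ^ 2 - 2 * d * ‖c‖ * Real.cos (φ - arg c) ≤ m ^ 2 := by
  have h1 : pol ‖c‖ (arg c) = c := norm_mul_exp_arg_mul_I c
  have h2 := dist_pol d φ ‖c‖ (arg c)
  rw [h1, hp.2, ← Real.cos_neg, neg_sub] at h2
  linarith

private theorem ro_shift {S : Set ℂ} {d φ : ℝ} (h : pol d φ ∈ S) :
    pol d (φ + 2 * Real.pi) ∈ S := by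
  have h1 : pol d (φ + 2 * Real.pi) = pol d φ := by
    unfold pol
    congr 1
    push_cast
    rw [add_mul, Complex.exp_add, Complex.exp_two_pi_mul_I, mul_one]
  rw [h1]
  exact h

private theorem ro_fin {E : Set ℂ} {m ρ : ℝ} {c : ℂ} (hm0 : 0 ≤ m) (hρ : 1 ≤ ρ)
    (hρm : ρ + ‖c‖ ^ 2 ≤ m ^ 2) (hmin : ∀ p ∈ E, ρ + ‖c‖ ^ 2 ≤ ‖p - c‖ ^ 2)
    {d0 d1 d2 φ0 φ1 φ2 : ℝ} (hd0 : 1 ≤ d0) (hd1 : 1 ≤ d1) (hd2 : 1 ≤ d2)
    (h0 : pol d0 φ0 ∈ {p | p ∈ E ∧ ‖p - c‖ ^ 2 = ρ + ‖c‖ ^ 2})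
    (h1 : pol d1 φ1 ∈ {p | p ∈ E ∧ ‖p - c‖ ^ 2 = ρ + ‖c‖ ^ 2})
    (h2 : pol d2 φ2 ∈ {p | p ∈ E ∧ ‖p - c‖ ^ 2 = ρ + ‖c‖ ^ 2})
    (c1 : φ0 ≤ φ1) (c2 : φ1 ≤ φ2) (c3 : φ1 ≤ φ0 + Real.pi) (c4 : φ2 ≤ φ1 + Real.pi)
    (c5 : φ0 + Real.pi ≤ φ2) (c6 : φ1 + φ2 ≤ 2 * φ0 + 2 * Real.pi)
    (c7 : 2 * φ2 ≤ φ1 + φ0 + 2 * Real.pi) :
    ∃ t ω d0 d1 d2 φ0 φ1 φ2 : ℝ, 0 ≤ t ∧ 1 + t ^ 2 ≤ m ^ 2 ∧
      Pt E d0 φ0 ∧ Pt E d1 φ1 ∧ Pt E d2 φ2 ∧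
      φ0 ≤ φ1 ∧ φ1 ≤ φ2 ∧ φ1 ≤ φ0 + Real.pi ∧ φ2 ≤ φ1 + Real.pi ∧ φ0 + Real.pi ≤ φ2 ∧
      φ1 + φ2 ≤ 2 * φ0 + 2 * Real.pi ∧ 2 * φ2 ≤ φ1 + φ0 + 2 * Real.pi ∧
      d0 ^ 2 + t ^ 2 - 2 * d0 * t * Real.cos (φ0 - ω) ≤ m ^ 2 ∧
      d1 ^ 2 + t ^ 2 - 2 * d1 * t * Real.cos (φ1 - ω) ≤ m ^ 2 ∧
      d2 ^ 2 + t ^ 2 - 2 * d2 * t * Real.cos (φ2 - ω) ≤ m ^ 2 ∧
      ∃ c : ℂ, ‖pol d0 φ0 - c‖ = ‖pol d1 φ1 - c‖ ∧ ‖pol d1 φ1 - c‖ = ‖pol d2 φ2 - c‖ ∧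
        ∀ p ∈ E, ‖pol d0 φ0 - c‖ ≤ ‖p - c‖ := by
  have e1 : ‖pol d0 φ0 - c‖ = ‖pol d1 φ1 - c‖ := by
    rw [← abs_of_nonneg (norm_nonneg (pol d0 φ0 - c)), ← abs_of_nonneg
      (norm_nonneg (pol d1 φ1 - c)), ← sq_eq_sq_iff_abs_eq_abs, h0.2, h1.2]
  have e2 : ‖pol d1 φ1 - c‖ = ‖pol d2 φ2 - c‖ := by
    rw [← abs_of_nonneg (norm_nonneg (pol d1 φ1 - c)), ← abs_of_nonneg
      (norm_nonneg (pol d2 φ2 - c)), ← sq_eq_sq_iff_abs_eq_abs, h1.2, h2.2]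
  refine ⟨‖c‖, arg c, d0, d1, d2, φ0, φ1, φ2, norm_nonneg c, by linarith, ⟨hd0, h0.1⟩,
    ⟨hd1, h1.1⟩, ⟨hd2, h2.1⟩, c1, c2, c3, c4, c5, c6, c7, ro_mem hm0 hρm h0, ro_mem hm0 hρm h1,
    ro_mem hm0 hρm h2, c, e1, e2, ?_⟩
  intro p hp
  have h3 : ‖pol d0 φ0 - c‖ ^ 2 ≤ ‖p - c‖ ^ 2 := by
    rw [h0.2]
    exact hmin p hp
  exact le_of_sq_le_sq h3 (norm_nonneg _)

/-- The triangle of the origin, with the longest gap between the third and the first point.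

Proof: `root_min'`, then `root_angles` with `N = {p ∈ E | ‖p - c‖² = ρ + ‖c‖²}` (compact) gives
three angles `φ₁ ≤ φ₂ ≤ φ₁ + π ≤ φ₃ ≤ φ₂ + π`; `t = ‖c‖`, `ω = arg c`.  The three cyclic
relabellings are `(φ₁, φ₂, φ₃)`, `(φ₂, φ₃, φ₁ + 2π)`, `(φ₃, φ₁ + 2π, φ₂ + 2π)`
(`Pt.add_two_pi`); choose the one in which the gap from the third point to the first one is the
longest. -/
theorem root3 {E : Set ℂ} {m : ℝ} (hE : IsClosed E) (hn : ∀ p ∈ E, 1 ≤ ‖p‖)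
    (hm : m < 5 / 4) (hc : ∀ w : ℂ, ∃ p ∈ E, ‖w - p‖ ≤ m) :
    ∃ t ω d0 d1 d2 φ0 φ1 φ2 : ℝ, 0 ≤ t ∧ 1 + t ^ 2 ≤ m ^ 2 ∧
      Pt E d0 φ0 ∧ Pt E d1 φ1 ∧ Pt E d2 φ2 ∧
      φ0 ≤ φ1 ∧ φ1 ≤ φ2 ∧ φ1 ≤ φ0 + Real.pi ∧ φ2 ≤ φ1 + Real.pi ∧ φ0 + Real.pi ≤ φ2 ∧
      φ1 + φ2 ≤ 2 * φ0 + 2 * Real.pi ∧ 2 * φ2 ≤ φ1 + φ0 + 2 * Real.pi ∧
      d0 ^ 2 + t ^ 2 - 2 * d0 * t * Real.cos (φ0 - ω) ≤ m ^ 2 ∧
      d1 ^ 2 + t ^ 2 - 2 * d1 * t * Real.cos (φ1 - ω) ≤ m ^ 2 ∧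
      d2 ^ 2 + t ^ 2 - 2 * d2 * t * Real.cos (φ2 - ω) ≤ m ^ 2 ∧
      ∃ c : ℂ, ‖pol d0 φ0 - c‖ = ‖pol d1 φ1 - c‖ ∧ ‖pol d1 φ1 - c‖ = ‖pol d2 φ2 - c‖ ∧
        ∀ p ∈ E, ‖pol d0 φ0 - c‖ ≤ ‖p - c‖ := by
  have hpi := Real.pi_pos
  obtain ⟨p0, hp0, hp0'⟩ := hc 0
  have hm1 : 1 ≤ m := by
    have := hn p0 hp0
    rw [zero_sub, norm_neg] at hp0'
    linarith
  have hm0 : 0 ≤ m := by linarith
  obtain ⟨c, ρ, hρ, hρm, hmin, hdir⟩ := root_min' hE hn hm hc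
  set N : Set ℂ := {p | p ∈ E ∧ ‖p - c‖ ^ 2 = ρ + ‖c‖ ^ 2} with hN
  have hNc : IsCompact N := by
    have h1 : IsClosed N := by
      apply hE.inter
      exact isClosed_eq (by fun_prop) continuous_const
    have h2 : N ⊆ closedBall c m := by
      intro p hp
      rw [mem_closedBall, dist_eq_norm]
      apply le_of_sq_le_sq _ hm0
      rw [hp.2]
      exact hρm
    exact (isCompact_closedBall c m).of_isClosed_subset h1 h2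
  obtain ⟨d₁, d₂, d₃, φ₁, φ₂, φ₃, hd₁, hd₂, hd₃, c1, c2, c3, c4, e₁, e₂, e₃⟩ :=
    root_angles hNc (fun p hp => hn p hp.1) (fun v => by
      obtain ⟨p, hp, h1, h2⟩ := hdir v
      exact ⟨p, ⟨hp, h1⟩, h2⟩)
  by_cases g3 : φ₂ - φ₁ ≤ φ₁ + 2 * Real.pi - φ₃ ∧ φ₃ - φ₂ ≤ φ₁ + 2 * Real.pi - φ₃
  · exact ro_fin hm0 hρ hρm hmin hd₁ hd₂ hd₃ e₁ e₂ e₃ c1 (by linarith) c2 c4 c3
      (by linarith [g3.1]) (by linarith [g3.2])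
  · by_cases g1 : φ₃ - φ₂ ≤ φ₂ - φ₁ ∧ φ₁ + 2 * Real.pi - φ₃ ≤ φ₂ - φ₁
    · exact ro_fin hm0 hρ hρm hmin hd₂ hd₃ hd₁ e₂ e₃ (ro_shift e₁) (by linarith)
        (by linarith) c4 (by linarith) (by linarith) (by linarith [g1.1]) (by linarith [g1.2])
    · have g2 : φ₁ + 2 * Real.pi - φ₃ ≤ φ₃ - φ₂ ∧ φ₂ - φ₁ ≤ φ₃ - φ₂ := by
        rw [not_and_or, not_le, not_le] at g3 g1
        rcases g3 with g3 | g3 <;> rcases g1 with g1 | g1 <;> constructor <;> linarith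
      exact ro_fin hm0 hρ hρm hmin hd₃ hd₁ hd₂ e₃ (ro_shift e₁) (ro_shift e₂) (by linarith)
        (by linarith) (by linarith) (by linarith) (by linarith) (by linarith [g2.1])
        (by linarith [g2.2])

end Pool.Agent.Helper58.LD
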