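import Pool.Agent.Helper58.LD.VAL

/-!
# Project LD (MP_599705_an), piece LD-ST: one step
-/

set_option autoImplicit false

namespace Pool.Agent.Helper58.LD

open Complex Metric Set MeasureTheory
open Pool.Agent.Helper91.LC
open Pool.Agent.Helper54.LN

private theorem uu_pos_st : 0 < uu := by
  unfold uu
  have := Real.pi_pos
  positivity

private theorem cos_lt {x : ℝ} (h1 : 260 ≤ x / uu) (h2 : x ≤ Real.pi) :
    Real.cos x < 2 * (1 - 1.0401 ^ 2 / 2) ^ 2 - 1 := by
  have hpi := Real.pi_pos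
  have hpi' := Real.pi_lt_d2
  have hu : 0 < uu := uu_pos_st
  rw [le_div_iff₀ hu] at h1
  have h3 : 13 * Real.pi / 18 ≤ x := by
    unfold uu at h1
    linarith
  have h4 : Real.cos x ≤ Real.cos (13 * Real.pi / 18) :=
    Real.cos_le_cos_of_nonneg_of_le_pi (by positivity) h2 h3
  have h5 : Real.cos (13 * Real.pi / 18) = -Real.cos (5 * Real.pi / 18) := by
    rw [← Real.cos_pi_sub]
    congr 1
    ring
  have h6 := Real.one_sub_sq_div_two_le_cos (x := 5 * Real.pi / 18)
  have h7 : (5 * Real.pi / 18) ^ 2 ≤ (0.875 : ℝ) ^ 2 := by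
    apply pow_le_pow_left₀ (by positivity)
    linarith
  norm_num at h7 ⊢
  linarith

/-- One step (no induction): the claim for an edge follows from the claim (potential `K`) for its
sub-edges.

Proof: apply `step` with `m = 1.0401`, `c₀ = 1 - 1.0401² / 2 = 0.459...`; the gap is at least
130 degrees, and `cos (13 π / 18) < 2 c₀² - 1 = -0.578...` (`cos (13π/18) = -0.6427...`).  We get
`t, ω, dq, φq`; put `x = (φ - ω) / uu + 360` for the three angles; then `x0 ∈ [0, 360]`,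
`x1 ∈ [0, 720]`, `x2 ∈ [360, 720]`, `256 t ∈ [0, 256)`, choose `i = ⌊8 t⌋`; `le_DD` gives the upper
bounds of the radii, `EF_of` the facts about the three edges, and `chkR_sound` the claim;
`∫ a..b = ∫ a..q + ∫ q..b`. -/
theorem one_step {P : Tb} {TD : ℕ → ℕ} {K : ℕ} {V : ℝ → ℝ} {E : Set ℂ} {m' : ℝ}
    (h : Cfg V E m') (hm0 : 0 ≤ m') (hm : m' < 1.0401)
    (hfin : ∀ R : ℝ, (E ∩ closedBall 0 R).Finite) (hN : GoodN P) (hH : GoodH P)
    (hD : ∀ i < 8, GoodD P (TD i) (32 * i))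
    (hchk : ∀ i < 8, ∃ T : Tree,
      chk (leafR P (TD i) (32 * i) K) T (32 * i) (32 * i + 32) 0 360 0 720 360 720 = true)
    (hprev : ∀ j < K, Val P V E j) {da φa db φb : ℝ} (he : Edge E da φa db φb)
    (hg : 260 ≤ (φb - φa) / uu) :
    ∃ dq φq : ℝ, Pt E dq φq ∧ dq ≤ 2.0401 ∧ φa < φq ∧ φq < φb ∧ Edge E da φa dq φq ∧
      Edge E dq φq db φb ∧
      ((260 ≤ (φq - φa) / uu → (P.pB K : ℝ) * ((φq - φa) / uu) - (P.pA K : ℝ) ≤
          10 ^ 6 / uu * ∫ θ in φa..φq, V θ) →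
        (260 ≤ (φb - φq) / uu → (P.pB K : ℝ) * ((φb - φq) / uu) - (P.pA K : ℝ) ≤
          10 ^ 6 / uu * ∫ θ in φq..φb, V θ) →
        (P.pB K : ℝ) * ((φb - φa) / uu) - (P.pA K : ℝ) ≤ 10 ^ 6 / uu * ∫ θ in φa..φb, V θ) := by
  have hu : 0 < uu := uu_pos_st
  have hle := he.le
  have hlt := he.lt
  have hgap := cos_lt hg (by linarith)
  obtain ⟨t, ω, dq, φq, ht0, ht1, ha1, ha2, ea, eb, eq, hq1, hq2, hdq, hE1, hE2⟩ :=
    step (m := 1.0401) (c₀ := 1 - 1.0401 ^ 2 / 2) h.norm h.cov hfin hm0 hm (by norm_num)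
      (by norm_num) (by norm_num) he hgap
  refine ⟨dq, φq, hE1.b, by linarith, hq1, hq2, hE1, hE2, fun hK1 hK2 => ?_⟩
  -- the cell of `t`
  obtain ⟨i, hi, hi1, hi2⟩ : ∃ i : ℕ, i < 8 ∧ ((32 * i : ℕ) : ℝ) ≤ 256 * t ∧
      256 * t ≤ ((32 * i + 32 : ℕ) : ℝ) := by
    refine ⟨⌊8 * t⌋₊, ?_, ?_, ?_⟩
    · rw [Nat.floor_lt (by linarith)]
      push_cast
      linarith
    · have := Nat.floor_le (a := 8 * t) (by linarith)
      push_cast
      linarith
    · have := Nat.lt_floor_add_one (8 * t)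
      push_cast
      linarith
  obtain ⟨T, hT⟩ := hchk i hi
  have huu : uu * 360 = Real.pi := by
    unfold uu
    ring
  have hx : ∀ φ : ℝ, uu * ((φ - ω) / uu + 360 - 360) = φ - ω := by
    intro φ
    field_simp
    ring
  have hdiv : ∀ x : ℝ, -Real.pi ≤ x → -360 ≤ x / uu := by
    intro x hx
    rw [le_div_iff₀ hu]
    linarith
  have hdiv' : ∀ x : ℝ, x ≤ Real.pi → x / uu ≤ 360 := by
    intro x hx
    rw [div_le_iff₀ hu]
    linarith
  have hneg : ∀ x : ℝ, x ≤ 0 → x / uu ≤ 0 := fun x hx => div_nonpos_of_nonpos_of_nonneg hx hu.le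
  have hpos : ∀ x : ℝ, 0 ≤ x → 0 ≤ x / uu := fun x hx => div_nonneg hx hu.le
  have hsub : ∀ x y : ℝ, (y - ω) / uu + 360 - ((x - ω) / uu + 360) = (y - x) / uu := by
    intro x y
    field_simp
    ring
  have hmono : ∀ x y : ℝ, x ≤ y → (x - ω) / uu + 360 ≤ (y - ω) / uu + 360 := by
    intro x y hxy
    have := div_le_div_of_nonneg_right (show x - ω ≤ y - ω by linarith) hu.le
    linarith
  have hInt : (10 ^ 6 / uu * ∫ θ in φa..φq, V θ) + (10 ^ 6 / uu * ∫ θ in φq..φb, V θ) =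
      10 ^ 6 / uu * ∫ θ in φa..φb, V θ := by
    rw [← mul_add, intervalIntegral.integral_add_adjacent_intervals
      (h.intervalIntegrable φa φq) (h.intervalIntegrable φq φb)]
  have hB : InB (32 * i) (32 * i + 32) 0 360 0 720 360 720 t ((φa - ω) / uu + 360)
      ((φq - ω) / uu + 360) ((φb - ω) / uu + 360) := by
    refine ⟨hi1, hi2, ?_, ?_, ?_, ?_, ?_, ?_⟩
    · have := hdiv (φa - ω) (by linarith)
      push_cast
      linarith
    · have := hneg (φa - ω) (by linarith)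
      push_cast
      linarith
    · have := hdiv (φq - ω) (by linarith)
      push_cast
      linarith
    · have := hdiv' (φq - ω) (by linarith)
      push_cast
      linarith
    · have := hpos (φb - ω) (by linarith)
      push_cast
      linarith
    · have := hdiv' (φb - ω) (by linarith)
      push_cast
      linarith
  have e01 := EF_of (np := K + 1) h hN hH hE1.a hE1.b hq1.le (fun j hj hg' => by
    rcases Nat.lt_succ_iff_lt_or_eq.1 hj with hj | hj
    · exact hprev j hj _ _ _ _ hE1 hg'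
    · subst hj
      exact hK1 hg')
  have e12 := EF_of (np := K + 1) h hN hH hE2.a hE2.b hq2.le (fun j hj hg' => by
    rcases Nat.lt_succ_iff_lt_or_eq.1 hj with hj | hj
    · exact hprev j hj _ _ _ _ hE2 hg'
    · subst hj
      exact hK2 hg')
  have e02 := EF_of (np := K) h hN hH he.a he.b hlt.le (fun j hj hg' =>
    hprev j hj _ _ _ _ he hg')
  rw [← hInt] at e02 ⊢
  have key := chkR_sound (hD i hi) T hT hB (d0 := da) (d1 := dq) (d2 := db)
    (J01 := 10 ^ 6 / uu * ∫ θ in φa..φq, V θ) (J12 := 10 ^ 6 / uu * ∫ θ in φq..φb, V θ)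
    he.a.1 hE1.b.1 he.b.1
    (by rw [hx]; exact le_DD ea.le) (by rw [hx]; exact le_DD eq) (by rw [hx]; exact le_DD eb.le)
    (hmono _ _ hq1.le) (hmono _ _ hq2.le)
    (by rw [hsub]; exact hg) (by rw [hsub]; exact hdiv' _ (by linarith))
    (by rw [hsub]; exact e01) (by rw [hsub]; exact e12) (by rw [hsub]; exact e02)
  rw [hsub] at key
  exact key

end Pool.Agent.Helper58.LD
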