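import Pool.Agent.Helper58.LD.Plane
import Pool.Agent.Helper54.LN.Cfg

/-!
# Project LD (MP_599705_an): the Delaunay step
-/

set_option autoImplicit false

namespace Pool.Agent.Helper58.LD

open Complex Metric Set
open Pool.Agent.Helper54.LN

/-- the point with polar coordinates `d, φ` -/
noncomputable def pol (d φ : ℝ) : ℂ := (d : ℂ) * exp (φ * I)

theorem pol_re (d φ : ℝ) : (pol d φ).re = d * Real.cos φ := by
  rw [pol, Complex.re_ofReal_mul, Complex.exp_ofReal_mul_I_re]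

theorem pol_im (d φ : ℝ) : (pol d φ).im = d * Real.sin φ := by
  rw [pol, Complex.im_ofReal_mul, Complex.exp_ofReal_mul_I_im]

theorem norm_pol {d : ℝ} (hd : 0 ≤ d) (φ : ℝ) : ‖pol d φ‖ = d := by
  rw [pol, norm_mul, Complex.norm_exp_ofReal_mul_I, mul_one, Complex.norm_real,
    Real.norm_of_nonneg hd]

theorem cr_pol (d φ e ψ : ℝ) : cr (pol d φ) (pol e ψ) = d * e * Real.sin (ψ - φ) := by
  simp only [cr, pol_re, pol_im]
  rw [Real.sin_sub]
  ring

theorem dt_pol (d φ e ψ : ℝ) : dt (pol d φ) (pol e ψ) = d * e * Real.cos (ψ - φ) := by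
  simp only [dt, pol_re, pol_im]
  rw [Real.cos_sub]
  ring

theorem dist_pol (d φ e ψ : ℝ) :
    ‖pol d φ - pol e ψ‖ ^ 2 = d ^ 2 + e ^ 2 - 2 * d * e * Real.cos (ψ - φ) := by
  rw [nsq]
  simp only [sub_re, sub_im, pol_re, pol_im]
  rw [Real.cos_sub]
  have h1 := Real.sin_sq_add_cos_sq φ
  have h2 := Real.sin_sq_add_cos_sq ψ
  linear_combination (d ^ 2) * h1 + (e ^ 2) * h2

/-- polar coordinates with a prescribed range of the angle -/
theorem exists_pol {z : ℂ} (φ₀ : ℝ) (h : 0 ≤ cr (pol 1 φ₀) z) :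
    ∃ φ : ℝ, φ₀ ≤ φ ∧ φ ≤ φ₀ + Real.pi ∧ z = pol ‖z‖ φ := by
  set z' : ℂ := z * exp (((-φ₀ : ℝ) : ℂ) * I) with hz'
  have him : z'.im = cr (pol 1 φ₀) z := by
    rw [hz', Complex.mul_im, Complex.exp_ofReal_mul_I_re, Complex.exp_ofReal_mul_I_im,
      Real.cos_neg, Real.sin_neg]
    simp only [cr, pol_re, pol_im]
    ring
  have h0 : 0 ≤ arg z' := Complex.arg_nonneg_iff.2 (by rw [him]; exact h)
  refine ⟨φ₀ + arg z', by linarith, by linarith [Complex.arg_le_pi z'], ?_⟩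
  have hn : ‖z'‖ = ‖z‖ := by
    rw [hz', norm_mul, Complex.norm_exp_ofReal_mul_I, mul_one]
  have h1 := Complex.norm_mul_exp_arg_mul_I z'
  rw [hn] at h1
  have h2 : pol ‖z‖ (φ₀ + arg z') = exp ((φ₀ : ℂ) * I) * ((‖z‖ : ℂ) * exp (arg z' * I)) := by
    rw [pol]
    push_cast
    rw [add_mul, Complex.exp_add]
    ring
  rw [h2, h1, hz']
  have h3 : exp ((φ₀ : ℂ) * I) * exp (((-φ₀ : ℝ) : ℂ) * I) = 1 := by
    rw [← Complex.exp_add]
    push_cast
    rw [show (φ₀ : ℂ) * I + -(φ₀ : ℂ) * I = 0 by ring, Complex.exp_zero]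
  calc z = z * (exp ((φ₀ : ℂ) * I) * exp (((-φ₀ : ℝ) : ℂ) * I)) := by rw [h3, mul_one]
    _ = _ := by ring

/-- an edge: two points of `E` on the boundary of a disc without points of `E` -/
structure Edge (E : Set ℂ) (da φa db φb : ℝ) : Prop where
  a : Pt E da φa
  b : Pt E db φb
  lt : φa < φb
  le : φb ≤ φa + Real.pi
  disc : ∃ c : ℂ, ‖pol da φa - c‖ = ‖pol db φb - c‖ ∧ ∀ p ∈ E, ‖pol da φa - c‖ ≤ ‖p - c‖

theorem lt_one_of_cos {M c d t x : ℝ} (hM : M = 2 - 2 * c) (hc : c < 1) (hd : 1 ≤ d)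
    (h : d ^ 2 + t ^ 2 - 2 * d * t * Real.cos x = M) (ht : 1 ≤ t) : c ≤ Real.cos x := by
  have h1 : 0 ≤ (d - 1) * (1 - c) := mul_nonneg (by linarith) (by linarith)
  have h2 : 0 ≤ (t - 1) * (1 - c) := mul_nonneg (by linarith) (by linarith)
  have h3 : M ≤ d ^ 2 + t ^ 2 - 2 * d * t * c := by
    nlinarith [sq_nonneg (d - t), mul_nonneg (sub_nonneg.2 hd) (sub_nonneg.2 ht)]
  have h4 : 0 < d * t := by positivity
  nlinarith

theorem cos_gap {c x y : ℝ} (hc0 : 0 ≤ c) (hx : c ≤ Real.cos x) (hy : c ≤ Real.cos y) :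
    2 * c ^ 2 - 1 ≤ Real.cos (x + y) := by
  rw [Real.cos_add]
  have h1 := Real.sin_sq_add_cos_sq x
  have h2 := Real.sin_sq_add_cos_sq y
  nlinarith [sq_nonneg (Real.sin x - Real.sin y), mul_le_mul hx hy hc0 (by linarith)]

theorem step {E : Set ℂ} {m' m c₀ : ℝ} (hn : ∀ p ∈ E, 1 ≤ ‖p‖)
    (hcov : ∀ w : ℂ, ∃ p ∈ E, ‖w - p‖ ≤ m') (hfin : ∀ R : ℝ, (E ∩ closedBall 0 R).Finite)
    (hm0 : 0 ≤ m') (hm : m' < m) (hm1 : 1 ≤ m) (hc₀ : m ^ 2 = 2 - 2 * c₀) (hc0 : 0 ≤ c₀)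
    {da φa db φb : ℝ} (h : Edge E da φa db φb)
    (hgap : Real.cos (φb - φa) < 2 * c₀ ^ 2 - 1) :
    ∃ t ω dq φq : ℝ, 0 ≤ t ∧ t < 1 ∧ φa ≤ ω ∧ ω ≤ φb ∧
      da ^ 2 + t ^ 2 - 2 * da * t * Real.cos (φa - ω) = m ^ 2 ∧
      db ^ 2 + t ^ 2 - 2 * db * t * Real.cos (φb - ω) = m ^ 2 ∧
      dq ^ 2 + t ^ 2 - 2 * dq * t * Real.cos (φq - ω) ≤ m ^ 2 ∧
      φa < φq ∧ φq < φb ∧ dq ≤ m + 1 ∧ Edge E da φa dq φq ∧ Edge E dq φq db φb := by
  have hpi := Real.pi_pos
  have hda : 1 ≤ da := h.a.1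
  have hdb : 1 ≤ db := h.b.1
  set a : ℂ := pol da φa with ha
  set b : ℂ := pol db φb with hb
  have haE : a ∈ E := h.a.2
  have hbE : b ∈ E := h.b.2
  have hc1 : c₀ < 1 := by nlinarith
  -- `a ≠ b`
  have hg0 : 0 < φb - φa := by linarith [h.lt]
  have hgpi : φb - φa ≤ Real.pi := by linarith [h.le]
  have hcosg : Real.cos (φb - φa) < 1 := by nlinarith
  have hL2 : ‖b - a‖ ^ 2 = da ^ 2 + db ^ 2 - 2 * da * db * Real.cos (φb - φa) := by
    rw [norm_sub_rev, ha, hb, dist_pol]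
  have hL : 0 < ‖b - a‖ ^ 2 := by
    rw [hL2]
    have h1 : 0 < da * db := by positivity
    nlinarith [sq_nonneg (da - db)]
  have hab : a ≠ b := by
    intro h1
    rw [h1, sub_self, norm_zero] at hL
    norm_num at hL
  -- the sector condition
  have hsec : 0 < cr a b ∨ (cr a b = 0 ∧ dt a b < 0) := by
    rw [ha, hb, cr_pol, dt_pol]
    rcases lt_or_eq_of_le hgpi with h1 | h1
    · left
      have := Real.sin_pos_of_pos_of_lt_pi hg0 h1
      positivity
    · right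
      rw [h1, Real.sin_pi, Real.cos_pi]
      constructor
      · ring
      · have : 0 < da * db := by positivity
        linarith
  have hcr0 : 0 ≤ cr a b := by
    rcases hsec with h1 | h1
    · exact h1.le
    · exact h1.1.ge
  -- the empty disc
  obtain ⟨c, hcab, hcE⟩ := h.disc
  obtain ⟨l₀, rfl⟩ := exists_ctr hab hcab
  have hr0 : ‖a - ctr a b l₀‖ ≤ m' := by
    obtain ⟨p, hp, hpd⟩ := hcov (ctr a b l₀)
    refine le_trans (hcE p hp) ?_
    rwa [norm_sub_rev]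
  have hr0' : (1 / 4 + l₀ ^ 2) * ‖b - a‖ ^ 2 ≤ m' ^ 2 := by
    rw [← rad_ctr]
    exact pow_le_pow_left₀ (norm_nonneg _) hr0 2
  have hmm : m' ^ 2 < m ^ 2 := pow_lt_pow_left₀ hm hm0 (by norm_num)
  -- the centre `w`
  set l : ℝ := √(m ^ 2 / ‖b - a‖ ^ 2 - 1 / 4) with hl
  have hpos : l₀ ^ 2 < m ^ 2 / ‖b - a‖ ^ 2 - 1 / 4 := by
    rw [lt_sub_iff_add_lt, lt_div_iff₀ hL]
    linarith
  have hl0 : l₀ < l := by
    refine lt_of_le_of_lt (le_abs_self _) ?_
    rw [hl]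
    apply Real.lt_sqrt_of_sq_lt
    rw [sq_abs]
    exact hpos
  have hlpos : 0 < l := by
    rw [hl]
    apply Real.sqrt_pos.2
    have := sq_nonneg l₀
    linarith
  have hlsq : (1 / 4 + l ^ 2) * ‖b - a‖ ^ 2 = m ^ 2 := by
    rw [hl, Real.sq_sqrt (by have := sq_nonneg l₀; linarith)]
    rw [show (1 / 4 + (m ^ 2 / ‖b - a‖ ^ 2 - 1 / 4) : ℝ) = m ^ 2 / ‖b - a‖ ^ 2 by ring]
    exact div_mul_cancel₀ _ hL.ne'
  set w : ℂ := ctr a b l with hw
  have haw : ‖a - w‖ ^ 2 = m ^ 2 := by rw [hw, rad_ctr, hlsq]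
  have hbw : ‖b - w‖ ^ 2 = m ^ 2 := by rw [hw, rad_ctr', hlsq]
  have hQ0 : ∀ p ∈ E, 2 * l₀ * sd a b p ≤ Q a b p := by
    intro p hp
    have h1 := pow_ctr a b p l₀
    have h2 := pow_le_pow_left₀ (norm_nonneg _) (hcE p hp) 2
    linarith
  have hswpos : 0 < sd a b w := by
    have h1 : sd a b w = l * ‖b - a‖ ^ 2 := by
      rw [nsq, hw]
      simp only [sd, cr, ctr_re, ctr_im, sub_re, sub_im]
      ring
    rw [h1]
    positivity
  -- the size of `w`
  have hw1 : ‖w‖ < 1 := by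
    by_contra hcon
    push Not at hcon
    obtain ⟨θ, hθ⟩ : ∃ θ : ℝ, w = pol ‖w‖ θ :=
      ⟨arg w, (Complex.norm_mul_exp_arg_mul_I w).symm⟩
    have h1 : da ^ 2 + ‖w‖ ^ 2 - 2 * da * ‖w‖ * Real.cos (θ - φa) = m ^ 2 := by
      rw [← dist_pol, ← hθ]
      exact haw
    have h2 : db ^ 2 + ‖w‖ ^ 2 - 2 * db * ‖w‖ * Real.cos (θ - φb) = m ^ 2 := by
      rw [← dist_pol, ← hθ]
      exact hbw
    have h3 := lt_one_of_cos hc₀ hc1 hda h1 hcon
    have h4 := lt_one_of_cos hc₀ hc1 hdb h2 hcon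
    have h5 : c₀ ≤ Real.cos (φb - θ) := by rwa [← Real.cos_neg, neg_sub]
    have h6 := cos_gap hc0 h3 h5
    rw [show θ - φa + (φb - θ) = φb - φa by ring] at h6
    linarith
  have hwm : ‖w‖ ^ 2 < m ^ 2 := by
    apply pow_lt_pow_left₀ (by linarith) (norm_nonneg _) (by norm_num)
  -- the angle of `w`
  have hcaw : 0 ≤ cr a w := cr_nonneg hcr0 haw hbw hwm hswpos
  have hcwb : 0 ≤ cr w b := by
    have h1 := cr_nonneg (a := (starRingEnd ℂ) b) (b := (starRingEnd ℂ) a)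
      (w := (starRingEnd ℂ) w) (M := m ^ 2)
      (by simp only [cr, conj_re, conj_im] at hcr0 ⊢; linarith)
      (by rw [← map_sub, RCLike.norm_conj]; exact hbw)
      (by rw [← map_sub, RCLike.norm_conj]; exact haw)
      (by rw [RCLike.norm_conj]; exact hwm)
      (by simp only [sd, cr, conj_re, conj_im] at hswpos ⊢; linarith)
    simp only [cr, conj_re, conj_im] at h1 ⊢
    linarith
  have hcr1 : ∀ z : ℂ, cr a z = da * cr (pol 1 φa) z := by
    intro z
    simp only [cr, ha, pol_re, pol_im]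
    ring
  obtain ⟨ω, hω1, hω2, hwω⟩ : ∃ ω : ℝ, φa ≤ ω ∧ ω ≤ φb ∧ w = pol ‖w‖ ω := by
    have h1 : 0 ≤ cr (pol 1 φa) w := by
      have h2 := hcr1 w
      rw [h2] at hcaw
      exact nonneg_of_mul_nonneg_right hcaw (by linarith)
    obtain ⟨ω, h2, h3, h4⟩ := exists_pol φa h1
    rcases le_or_gt ω φb with h5 | h5
    · exact ⟨ω, h2, h5, h4⟩
    · -- then `w = 0`
      have h6 : cr w b = ‖w‖ * db * Real.sin (φb - ω) := by
        conv_lhs => rw [h4]
        rw [hb, cr_pol]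
      have h7 : Real.sin (φb - ω) < 0 := by
        apply Real.sin_neg_of_neg_of_neg_pi_lt
        · linarith
        · linarith
      have h8 : ‖w‖ = 0 := by
        by_contra h9
        have h10 : 0 < ‖w‖ := lt_of_le_of_ne (norm_nonneg _) (Ne.symm h9)
        have h11 : ‖w‖ * db * Real.sin (φb - ω) < 0 := by
          apply mul_neg_of_pos_of_neg _ h7
          positivity
        linarith
      refine ⟨φa, le_refl _, h.lt.le, ?_⟩
      rw [h8, pol, ofReal_zero, zero_mul]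
      exact norm_eq_zero.1 h8
  -- the candidates
  set F : Set ℂ := {p | p ∈ E ∧ 0 < sd a b p ∧ Q a b p - 2 * l * sd a b p < 0} with hF
  have hFsub : F ⊆ E ∩ closedBall 0 (m + 1) := by
    rintro p ⟨hp, -, hp2⟩
    refine ⟨hp, ?_⟩
    rw [mem_closedBall_zero_iff]
    have h1 := pow_ctr a b p l
    rw [← hw, haw] at h1
    have h2 : ‖p - w‖ ^ 2 < m ^ 2 := by linarith
    have h3 : ‖p - w‖ < m := lt_of_pow_lt_pow_left₀ 2 (by linarith) h2
    calc ‖p‖ = ‖(p - w) + w‖ := by rw [sub_add_cancel]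
      _ ≤ ‖p - w‖ + ‖w‖ := norm_add_le _ _
      _ ≤ m + 1 := by linarith
  have hFfin : F.Finite := (hfin (m + 1)).subset hFsub
  have hFne : F.Nonempty := by
    obtain ⟨p, hp, hpd⟩ := hcov w
    have h1 := pow_ctr a b p l
    rw [← hw, haw] at h1
    have h2 : ‖p - w‖ ^ 2 ≤ m' ^ 2 := by
      rw [norm_sub_rev]
      exact pow_le_pow_left₀ (norm_nonneg _) hpd 2
    have h3 := hQ0 p hp
    have h4 : Q a b p - 2 * l * sd a b p < 0 := by linarith
    refine ⟨p, hp, ?_, h4⟩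
    by_contra h5
    push Not at h5
    have h6 : 0 ≤ (l - l₀) * (- sd a b p) := mul_nonneg (by linarith) (by linarith)
    nlinarith
  obtain ⟨q, hqF, hqmin⟩ := hFfin.exists_minimalFor (fun p => Q a b p / sd a b p) F hFne
  obtain ⟨hqE, hsq, hQq⟩ := hqF
  have hmin : ∀ p ∈ F, Q a b q / sd a b q ≤ Q a b p / sd a b p := by
    intro p hp
    rcases le_total (Q a b q / sd a b q) (Q a b p / sd a b p) with h1 | h1
    · exact h1
    · exact hqmin hp h1
  set lq : ℝ := Q a b q / sd a b q / 2 with hlq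
  have hlq1 : 2 * lq * sd a b q = Q a b q := by
    rw [hlq]
    field_simp
  have hlq2 : lq < l := by
    by_contra h1
    push Not at h1
    have h2 : 2 * l * sd a b q ≤ 2 * lq * sd a b q := by
      apply mul_le_mul_of_nonneg_right _ hsq.le
      linarith
    linarith
  have hlq0 : l₀ ≤ lq := by
    by_contra h1
    push Not at h1
    have h2 : 2 * lq * sd a b q < 2 * l₀ * sd a b q := by
      apply mul_lt_mul_of_pos_right _ hsq
      linarith
    have := hQ0 q hqE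
    linarith
  have hempty : ∀ p ∈ E, 2 * lq * sd a b p ≤ Q a b p := by
    intro p hp
    rcases le_or_gt (sd a b p) 0 with h1 | h1
    · have h2 := hQ0 p hp
      have h3 : 0 ≤ (lq - l₀) * (- sd a b p) := mul_nonneg (by linarith) (by linarith)
      nlinarith
    · rcases lt_or_ge (Q a b p - 2 * l * sd a b p) 0 with h2 | h2
      · have h3 := hmin p ⟨hp, h1, h2⟩
        have h4 : 2 * lq ≤ Q a b p / sd a b p := by
          rw [hlq]
          linarith
        rw [le_div_iff₀ h1] at h4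
        exact h4
      · have h3 : 0 ≤ (l - lq) * sd a b p := mul_nonneg (by linarith) h1.le
        nlinarith
  -- the disc through `a, q, b`
  have hda2 : ∀ p, ‖a - ctr a b lq‖ ^ 2 ≤ ‖p - ctr a b lq‖ ^ 2 ↔ 2 * lq * sd a b p ≤ Q a b p := by
    intro p
    have h1 := pow_ctr a b p lq
    constructor
    · intro h2
      linarith
    · intro h2
      linarith
  have hqon : ‖q - ctr a b lq‖ ^ 2 = ‖a - ctr a b lq‖ ^ 2 := by
    have h1 := pow_ctr a b q lq
    linarith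
  have hqon' : ‖q - ctr a b lq‖ = ‖a - ctr a b lq‖ := by
    rw [← Real.sqrt_sq (norm_nonneg (q - ctr a b lq)), hqon, Real.sqrt_sq (norm_nonneg _)]
  have hbon' : ‖b - ctr a b lq‖ = ‖a - ctr a b lq‖ := by
    rw [← Real.sqrt_sq (norm_nonneg (b - ctr a b lq)), rad_ctr', ← rad_ctr,
      Real.sqrt_sq (norm_nonneg _)]
  have hemp' : ∀ p ∈ E, ‖a - ctr a b lq‖ ≤ ‖p - ctr a b lq‖ := by
    intro p hp
    apply le_of_sq_le_sq _ (norm_nonneg _)
    exact (hda2 p).2 (hempty p hp)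
  -- the direction of `q`
  have hqw : ‖q - w‖ ^ 2 < m ^ 2 := by
    have h1 := pow_ctr a b q l
    rw [← hw, haw] at h1
    linarith
  have hdaw : 0 ≤ dt a (a - w) := by
    have h1 : dt a (a - w) = (‖a‖ ^ 2 + ‖a - w‖ ^ 2 - ‖w‖ ^ 2) / 2 := by
      rw [nsq, nsq, nsq]
      simp only [dt, sub_re, sub_im]
      ring
    rw [h1, haw]
    have h2 := sq_nonneg ‖a‖
    linarith
  have hdbw : 0 ≤ dt b (b - w) := by
    have h1 : dt b (b - w) = (‖b‖ ^ 2 + ‖b - w‖ ^ 2 - ‖w‖ ^ 2) / 2 := by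
      rw [nsq, nsq, nsq]
      simp only [dt, sub_re, sub_im]
      ring
    rw [h1, hbw]
    have h2 := sq_nonneg ‖b‖
    linarith
  have hcaq : 0 < cr a q := cr_pos hsec haw hbw hqw hsq hdaw
  have hcqb : 0 < cr q b := by
    have h1 := cr_pos (a := (starRingEnd ℂ) b) (b := (starRingEnd ℂ) a)
      (w := (starRingEnd ℂ) w) (q := (starRingEnd ℂ) q) (M := m ^ 2)
      (by
        rcases hsec with h2 | ⟨h2, h3⟩
        · left
          simp only [cr, conj_re, conj_im] at h2 ⊢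
          linarith
        · right
          simp only [cr, dt, conj_re, conj_im] at h2 h3 ⊢
          constructor <;> linarith)
      (by rw [← map_sub, RCLike.norm_conj]; exact hbw)
      (by rw [← map_sub, RCLike.norm_conj]; exact haw)
      (by rw [← map_sub, RCLike.norm_conj]; exact hqw)
      (by simp only [sd, cr, conj_re, conj_im] at hsq ⊢; linarith)
      (by
        rw [← map_sub]
        simp only [dt, conj_re, conj_im] at hdbw ⊢
        linarith)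
    simp only [cr, conj_re, conj_im] at h1 ⊢
    linarith
  have hq1 : 1 ≤ ‖q‖ := hn q hqE
  obtain ⟨φq, hφ1, hφ2, hqφ⟩ : ∃ φ : ℝ, φa < φ ∧ φ < φb ∧ q = pol ‖q‖ φ := by
    have h1 : 0 < cr (pol 1 φa) q := by
      have h2 := hcr1 q
      rw [h2] at hcaq
      exact (mul_pos_iff_of_pos_left (by linarith)).1 hcaq
    obtain ⟨φ, h2, h3, h4⟩ := exists_pol φa h1.le
    have h5 : cr a q = da * ‖q‖ * Real.sin (φ - φa) := by
      conv_lhs => rw [h4]
      rw [ha, cr_pol]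
    have h6 : cr q b = ‖q‖ * db * Real.sin (φb - φ) := by
      conv_lhs => rw [h4]
      rw [hb, cr_pol]
    refine ⟨φ, ?_, ?_, h4⟩
    · rcases eq_or_lt_of_le h2 with h7 | h7
      · rw [← h7, sub_self, Real.sin_zero, mul_zero] at h5
        linarith
      · exact h7
    · by_contra h7
      push Not at h7
      have h8 : Real.sin (φb - φ) ≤ 0 := by
        apply Real.sin_nonpos_of_nonpos_of_neg_pi_le
        · linarith
        · linarith
      have h9 : ‖q‖ * db * Real.sin (φb - φ) ≤ 0 := by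
        apply mul_nonpos_of_nonneg_of_nonpos _ h8
        positivity
      linarith
  have hqR : ‖q‖ ≤ m + 1 := by
    have := (hFsub ⟨hqE, hsq, hQq⟩).2
    rwa [mem_closedBall_zero_iff] at this
  have hPq : Pt E ‖q‖ φq := ⟨hq1, by rw [← pol, ← hqφ]; exact hqE⟩
  refine ⟨‖w‖, ω, ‖q‖, φq, norm_nonneg _, hw1, hω1, hω2, ?_, ?_, ?_, hφ1, hφ2, hqR, ?_, ?_⟩
  · rw [← haw]
    conv_rhs => rw [hwω, ha]
    rw [dist_pol, ← Real.cos_neg (φa - ω), neg_sub]
  · rw [← hbw]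
    conv_rhs => rw [hwω, hb]
    rw [dist_pol, ← Real.cos_neg (φb - ω), neg_sub]
  · have h1 : ‖q - w‖ ^ 2 = ‖q‖ ^ 2 + ‖w‖ ^ 2 - 2 * ‖q‖ * ‖w‖ * Real.cos (φq - ω) := by
      conv_lhs => rw [hwω, hqφ]
      rw [dist_pol, ← Real.cos_neg (φq - ω), neg_sub]
    rw [← h1]
    exact hqw.le
  · refine ⟨h.a, hPq, hφ1, by linarith, ctr a b lq, ?_, ?_⟩
    · rw [← ha, ← hqφ]
      exact hqon'.symm
    · rw [← ha]
      exact hemp'
  · refine ⟨hPq, h.b, hφ2, by linarith, ctr a b lq, ?_, ?_⟩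
    · rw [← hb, ← hqφ, hqon', hbon']
    · rw [← hqφ, hqon']
      exact hemp'

end Pool.Agent.Helper58.LD
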