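import Pool.Agent.Helper58.LD.TNA

/-!
# Project LD (MP_599705_an), piece LD-TA: tangents
-/

set_option autoImplicit false

namespace Pool.Agent.Helper58.LD

open Complex Metric Set MeasureTheory
open Pool.Agent.Helper91.LC
open Pool.Agent.Helper54.LN (allB allB_iff cosLB cosLB_of expSum expSum_le Tan)

private theorem exp_fiftieth : Real.exp (1 / 50) ≤ 1020201340027 / 10 ^ 12 := by
  have h := (Helper83.LC.exp_bd (1 / 50) (by norm_num) (by norm_num)).2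
  refine le_trans h ?_
  norm_num

private theorem log_abs {a e N y : ℝ} (hN : 0 < N) (h5 : (100 + a) * N ≤ 100 * e)
    (h4 : e ≤ N * y) : 1 + a / 100 ≤ y := by
  have h8 : (100 + a) ≤ 100 * y := by
    by_contra hcon
    push Not at hcon
    have := mul_lt_mul_of_pos_right hcon hN
    nlinarith
  linarith

private theorem log_part {i l : ℕ}
    (h1 : (100 + i) * (10 ^ 140 * Nat.factorial 14) ≤ 100 * expSum l) :
    Real.log (1 + (i : ℝ) / 100) ≤ (l : ℝ) / 10 ^ 10 := by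
  have h4 := expSum_le l
  generalize expSum l = e at h1 h4
  generalize hF : Nat.factorial 14 = F at h1 h4
  have hF0 : (0 : ℝ) < (F : ℝ) := by
    rw [← hF]
    exact_mod_cast Nat.factorial_pos 14
  clear hF
  have h5 : (100 + (i : ℝ)) * (10 ^ 140 * (F : ℝ)) ≤ 100 * (e : ℝ) := by exact_mod_cast h1
  clear h1
  have hi : (0 : ℝ) ≤ (i : ℝ) := Nat.cast_nonneg i
  rw [Real.log_le_iff_le_exp (by linarith)]
  exact log_abs (mul_pos (pow_pos (by norm_num) _) hF0) h5 h4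

private theorem A_abs {i l A : ℝ} (hi : 0 ≤ i)
    (h5 : A * (200 * (100 + i)) + l * (200 * (100 + i)) ≤
      i * 10 ^ 10 * (2 * (100 + i)) + i * 10 ^ 10 * 100) :
    A / 10 ^ 10 ≤ i / 100 - l / 10 ^ 10 + i / (2 * (100 + i)) := by
  have h0 : (0 : ℝ) < 100 + i := by linarith
  rw [← sub_nonneg]
  have h6 : i / 100 - l / 10 ^ 10 + i / (2 * (100 + i)) - A / 10 ^ 10 =
      ((i * 10 ^ 10 * (2 * (100 + i)) + i * 10 ^ 10 * 100) -
        (A * (200 * (100 + i)) + l * (200 * (100 + i)))) / (200 * (100 + i) * 10 ^ 10) := by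
    field_simp
    ring
  rw [h6]
  apply div_nonneg
  · linarith
  · exact mul_nonneg (mul_nonneg (by norm_num) h0.le) (by norm_num)

private theorem A_part {i l A : ℕ}
    (h2 : A * (200 * (100 + i)) + l * (200 * (100 + i)) ≤
      i * 10 ^ 10 * (2 * (100 + i)) + i * 10 ^ 10 * 100) :
    (A : ℝ) / 10 ^ 10 ≤ (i : ℝ) / 100 - (l : ℝ) / 10 ^ 10 + (i : ℝ) / (2 * (100 + (i : ℝ))) := by
  have h5 : (A : ℝ) * (200 * (100 + i)) + l * (200 * (100 + i)) ≤
      i * 10 ^ 10 * (2 * (100 + i)) + i * 10 ^ 10 * 100 := by exact_mod_cast h2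
  exact A_abs (Nat.cast_nonneg i) h5

private theorem B_abs {i B P Q : ℝ} (hi : 0 ≤ i) (hQ : 0 < Q)
    (h5 : i * P * 10 ^ 8 ≤ B * (2 * (100 + i)) * Q) :
    i / (2 * (100 + i)) * (P / Q) ≤ B / 10 ^ 8 := by
  have h0 : (0 : ℝ) < 2 * (100 + i) := by linarith
  rw [div_mul_div_comm, div_le_div_iff₀ (mul_pos h0 hQ) (by norm_num)]
  linarith

private theorem B_part {i B : ℕ}
    (h3 : i * 1020201340027 ^ i * 10 ^ 8 ≤ B * (2 * (100 + i)) * (10 ^ 12) ^ i) :
    (i : ℝ) / (2 * (100 + (i : ℝ))) * (1020201340027 / 10 ^ 12) ^ i ≤ (B : ℝ) / 10 ^ 8 := by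
  have h5 : (i : ℝ) * 1020201340027 ^ i * 10 ^ 8 ≤
      B * (2 * (100 + i)) * (10 ^ 12) ^ i := by exact_mod_cast h3
  rw [div_pow]
  exact B_abs (Nat.cast_nonneg i) (pow_pos (by norm_num) _) h5

private theorem tan_abs {i l A B : ℕ} (hlog : Real.log (1 + (i : ℝ) / 100) ≤ (l : ℝ) / 10 ^ 10)
    (hA : (A : ℝ) / 10 ^ 10 ≤
      (i : ℝ) / 100 - (l : ℝ) / 10 ^ 10 + (i : ℝ) / (2 * (100 + (i : ℝ))))
    (hB : (i : ℝ) / (2 * (100 + (i : ℝ))) * (1020201340027 / 10 ^ 12) ^ i ≤ (B : ℝ) / 10 ^ 8) :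
    Tan ((A : ℝ) / 10 ^ 10) ((B : ℝ) / 10 ^ 8) := by
  refine ⟨div_nonneg (Nat.cast_nonneg _) (by norm_num), ?_⟩
  intro s hs
  have hi : (0 : ℝ) ≤ (i : ℝ) := Nat.cast_nonneg i
  set x : ℝ := (i : ℝ) / 100 with hx
  have hx0 : 0 ≤ x := div_nonneg hi (by norm_num)
  refine le_trans ?_ (Pool.Agent.Helper91.LC.R54Lower.aff_le_psiS hx0 hs)
  unfold aff
  have hexp : Real.exp (2 * x) ≤ (1020201340027 / 10 ^ 12) ^ i := by
    have h4 : 2 * x = i * (1 / 50) := by rw [hx]; ring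
    rw [h4, Real.exp_nat_mul]
    exact pow_le_pow_left₀ (Real.exp_pos _).le exp_fiftieth _
  have h100 : (100 : ℝ) + i ≠ 0 := by linarith
  have h1x : (1 : ℝ) + x ≠ 0 := by linarith
  have hq : x / (2 * (1 + x)) = i / (2 * (100 + i)) := by
    have h7 : (2 : ℝ) * (100 + i) = 100 * (2 * (1 + x)) := by rw [hx]; ring
    have h8 : (i : ℝ) = 100 * x := by rw [hx]; ring
    rw [h7]
    rw [h8]
    rw [mul_div_mul_left _ _ (by norm_num : (100 : ℝ) ≠ 0)]
  have hq0 : 0 ≤ (i : ℝ) / (2 * (100 + i)) := div_nonneg hi (by linarith)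
  have hB2 : x / (2 * (1 + x)) * Real.exp (2 * x) ≤ (B : ℝ) / 10 ^ 8 := by
    rw [hq]
    exact le_trans (mul_le_mul_of_nonneg_left hexp hq0) hB
  have hBs := mul_le_mul_of_nonneg_right hB2 hs.le
  have h9 : x / (2 * (1 + x)) * (1 - Real.exp (2 * x) * s) =
      x / (2 * (1 + x)) - x / (2 * (1 + x)) * Real.exp (2 * x) * s := by ring
  rw [h9]
  rw [← hq] at hA
  linarith

/-- Compare `Pool.Agent.Helper54.LN.tan_of`; `exp (1/50) ≤ 1020201340027 / 10^12`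
(`Pool.Agent.Helper83.LC.exp_bd` or `Real.exp_bound'`). -/
theorem tanC_sound {i l A B : ℕ} (h : tanC i l A B = true) :
    Tan ((A : ℝ) / 10 ^ 10) ((B : ℝ) / 10 ^ 8) := by
  unfold tanC at h
  rw [Bool.and_eq_true, Bool.and_eq_true] at h
  exact tan_abs (log_part (Nat.le_of_ble_eq_true h.1)) (A_part (Nat.le_of_ble_eq_true h.2.1))
    (B_part (Nat.le_of_ble_eq_true h.2.2))

end Pool.Agent.Helper58.LD
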