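import Pool.Agent.Helper58.LD.DF
import Pool.Agent.Helper54.LN.Chk

/-!
# Project LD (MP_599705_an), checks of the table of radii
-/

set_option autoImplicit false

namespace Pool.Agent.Helper58.LD

open Pool.Agent.Helper54.LN (allB allB_iff cosLB cosLB_of cosUB cosUB_of)

/-- entry `n ≤ 360` of the table of upper bounds of `10^8 (1 + cos (n uu))`, 28 bits each -/
def enC (TC n : ℕ) : ℕ := Nat.land (Nat.shiftRight TC (28 * n)) 268435455

/-- check of the table of cosines: `cosUB` for `n ≤ 180` with a lower bound of `n π / 360`,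
`1 - cosLB` of the supplement for `n > 180` with an upper bound of `(360 - n) π / 360`;
`n uu ≥ 314159265 n / (36 * 10^9)`, `(360 - n) uu ≤ 314159266 (360 - n) / (36 * 10^9)` -/
def tcOk (TC : ℕ) : Bool :=
  allB (fun n => bif Nat.ble n 180 then cosUB 36000000000 (314159265 * n) (enC TC n)
    else cosLB 36000000000 (314159266 * (360 - n)) (100000000 - enC TC n)) 361

/-- `D` is an upper bound of `10^5 DD (t/256) x`, if `C` is an upper bound of
`10^8 (1 + cos x)` -/
def dOk (t C D : ℕ) : Bool :=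
  Nat.ble (65536 * 10 ^ 5 * 108180801 + 512 * D * t * C) (1000 * (256 * D + 10 ^ 5 * t) ^ 2)

/-- check of rows `0..32` of the table `TD`, starting at `tb` -/
def tdOk (TC TD tb : ℕ) : Bool :=
  allB (fun j => allB (fun n => dOk (tb + j) (enC TC n)
    (Nat.land (Nat.shiftRight (row TD j) (18 * n)) 262143)) 361) 33

/-- check of the error coefficients at `t ≤ 256`; `S` is a lower bound of
`10^5 √(M - t²/65536)`; `E1 ≥ 10^8 uu²/8 t/256 (1 + t/256/√(..))`,
`E2 ≥ 10^8/(8 * 65536) M/√(..)^3`, where `uu² ≤ 76155 / 10^9` -/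
def teOk (P : Tb) (S t : ℕ) : Bool :=
  Nat.ble (65536 * S ^ 2 + 10 ^ 10 * t ^ 2) (65536 * 100 * 108180801) &&
  (Nat.ble 1 S &&
  (Nat.ble (76155 * t * (256 * S + 10 ^ 5 * t)) (Nat.land (ee P t) 65535 * (80 * 65536 * S)) &&
  Nat.ble (10 ^ 15 * 108180801) (Nat.shiftRight (ee P t) 16 * (8 * 65536 * S ^ 3))))

/-- check of all error coefficients; `TS` contains the numbers `S`, 20 bits each -/
def teAll (P : Tb) (TS : ℕ) : Bool :=
  allB (fun t => teOk P (Nat.land (Nat.shiftRight TS (20 * t)) 1048575) t) 257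

end Pool.Agent.Helper58.LD
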