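import Pool.Agent.Helper58.LD.TDA

/-!
# Project LD (MP_599705_an), piece LD-TD: the table of radii
-/

set_option autoImplicit false

namespace Pool.Agent.Helper58.LD

open Pool.Agent.Helper54.LN (allB allB_iff cosLB cosLB_of cosUB cosUB_of)

theorem tcOk_sound {TC : ℕ} (h : tcOk TC = true) {n : ℕ} (hn : n ≤ 360) :
    10 ^ 8 * (1 + Real.cos (n * uu)) ≤ enC TC n := by
  have h1 := allB_iff.1 h n (by omega)
  have hp1 := Real.pi_gt_d20
  have hp2 := Real.pi_lt_d20
  have hn' : (n : ℝ) ≤ 360 := by exact_mod_cast hn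
  have hn0 : (0 : ℝ) ≤ n := Nat.cast_nonneg n
  by_cases hc : n ≤ 180
  · rw [Nat.ble_eq_true_of_le hc, cond_true] at h1
    have h2 := cosUB_of (by norm_num) h1
    refine le_trans ?_ h2
    have hc' : (n : ℝ) ≤ 180 := by exact_mod_cast hc
    have h3 : ((314159265 * n : ℕ) : ℝ) / ((36000000000 : ℕ) : ℝ) ≤ n * uu := by
      rw [uu, div_le_iff₀ (by norm_num)]
      push_cast
      have h4 : (0 : ℝ) ≤ n * (Real.pi - 3.14159265) := mul_nonneg hn0 (by linarith only [hp1])
      linarith only [h4]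
    have h5 : (n : ℝ) * uu ≤ Real.pi := by
      rw [uu]
      have h6 : (0 : ℝ) ≤ (360 - n) * Real.pi :=
        mul_nonneg (by linarith only [hn']) (by linarith only [hp1])
      linarith only [h6]
    have h7 := Real.cos_le_cos_of_nonneg_of_le_pi (by positivity) h5 h3
    linarith only [h7]
  · have hb : Nat.ble n 180 = false := by
      rw [Bool.eq_false_iff]
      intro h2
      exact hc (Nat.le_of_ble_eq_true h2)
    rw [hb, cond_false] at h1
    have h2 := cosLB_of (by norm_num) h1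
    have hc' : (180 : ℝ) ≤ n := by exact_mod_cast (by omega : 180 ≤ n)
    have h3 : ((360 : ℝ) - n) * uu ≤
        ((314159266 * (360 - n) : ℕ) : ℝ) / ((36000000000 : ℕ) : ℝ) := by
      rw [uu, le_div_iff₀ (by norm_num)]
      push_cast [Nat.cast_sub hn]
      have h4 : (0 : ℝ) ≤ (360 - n) * (3.14159266 - Real.pi) :=
        mul_nonneg (by linarith only [hn']) (by linarith only [hp2])
      linarith only [h4]
    have h5 : ((314159266 * (360 - n) : ℕ) : ℝ) / ((36000000000 : ℕ) : ℝ) ≤ Real.pi := by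
      rw [div_le_iff₀ (by norm_num)]
      push_cast [Nat.cast_sub hn]
      linarith only [hc', hp1]
    have h6 : (0 : ℝ) ≤ (360 - n) * uu := by
      rw [uu]
      exact mul_nonneg (by linarith only [hn']) (by linarith only [hp1])
    have h7 := Real.cos_le_cos_of_nonneg_of_le_pi h6 h5 h3
    have h8 : Real.cos ((360 - n) * uu) = - Real.cos (n * uu) := by
      rw [← Real.cos_pi_sub]
      congr 1
      rw [uu]
      ring
    have h9 : (100000000 : ℝ) - enC TC n ≤ ((100000000 - enC TC n : ℕ) : ℝ) := by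
      have h10 : 100000000 ≤ (100000000 - enC TC n) + enC TC n := by omega
      have h11 : ((100000000 : ℕ) : ℝ) ≤ (((100000000 - enC TC n) + enC TC n : ℕ) : ℝ) := by
        exact_mod_cast h10
      push_cast at h11
      linarith only [h11]
    have h12 := le_trans h2 h7
    rw [h8, div_le_iff₀ (by norm_num)] at h12
    linarith only [h9, h12]

/-- `DD_le` with `y = D / 10^5`: after division by `65536 * 10^13` the check says
`(y + t)² ≥ M + 2 y t (C / 10^8)`. -/
theorem dOk_sound {t C D : ℕ} (h : dOk t C D = true) (ht : t ≤ 256) {x : ℝ}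
    (hC : 10 ^ 8 * (1 + Real.cos x) ≤ C) : 10 ^ 5 * DD ((t : ℝ) / 256) x ≤ D := by
  have h1 := Nat.le_of_ble_eq_true h
  have h2 : (65536 * 10 ^ 5 * 108180801 + 512 * D * t * C : ℝ) ≤
      1000 * (256 * D + 10 ^ 5 * t) ^ 2 := by exact_mod_cast h1
  have ht' : (t : ℝ) ≤ 256 := by exact_mod_cast ht
  have ht0 : (0 : ℝ) ≤ t := Nat.cast_nonneg t
  have hD0 : (0 : ℝ) ≤ D := Nat.cast_nonneg D
  have h3 : DD ((t : ℝ) / 256) x ≤ (D : ℝ) / 10 ^ 5 := by
    refine DD_le (by positivity) ?_ (by positivity) ?_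
    · rw [div_le_one (by norm_num)]
      exact ht'
    · have h4 : 512 * (D : ℝ) * t * (10 ^ 8 * (1 + Real.cos x)) ≤ 512 * D * t * C :=
        mul_le_mul_of_nonneg_left hC (by positivity)
      have h5 : ((D : ℝ) / 10 ^ 5) ^ 2 + ((t : ℝ) / 256) ^ 2 -
          2 * ((D : ℝ) / 10 ^ 5) * ((t : ℝ) / 256) * Real.cos x - 1.0401 ^ 2 =
          (1000 * (256 * (D : ℝ) + 10 ^ 5 * t) ^ 2 - 65536 * 10 ^ 5 * 108180801 -
            512 * D * t * (10 ^ 8 * (1 + Real.cos x))) / (65536 * 10 ^ 13) := by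
        ring
      have h6 : 0 ≤ (1000 * (256 * (D : ℝ) + 10 ^ 5 * t) ^ 2 - 65536 * 10 ^ 5 * 108180801 -
            512 * D * t * (10 ^ 8 * (1 + Real.cos x))) / (65536 * 10 ^ 13) :=
        div_nonneg (by linarith only [h2, h4]) (by norm_num)
      linarith only [h5, h6]
  rw [le_div_iff₀ (by norm_num)] at h3
  linarith only [h3]

private theorem DD_congr {t x y : ℝ} (h : Real.cos x = Real.cos y) : DD t x = DD t y := by
  have h1 : Real.sin x ^ 2 = Real.sin y ^ 2 := by
    rw [Real.sin_sq, Real.sin_sq, h]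
  rw [DD, DD, h, h1]

private theorem fo_le (n : ℕ) : fo n ≤ 360 := by
  unfold fo
  have h1 : Nat.mod (Nat.add n 360) 720 < 720 := Nat.mod_lt _ (by norm_num)
  cases hb : Nat.ble (Nat.mod (Nat.add n 360) 720) 360 with
  | false =>
    have h2 : ¬ Nat.mod (Nat.add n 360) 720 ≤ 360 := fun h => by
      rw [Nat.ble_eq_true_of_le h] at hb
      exact Bool.noConfusion hb
    rw [cond_false]
    change 720 - Nat.mod (Nat.add n 360) 720 ≤ 360
    omega
  | true =>
    rw [cond_true]
    exact Nat.le_of_ble_eq_true hb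

private theorem fo_cos (n : ℕ) :
    Real.cos (uu * ((n : ℝ) - 360)) = Real.cos ((fo n : ℝ) * uu) := by
  obtain ⟨m, hm⟩ : ∃ m, m = Nat.mod (Nat.add n 360) 720 := ⟨_, rfl⟩
  obtain ⟨q, hq⟩ : ∃ q, q = (n + 360) / 720 := ⟨_, rfl⟩
  have h0 : 720 * q + m = n + 360 := by
    rw [hm, hq]
    exact Nat.div_add_mod (n + 360) 720
  have h0' : (720 : ℝ) * q + m = n + 360 := by exact_mod_cast h0
  have h1 : uu * ((n : ℝ) - 360) = m * uu + (((q : ℤ) - 1 : ℤ) : ℝ) * (2 * Real.pi) := by
    rw [uu]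
    push_cast
    linear_combination (-(Real.pi / 360)) * h0'
  have h2 : m < 720 := by
    rw [hm]
    exact Nat.mod_lt _ (by norm_num)
  rw [h1, Real.cos_add_int_mul_two_pi]
  unfold fo
  rw [← hm]
  cases hb : Nat.ble m 360 with
  | false =>
    rw [cond_false]
    have h3 : (((Nat.sub 720 m : ℕ)) : ℝ) = 720 - m := by
      change ((720 - m : ℕ) : ℝ) = 720 - m
      push_cast [Nat.cast_sub h2.le]
      ring
    rw [h3, ← Real.cos_two_pi_sub]
    congr 1
    rw [uu]
    ring
  | true =>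
    rw [cond_true]

/-- For all `n`: `ent r n` is entry `fo n ≤ 360` of the row, and
`DD t (uu * (n - 360)) = DD t (fo n * uu)` because `n - 360 ≡ ± fo n` modulo 720. -/
theorem ent_sound {TC TD tb : ℕ} (hC : tcOk TC = true) (hD : tdOk TC TD tb = true) {t n : ℕ}
    (h0 : tb ≤ t) (h1 : t ≤ tb + 32) (h2 : t ≤ 256) :
    10 ^ 5 * DD ((t : ℝ) / 256) (uu * ((n : ℝ) - 360)) ≤ (ent (row TD (t - tb)) n : ℝ) := by
  have h3 := allB_iff.1 (allB_iff.1 hD (t - tb) (by omega)) (fo n)
    (Nat.lt_succ_of_le (fo_le n))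
  have h4 : tb + (t - tb) = t := by omega
  simp only [h4] at h3
  rw [DD_congr (fo_cos n)]
  exact dOk_sound h3 h2 (tcOk_sound hC (fo_le n))

end Pool.Agent.Helper58.LD
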