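import Pool.Agent.Helper58.LD.TDC

/-!
# Project LD (MP_599705_an), piece LD-TE: the error of the interpolation
-/

set_option autoImplicit false

namespace Pool.Agent.Helper58.LD

open Pool.Agent.Helper54.LN (allB allB_iff cosLB cosLB_of cosUB cosUB_of)

private theorem te_uu : uu ^ 2 ≤ 76155 / 10 ^ 9 := by
  have h1 : Real.pi < 3.1416 := Real.pi_lt_d4
  have h0 : 0 < Real.pi := Real.pi_pos
  unfold uu
  have h2 : Real.pi / 360 ≤ 3.1416 / 360 := by linarith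
  calc (Real.pi / 360) ^ 2 ≤ (3.1416 / 360) ^ 2 := by gcongr
    _ ≤ 76155 / 10 ^ 9 := by norm_num

/-- the lower bound of the root -/
private theorem te_root {s t R : ℝ} (hs : 0 ≤ s)
    (h : 65536 * s ^ 2 + 10 ^ 10 * t ^ 2 ≤ 65536 * 100 * 108180801)
    (hR : R = √(1.0401 ^ 2 - (t / 256) ^ 2)) : s / 10 ^ 5 ≤ R := by
  rw [hR]
  apply Real.le_sqrt_of_sq_le
  have : (s / 10 ^ 5) ^ 2 = s ^ 2 / 10 ^ 10 := by ring
  rw [this]
  have h2 : (t / 256) ^ 2 = t ^ 2 / 65536 := by ring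
  rw [h2]
  nlinarith

private theorem te_first {s t R E : ℝ} (hs : 1 ≤ s) (ht : 0 ≤ t) (hR : s / 10 ^ 5 ≤ R)
    (h : 76155 * t * (256 * s + 10 ^ 5 * t) ≤ E * (80 * 65536 * s)) :
    10 ^ 8 * (uu ^ 2 / 8 * (t / 256 * (1 + t / 256 / R))) ≤ E := by
  have h1 : t / 256 / R ≤ t / 256 / (s / 10 ^ 5) := by
    apply div_le_div_of_nonneg_left (by positivity) (by positivity) hR
  have h2 := te_uu
  have hR0 : 0 < R := lt_of_lt_of_le (by positivity) hR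
  calc 10 ^ 8 * (uu ^ 2 / 8 * (t / 256 * (1 + t / 256 / R)))
      ≤ 10 ^ 8 * ((76155 / 10 ^ 9) / 8 * (t / 256 * (1 + t / 256 / (s / 10 ^ 5)))) := by
        gcongr
    _ = (76155 * t * (256 * s + 10 ^ 5 * t)) / (80 * 65536 * s) := by
        field_simp
        ring
    _ ≤ (E * (80 * 65536 * s)) / (80 * 65536 * s) := by gcongr
    _ = E := by field_simp

private theorem te_second {s R E : ℝ} (hs : 1 ≤ s) (hR : s / 10 ^ 5 ≤ R)
    (h : 10 ^ 15 * 108180801 ≤ E * (8 * 65536 * s ^ 3)) :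
    10 ^ 8 * ((1 / 256) ^ 2 / 8 * (1.0401 ^ 2 / R ^ 3)) ≤ E := by
  have hR0 : 0 < R := lt_of_lt_of_le (by positivity) hR
  have h1 : (1.0401 : ℝ) ^ 2 / R ^ 3 ≤ 1.0401 ^ 2 / (s / 10 ^ 5) ^ 3 := by
    gcongr
  calc 10 ^ 8 * ((1 / 256) ^ 2 / 8 * (1.0401 ^ 2 / R ^ 3))
      ≤ 10 ^ 8 * ((1 / 256) ^ 2 / 8 * (1.0401 ^ 2 / (s / 10 ^ 5) ^ 3)) := by gcongr
    _ = (10 ^ 15 * 108180801) / (8 * 65536 * s ^ 3) := by
        field_simp
        norm_num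
    _ ≤ (E * (8 * 65536 * s ^ 3)) / (8 * 65536 * s ^ 3) := by gcongr
    _ = E := by field_simp

theorem teOk_sound {P : Tb} {S t : ℕ} (h : teOk P S t = true) (ht : t ≤ 256) :
    10 ^ 8 * (uu ^ 2 / 8 * ((t : ℝ) / 256 * (1 + (t : ℝ) / 256 /
      √(1.0401 ^ 2 - ((t : ℝ) / 256) ^ 2)))) ≤ (Nat.land (ee P t) 65535 : ℕ) ∧
    10 ^ 8 * ((1 / 256) ^ 2 / 8 * (1.0401 ^ 2 / √(1.0401 ^ 2 - ((t : ℝ) / 256) ^ 2) ^ 3)) ≤
      (Nat.shiftRight (ee P t) 16 : ℕ) := by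
  unfold teOk at h
  simp only [Bool.and_eq_true, Nat.ble_eq] at h
  obtain ⟨h1, h2, h3, h4⟩ := h
  obtain ⟨E1, hE1⟩ : ∃ E1 : ℕ, E1 = Nat.land (ee P t) 65535 := ⟨_, rfl⟩
  obtain ⟨E2, hE2⟩ : ∃ E2 : ℕ, E2 = Nat.shiftRight (ee P t) 16 := ⟨_, rfl⟩
  rw [← hE1] at h3 ⊢
  rw [← hE2] at h4 ⊢
  have g1 : (65536 : ℝ) * (S : ℝ) ^ 2 + 10 ^ 10 * (t : ℝ) ^ 2 ≤ 65536 * 100 * 108180801 := by
    exact_mod_cast h1
  have g2 : (1 : ℝ) ≤ S := by exact_mod_cast h2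
  have g3 : 76155 * (t : ℝ) * (256 * S + 10 ^ 5 * t) ≤ E1 * (80 * 65536 * S) := by
    exact_mod_cast h3
  have g4 : (10 : ℝ) ^ 15 * 108180801 ≤ E2 * (8 * 65536 * (S : ℝ) ^ 3) := by
    exact_mod_cast h4
  have hR := te_root (by linarith) g1 rfl
  exact ⟨te_first g2 (Nat.cast_nonneg t) hR g3, te_second g2 hR g4⟩

private theorem te_er {a b : ℕ} : ((a : ℝ) + b) / 1000 ≤ (Nat.succ (Nat.div (Nat.add a b) 1000) : ℕ) := by
  have h1 : Nat.add a b < 1000 * (Nat.div (Nat.add a b) 1000) + 1000 := by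
    have h := Nat.div_add_mod (a + b) 1000
    have h2 := Nat.mod_lt (a + b) (show 0 < 1000 by norm_num)
    change a + b < 1000 * ((a + b) / 1000) + 1000
    omega
  have h2 : a + b < 1000 * (Nat.succ (Nat.div (Nat.add a b) 1000)) := by
    rw [Nat.mul_succ]
    exact h1
  have h3 : ((a : ℝ) + b) < 1000 * ((Nat.succ (Nat.div (Nat.add a b) 1000) : ℕ) : ℝ) := by
    exact_mod_cast h2
  linarith

/-- `DD_bilin`, `ent_sound`, `teOk_sound`; the floor of the division by 1000 is compensated by the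
`succ` in `er`. -/
theorem goodD_of {P : Tb} {TC TS TD tb : ℕ} (hC : tcOk TC = true) (hS : teAll P TS = true)
    (hD : tdOk TC TD tb = true) (hb : tb ≤ 224) : GoodD P TD tb := by
  intro t0 t1 lo hi hb0 h01 h1b hlh l k hl0 hl1 hk0 hk1
  have ht1 : t1 ≤ 256 := by omega
  have ht0 : t0 ≤ 256 := by omega
  have hu0 : 0 < uu := by
    unfold uu
    positivity
  have hx : uu * ((lo : ℝ) - 360) ≤ uu * ((hi : ℝ) - 360) := by
    have : (lo : ℝ) ≤ hi := by exact_mod_cast hlh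
    apply mul_le_mul_of_nonneg_left _ hu0.le
    linarith
  have hb1 := DD_bilin (t0 := (t0 : ℝ) / 256) (t1 := (t1 : ℝ) / 256) (x0 := uu * ((lo : ℝ) - 360))
    (x1 := uu * ((hi : ℝ) - 360)) (l := l) (k := k) (by positivity)
    (by
      have : (t0 : ℝ) ≤ t1 := by exact_mod_cast h01
      linarith)
    (by
      have : (t1 : ℝ) ≤ 256 := by exact_mod_cast ht1
      linarith) hx hl0 hl1 hk0 hk1
  have e1 : (1 - l) * ((t0 : ℝ) / 256) + l * ((t1 : ℝ) / 256) = ((1 - l) * t0 + l * t1) / 256 := by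
    ring
  have e2 : (1 - k) * (uu * ((lo : ℝ) - 360)) + k * (uu * ((hi : ℝ) - 360)) =
      uu * ((1 - k) * lo + k * hi - 360) := by
    ring
  rw [e1, e2] at hb1
  have a00 := ent_sound hC hD (n := lo) hb0 (by omega) ht0
  have a01 := ent_sound hC hD (n := hi) hb0 (by omega) ht0
  have a10 := ent_sound hC hD (n := lo) (hb0.trans h01) h1b ht1
  have a11 := ent_sound hC hD (n := hi) (hb0.trans h01) h1b ht1
  obtain ⟨s1, s2⟩ := teOk_sound (allB_iff.1 hS t1 (by omega)) ht1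
  -- the error
  have her : (((hi - lo) * (hi - lo) * Nat.land (ee P t1) 65535 : ℕ) +
      ((t1 - t0) * (t1 - t0) * Nat.shiftRight (ee P t1) 16 : ℕ) : ℝ) / 1000 ≤
      (er P t0 t1 (hi - lo) : ℝ) := te_er
  have hw : ((hi - lo : ℕ) : ℝ) = hi - lo := Nat.cast_sub hlh
  have hv : ((t1 - t0 : ℕ) : ℝ) = t1 - t0 := Nat.cast_sub h01
  have t1' : 10 ^ 5 * ((uu * ((hi : ℝ) - 360) - uu * ((lo : ℝ) - 360)) ^ 2 / 8 *
      ((t1 : ℝ) / 256 * (1 + (t1 : ℝ) / 256 / √(1.0401 ^ 2 - ((t1 : ℝ) / 256) ^ 2)))) ≤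
      (((hi - lo) * (hi - lo) * Nat.land (ee P t1) 65535 : ℕ) : ℝ) / 1000 := by
    rw [Nat.cast_mul, Nat.cast_mul, hw]
    calc 10 ^ 5 * ((uu * ((hi : ℝ) - 360) - uu * ((lo : ℝ) - 360)) ^ 2 / 8 *
      ((t1 : ℝ) / 256 * (1 + (t1 : ℝ) / 256 / √(1.0401 ^ 2 - ((t1 : ℝ) / 256) ^ 2)))) =
        ((hi : ℝ) - lo) * ((hi : ℝ) - lo) * (10 ^ 8 * (uu ^ 2 / 8 * ((t1 : ℝ) / 256 *
          (1 + (t1 : ℝ) / 256 / √(1.0401 ^ 2 - ((t1 : ℝ) / 256) ^ 2))))) / 1000 := by ring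
      _ ≤ _ := by
        apply div_le_div_of_nonneg_right _ (by norm_num)
        exact mul_le_mul_of_nonneg_left s1 (mul_self_nonneg _)
  have t2' : 10 ^ 5 * (((t1 : ℝ) / 256 - (t0 : ℝ) / 256) ^ 2 / 8 *
      (1.0401 ^ 2 / √(1.0401 ^ 2 - ((t1 : ℝ) / 256) ^ 2) ^ 3)) ≤
      (((t1 - t0) * (t1 - t0) * Nat.shiftRight (ee P t1) 16 : ℕ) : ℝ) / 1000 := by
    rw [Nat.cast_mul, Nat.cast_mul, hv]
    calc 10 ^ 5 * (((t1 : ℝ) / 256 - (t0 : ℝ) / 256) ^ 2 / 8 *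
      (1.0401 ^ 2 / √(1.0401 ^ 2 - ((t1 : ℝ) / 256) ^ 2) ^ 3)) =
        ((t1 : ℝ) - t0) * ((t1 : ℝ) - t0) * (10 ^ 8 * ((1 / 256) ^ 2 / 8 *
          (1.0401 ^ 2 / √(1.0401 ^ 2 - ((t1 : ℝ) / 256) ^ 2) ^ 3))) / 1000 := by ring
      _ ≤ _ := by
        apply div_le_div_of_nonneg_right _ (by norm_num)
        exact mul_le_mul_of_nonneg_left s2 (mul_self_nonneg _)
  have hl : 0 ≤ 1 - l := by linarith
  have hk : 0 ≤ 1 - k := by linarith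
  have main : 10 ^ 5 * ((1 - l) * ((1 - k) * DD ((t0 : ℝ) / 256) (uu * ((lo : ℝ) - 360)) +
      k * DD ((t0 : ℝ) / 256) (uu * ((hi : ℝ) - 360))) +
      l * ((1 - k) * DD ((t1 : ℝ) / 256) (uu * ((lo : ℝ) - 360)) +
      k * DD ((t1 : ℝ) / 256) (uu * ((hi : ℝ) - 360)))) ≤
      (1 - l) * ((1 - k) * (ent (row TD (t0 - tb)) lo : ℝ) +
          k * (ent (row TD (t0 - tb)) hi : ℝ)) +
        l * ((1 - k) * (ent (row TD (t1 - tb)) lo : ℝ) +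
          k * (ent (row TD (t1 - tb)) hi : ℝ)) := by
    calc 10 ^ 5 * ((1 - l) * ((1 - k) * DD ((t0 : ℝ) / 256) (uu * ((lo : ℝ) - 360)) +
      k * DD ((t0 : ℝ) / 256) (uu * ((hi : ℝ) - 360))) +
      l * ((1 - k) * DD ((t1 : ℝ) / 256) (uu * ((lo : ℝ) - 360)) +
      k * DD ((t1 : ℝ) / 256) (uu * ((hi : ℝ) - 360)))) =
        (1 - l) * ((1 - k) * (10 ^ 5 * DD ((t0 : ℝ) / 256) (uu * ((lo : ℝ) - 360))) +
          k * (10 ^ 5 * DD ((t0 : ℝ) / 256) (uu * ((hi : ℝ) - 360)))) +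
        l * ((1 - k) * (10 ^ 5 * DD ((t1 : ℝ) / 256) (uu * ((lo : ℝ) - 360))) +
          k * (10 ^ 5 * DD ((t1 : ℝ) / 256) (uu * ((hi : ℝ) - 360)))) := by ring
      _ ≤ _ := by gcongr
  linarith

end Pool.Agent.Helper58.LD
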