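import Pool.Agent.Helper58.LD.Def
import Pool.Agent.Helper54.LN.Chk

/-!
# Project LD (MP_599705_an), checks of the tables of `Hf`
-/

set_option autoImplicit false

namespace Pool.Agent.Helper58.LD

open Complex Metric Set MeasureTheory
open Pool.Agent.Helper91.LC
open Pool.Agent.Helper54.LN (allB allB_iff cosLB cosLB_of expSum expSum_le Tan)

/-- entry `i` of a table with `w` bits per entry -/
def gt (w T i : ℕ) : ℕ := Nat.land (Nat.shiftRight T (w * i)) (2 ^ w - 1)

/-- test of the tangent `s ↦ A / 10^10 - B / 10^8 * s` at `x = i / 100`; `l / 10^10` is an upper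
bound of `log (1 + x)`; compare `Pool.Agent.Helper54.LN.tanB` -/
def tanC (i l A B : ℕ) : Bool :=
  Nat.ble ((100 + i) * (10 ^ 140 * Nat.factorial 14)) (100 * expSum l) &&
  (Nat.ble (A * (200 * (100 + i)) + l * (200 * (100 + i)))
    (i * 10 ^ 10 * (2 * (100 + i)) + i * 10 ^ 10 * 100) &&
  Nat.ble (i * 1020201340027 ^ i * 10 ^ 8) (B * (2 * (100 + i)) * (10 ^ 12) ^ i))

/-- the auxiliary tables: logarithms, `A`, `B` (40 bits), indices of tangents of the cells
(8 bits, entry `88 i + k`), lower bounds of `10^8 (1 - uu²/24) cos ((i + 1/2) uu)` and of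
`10^8 cos (n uu)` (28 bits) -/
structure Ax where
  TL : ℕ
  TA : ℕ
  TB : ℕ
  TI : ℕ
  TM : ℕ
  TK : ℕ

/-- tangents `1..183`; entry `0` is `A = B = 0` -/
def axTan (X : Ax) : Bool :=
  Nat.beq (gt 40 X.TA 0) 0 && (Nat.beq (gt 40 X.TB 0) 0 &&
  allB (fun i => tanC (i + 1) (gt 40 X.TL (i + 1)) (gt 40 X.TA (i + 1)) (gt 40 X.TB (i + 1))) 183)

/-- cosines: `TM i / 10^8 / (1 - uu²/24) ≤ cos ((2i+1) π / 720)`; `1 - uu²/24 ≥ 1 - 3.2 / 10^6`;
angles with `π ≤ 3.14159266` -/
def axCos (X : Ax) : Bool :=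
  allB (fun i => cosLB 72000000000 (314159266 * (2 * i + 1))
    ((gt 28 X.TM i * 10000000) / 9999968 + 1)) 132 &&
  allB (fun n => cosLB 36000000000 (314159266 * n) (gt 28 X.TK n)) 133

/-- cell `(k, i)`: `h ≤ 10^6 (A - B (0.7056 + R²) + 1.68 B R c)` at `R = 1 + k / 100` with the
increment `h` of entry `(k, ·)` of `TN`, and the same at `1 + (k+1) / 100` -/
def axCell (P : Tb) (X : Ax) (k i : ℕ) : Bool :=
  Nat.ble (gt 8 X.TI (88 * i + k)) 183 && (fun A B c =>
    Nat.ble (en P k i) (en P k (i + 1)) && (Nat.ble (en P (k + 1) i) (en P (k + 1) (i + 1)) &&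
    (Nat.ble (10 ^ 14 * (en P k (i + 1) - en P k i) + 10 ^ 8 * B * (7056 + (100 + k) ^ 2))
      (10 ^ 10 * A + 168 * B * (100 + k) * c) &&
    Nat.ble (10 ^ 14 * (en P (k + 1) (i + 1) - en P (k + 1) i) +
        10 ^ 8 * B * (7056 + (101 + k) ^ 2))
      (10 ^ 10 * A + 168 * B * (101 + k) * c))))
  (gt 40 X.TA (gt 8 X.TI (88 * i + k))) (gt 40 X.TB (gt 8 X.TI (88 * i + k))) (gt 28 X.TM i)

/-- value `(c, n)` of `TH` -/
def axVal (P : Tb) (X : Ax) (c n : ℕ) : Bool :=
  Nat.beq (hh P c n) 0 ||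
  (Nat.ble (gt 8 X.TI (88 * n + c)) 183 && (fun A B q =>
    Nat.ble (10 ^ 14 * hh P c n + 10 ^ 8 * B * (7056 + (100 + c) ^ 2))
      (10 ^ 10 * A + 168 * B * (100 + c) * q))
  (gt 40 X.TA (gt 8 X.TI (88 * n + c))) (gt 40 X.TB (gt 8 X.TI (88 * n + c))) (gt 28 X.TK n))

/-- column `s`: the second entries of the pairs are the first entries of the next pair, the column
is decreasing and convex, and ends with `0` -/
def axCol (P : Tb) (s : ℕ) : Bool :=
  Nat.beq (en P 85 s) 0 &&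
  (allB (fun k => Nat.beq (Nat.shiftRight (pr P k s) 25) (en P (k + 1) s) &&
    Nat.ble (en P (k + 1) s) (en P k s)) 85 &&
  allB (fun k => Nat.ble (2 * en P (k + 1) s) (en P k s + en P (k + 2) s)) 84)

/-- column `0` is zero -/
def axZero (P : Tb) : Bool := allB (fun k => Nat.beq (en P k 0) 0) 86

/-- all checks, except the cells and values -/
def axAll (P : Tb) (X : Ax) : Bool :=
  axTan X && (axCos X && (axZero P && allB (fun s => axCol P s) 133))

end Pool.Agent.Helper58.LD
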