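import Pool.Agent.Helper58.LD.TAN

/-!
# Project LD (MP_599705_an), piece LD-TC: one cell of the table of `Hf`
-/

set_option autoImplicit false

namespace Pool.Agent.Helper58.LD

open Complex Metric Set MeasureTheory
open Pool.Agent.Helper91.LC
open Pool.Agent.Helper54.LN (allB allB_iff cosLB cosLB_of expSum expSum_le Tan)

/-- all tangents of the tables -/
private theorem tc_tan {P : Tb} {X : Ax} (h : axAll P X = true) {t : ℕ} (ht : t ≤ 183) :
    Tan ((gt 40 X.TA t : ℝ) / 10 ^ 10) ((gt 40 X.TB t : ℝ) / 10 ^ 8) := by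
  unfold axAll at h
  rw [Bool.and_eq_true] at h
  have h1 := h.1
  unfold axTan at h1
  rw [Bool.and_eq_true, Bool.and_eq_true, allB_iff] at h1
  obtain ⟨hA, hB, hT⟩ := h1
  rcases Nat.eq_zero_or_pos t with h0 | h0
  · rw [h0, Nat.eq_of_beq_eq_true hA, Nat.eq_of_beq_eq_true hB]
    refine ⟨by simp, ?_⟩
    intro s hs
    simpa using Pool.Agent.Helper91.LC.R54Lower.psiS_nonneg s hs
  · have h2 := hT (t - 1) (by omega)
    have h3 : t - 1 + 1 = t := by omega
    rw [h3] at h2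
    exact tanC_sound h2

private theorem tc_uu : 0 < uu ∧ uu ≤ 1 ∧ uu ^ 2 / 24 ≤ 3.2 / 10 ^ 6 := by
  unfold uu
  have h1 := Real.pi_pos
  have h2 := Real.pi_lt_d6
  refine ⟨by positivity, by linarith, ?_⟩
  have h3 : Real.pi / 360 ≤ 0.00872665 := by linarith
  have h4 : 0 ≤ Real.pi / 360 := by positivity
  nlinarith

private theorem tc_ang {i : ℝ} (hi0 : 0 ≤ i) :
    i * uu + uu / 2 ≤ 314159266 * (2 * i + 1) / 72000000000 := by
  have h4 : i * uu + uu / 2 = Real.pi * (2 * i + 1) / 720 := by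
    unfold uu
    ring
  have h7 : Real.pi ≤ 3.14159266 := by
    have := Real.pi_lt_d20
    linarith
  have h8 : Real.pi * (2 * i + 1) ≤ 3.14159266 * (2 * i + 1) :=
    mul_le_mul_of_nonneg_right h7 (by linarith)
  rw [h4]
  linarith

private theorem tc_pi {i : ℝ} (hi : i ≤ 131) :
    314159266 * (2 * i + 1) / 72000000000 ≤ Real.pi := by
  have h5 := Real.pi_gt_three
  linarith

private theorem tc_div (G : ℕ) : (G : ℝ) * 10000000 / 9999968 ≤
    ((G * 10000000 / 9999968 + 1 : ℕ) : ℝ) := by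
  have h7 : G * 10000000 ≤ (G * 10000000 / 9999968 + 1) * 9999968 := by
    have h9 := Nat.div_add_mod (G * 10000000) 9999968
    have h8 := Nat.mod_lt (G * 10000000) (show 9999968 > 0 by norm_num)
    omega
  rw [div_le_iff₀ (by norm_num)]
  exact_mod_cast h7

private theorem tc_cos {P : Tb} {X : Ax} (h : axAll P X = true) {i : ℕ} (hi : i < 132) :
    (gt 28 X.TM i : ℝ) / 10 ^ 8 ≤ (1 - uu ^ 2 / 24) * Real.cos (i * uu + uu / 2) ∧
      0 ≤ Real.cos (i * uu + uu / 2) := by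
  unfold axAll at h
  rw [Bool.and_eq_true, Bool.and_eq_true] at h
  have h1 := h.2.1
  unfold axCos at h1
  rw [Bool.and_eq_true, allB_iff] at h1
  have h2 := cosLB_of (by norm_num) (h1.1 i hi)
  clear h h1
  generalize gt 28 X.TM i = G at h2 ⊢
  obtain ⟨hu0, hu1, hu2⟩ := tc_uu
  have hi' : (i : ℝ) ≤ 131 := by
    have : i ≤ 131 := by omega
    exact_mod_cast this
  have hi0 : (0 : ℝ) ≤ i := by positivity
  have h4 : Real.cos (((314159266 * (2 * i + 1) : ℕ) : ℝ) / ((72000000000 : ℕ) : ℝ)) ≤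
      Real.cos (i * uu + uu / 2) := by
    have e : ((314159266 * (2 * i + 1) : ℕ) : ℝ) / ((72000000000 : ℕ) : ℝ) =
        314159266 * (2 * (i : ℝ) + 1) / 72000000000 := by
      push_cast
      ring
    rw [e]
    exact Real.cos_le_cos_of_nonneg_of_le_pi (by positivity) (tc_pi hi') (tc_ang hi0)
  have h5 := h2.trans h4
  clear h2 h4
  have h6 := tc_div G
  have hc0 : 0 ≤ Real.cos (i * uu + uu / 2) := by
    refine le_trans ?_ h5
    positivity
  refine ⟨?_, hc0⟩
  have h7 : ((G : ℝ) * 10000000) / 9999968 / 10 ^ 8 ≤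
      Real.cos (i * uu + uu / 2) :=
    le_trans (div_le_div_of_nonneg_right h6 (by norm_num)) h5
  have h8 : (G : ℝ) / 10 ^ 8 ≤ 0.9999968 * Real.cos (i * uu + uu / 2) := by
    linarith
  refine h8.trans (mul_le_mul_of_nonneg_right ?_ hc0)
  linarith

private theorem tc_int {d a b : ℝ} (hd : 1 ≤ d) (ha : 0 ≤ a) (hab : a ≤ b) (hb : b ≤ Real.pi) :
    IntervalIntegrable (Hf d) volume a b := by
  apply AntitoneOn.intervalIntegrable
  rw [uIcc_of_le hab]
  intro x hx y hy hxy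
  unfold Hf
  apply Pool.Agent.Helper91.LC.R54Lower.psiS_anti (Pool.Agent.Helper54.LN.sq_pos84 hd)
  have h1 : Real.cos y ≤ Real.cos x :=
    Real.cos_le_cos_of_nonneg_of_le_pi (ha.trans hx.1) (hy.2.trans hb) hxy
  have h2 : 1.68 * d * Real.cos y ≤ 1.68 * d * Real.cos x :=
    mul_le_mul_of_nonneg_left h1 (by linarith)
  linarith

/-- one cell, real form -/
private theorem tc_cell {d A B a u c : ℝ} (hd : 1 ≤ d) (hT : Tan A B) (ha : 0 ≤ a) (hu : 0 ≤ u)
    (hu1 : u ≤ 1) (hau : a + u ≤ Real.pi) (hc : c ≤ (1 - u ^ 2 / 24) * Real.cos (a + u / 2))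
    (hc0 : 0 ≤ Real.cos (a + u / 2)) :
    u * (A - B * (0.7056 + d ^ 2) + 1.68 * B * d * c) ≤ ∫ x in a..(a + u), Hf d x := by
  have h1 : ∫ x in a..(a + u), (A - B * (0.7056 + d ^ 2) + 1.68 * B * d * Real.cos x) ≤
      ∫ x in a..(a + u), Hf d x := by
    refine intervalIntegral.integral_mono_on (by linarith) ?_ (tc_int hd ha (by linarith) hau) ?_
    · refine Continuous.intervalIntegrable ?_ _ _
      fun_prop
    · intro x _
      have h2 := hT.2 _ (Pool.Agent.Helper54.LN.sq_pos84 (x := x) hd)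
      unfold Hf
      linarith
  refine le_trans ?_ h1
  rw [intervalIntegral.integral_add (by simp)
    (by refine Continuous.intervalIntegrable ?_ _ _; fun_prop),
    intervalIntegral.integral_const, intervalIntegral.integral_const_mul, integral_cos,
    smul_eq_mul]
  have h3 : Real.sin (a + u) - Real.sin a = 2 * Real.sin (u / 2) * Real.cos (a + u / 2) := by
    rw [Real.sin_sub_sin]
    congr 2
    · congr 1; ring
    · ring
  have h4 : u / 2 - (u / 2) ^ 3 / 6 ≤ Real.sin (u / 2) := Real.sin_ge_sub_cube (by linarith)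
  have h6 : u * c ≤ Real.sin (a + u) - Real.sin a := by
    rw [h3]
    calc u * c ≤ u * ((1 - u ^ 2 / 24) * Real.cos (a + u / 2)) :=
          mul_le_mul_of_nonneg_left hc hu
      _ = 2 * (u / 2 - (u / 2) ^ 3 / 6) * Real.cos (a + u / 2) := by ring
      _ ≤ 2 * Real.sin (u / 2) * Real.cos (a + u / 2) := by
        apply mul_le_mul_of_nonneg_right _ hc0
        linarith
  have h7 : 0 ≤ 1.68 * B * d := by
    have := hT.1
    positivity
  have h8 := mul_le_mul_of_nonneg_left h6 h7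
  have h9 : a + u - a = u := by ring
  rw [h9]
  nlinarith

/-- One cell. For `d ∈ [R_k, R_{k+1}]` the function
`q(d) = A - B (0.7056 + d²) + 1.68 B d c` is concave, so it is above its chord, and
`∫_{iu}^{(i+1)u} Hf d ≥ u q(d)` because `psiS s ≥ A - B s` and
`∫_{iu}^{(i+1)u} cos = 2 sin (u/2) cos ((i + 1/2) u) ≥ u (1 - u²/24) cos ((i + 1/2) u)`
(compare `Pool.Agent.Helper54.LN.cell_right`). -/
theorem axCell_sound {P : Tb} {X : Ax} (h : axAll P X = true) {k i : ℕ} (hk : k ≤ 84)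
    (hi : i < 132) (hc : axCell P X k i = true) {d l : ℝ} (hl0 : 0 ≤ l) (hl1 : l ≤ 1)
    (hd : d = 1 + (k + l) / 100) :
    (1 - l) * ((en P k (i + 1) : ℝ) - en P k i) + l * ((en P (k + 1) (i + 1) : ℝ) -
      en P (k + 1) i) ≤ 10 ^ 6 / uu * ∫ x in (i * uu)..((i + 1) * uu), Hf d x := by
  unfold axCell at hc
  rw [Bool.and_eq_true] at hc
  obtain ⟨hc0, hc⟩ := hc
  have ht := Nat.le_of_ble_eq_true hc0
  have hT := tc_tan h ht
  generalize gt 40 X.TA (gt 8 X.TI (88 * i + k)) = A at hc hT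
  generalize gt 40 X.TB (gt 8 X.TI (88 * i + k)) = B at hc hT
  obtain ⟨hcos, hcos0⟩ := tc_cos h hi
  generalize gt 28 X.TM i = c at hc hcos
  simp only [Bool.and_eq_true] at hc
  obtain ⟨g1, g2, g3, g4⟩ := hc
  have g1 := Nat.le_of_ble_eq_true g1
  have g2 := Nat.le_of_ble_eq_true g2
  have g3 := Nat.le_of_ble_eq_true g3
  have g4 := Nat.le_of_ble_eq_true g4
  obtain ⟨hu0, hu1, hu2⟩ := tc_uu
  have e3 : (10 : ℝ) ^ 14 * ((en P k (i + 1) : ℝ) - en P k i) +
      10 ^ 8 * B * (7056 + (100 + k) ^ 2) ≤ 10 ^ 10 * A + 168 * B * (100 + k) * c := by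
    rw [← Nat.cast_sub g1]
    exact_mod_cast g3
  have e4 : (10 : ℝ) ^ 14 * ((en P (k + 1) (i + 1) : ℝ) - en P (k + 1) i) +
      10 ^ 8 * B * (7056 + (101 + k) ^ 2) ≤ 10 ^ 10 * A + 168 * B * (101 + k) * c := by
    rw [← Nat.cast_sub g2]
    exact_mod_cast g4
  have hk0 : (0 : ℝ) ≤ k := by positivity
  have hd1 : 1 ≤ d := by
    rw [hd]
    have : (0 : ℝ) ≤ (k + l) / 100 := by positivity
    linarith
  have hpi : i * uu + uu ≤ Real.pi := by
    have hi' : (i : ℝ) ≤ 131 := by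
      have : i ≤ 131 := by omega
      exact_mod_cast this
    have h5 : (i : ℝ) * uu ≤ 131 * uu := mul_le_mul_of_nonneg_right hi' hu0.le
    have h6 : uu = Real.pi / 360 := rfl
    have h7 := Real.pi_pos
    linarith
  have h1 := tc_cell hd1 hT (a := i * uu) (by positivity) hu0.le hu1 hpi hcos hcos0
  have h2 : ((i : ℝ) + 1) * uu = i * uu + uu := by ring
  rw [h2]
  have h3 : (10 : ℝ) ^ 6 * ((A : ℝ) / 10 ^ 10 - (B : ℝ) / 10 ^ 8 * (0.7056 + d ^ 2) +
      1.68 * ((B : ℝ) / 10 ^ 8) * d * ((c : ℝ) / 10 ^ 8)) ≤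
      10 ^ 6 / uu * ∫ x in (i * uu)..(i * uu + uu), Hf d x := by
    have h4 := mul_le_mul_of_nonneg_left h1 (by positivity : (0 : ℝ) ≤ 10 ^ 6 / uu)
    refine le_trans (le_of_eq ?_) h4
    field_simp
  refine le_trans ?_ h3
  have hB : (0 : ℝ) ≤ B := by positivity
  have h5 : 0 ≤ l * (1 - l) := mul_nonneg hl0 (by linarith)
  have h6 : 0 ≤ (B : ℝ) * (l * (1 - l)) := mul_nonneg hB h5
  have e3' := mul_le_mul_of_nonneg_left e3 (by linarith : (0 : ℝ) ≤ 1 - l)
  have e4' := mul_le_mul_of_nonneg_left e4 hl0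
  rw [hd]
  nlinarith [e3', e4', h6]

end Pool.Agent.Helper58.LD
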