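import Pool.Agent.Helper58.LD.TNC
import Pool.Agent.Helper58.LD.EFL

/-!
# Project LD (MP_599705_an), piece LD-TG: the tables of `Hf`
-/

set_option autoImplicit false

namespace Pool.Agent.Helper58.LD

open Complex Metric Set MeasureTheory
open Pool.Agent.Helper91.LC
open Pool.Agent.Helper54.LN (allB allB_iff cosLB cosLB_of expSum expSum_le Tan)

private theorem ax_parts {P : Tb} {X : Ax} (h : axAll P X = true) :
    axTan X = true ∧ axCos X = true ∧ axZero P = true ∧
      allB (fun s => axCol P s) 133 = true := by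
  unfold axAll at h
  simp only [Bool.and_eq_true] at h
  exact ⟨h.1, h.2.1, h.2.2.1, h.2.2.2⟩

private theorem uu_pos : 0 < uu := by
  unfold uu
  have := Real.pi_pos
  positivity

private theorem uu_le {s : ℕ} (hs : s ≤ 132) : (s : ℝ) * uu ≤ Real.pi := by
  have h1 : (s : ℝ) ≤ 132 := by exact_mod_cast hs
  have h2 := Real.pi_pos
  unfold uu
  nlinarith

private theorem Hf_int {d a b : ℝ} (hd : 1 ≤ d) (ha : 0 ≤ a) (hab : a ≤ b)
    (hb : b ≤ Real.pi) : IntervalIntegrable (fun x => Hf d x) volume a b := by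
  apply AntitoneOn.intervalIntegrable
  intro x hx y hy hxy
  rw [Set.uIcc_of_le hab] at hx hy
  exact Hf_anti hd le_rfl (ha.trans hx.1) hxy (hy.2.trans hb)

private theorem Hf_int_nonneg {d a b : ℝ} (hd : 1 ≤ d) (hab : a ≤ b) :
    0 ≤ ∫ x in a..b, Hf d x :=
  intervalIntegral.integral_nonneg hab fun _ _ => Hf_nonneg hd

private theorem int_cells {P : Tb} {X : Ax} (h : axAll P X = true)
    (hc : ∀ k i : ℕ, k ≤ 84 → i < 132 → axCell P X k i = true) {k : ℕ} (hk : k ≤ 84)
    {d l : ℝ} (hl0 : 0 ≤ l) (hl1 : l ≤ 1) (hd : d = 1 + (k + l) / 100) (s : ℕ) (hs : s ≤ 132) :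
    (1 - l) * (en P k s : ℝ) + l * (en P (k + 1) s : ℝ) ≤
      10 ^ 6 / uu * ∫ x in (0 : ℝ)..(s * uu), Hf d x := by
  have hd1 : 1 ≤ d := by
    rw [hd]
    have : (0 : ℝ) ≤ (k : ℝ) := Nat.cast_nonneg k
    have h2 : (0 : ℝ) ≤ ((k : ℝ) + l) / 100 := by positivity
    linarith
  induction s with
  | zero =>
    have hz := allB_iff.1 (ax_parts h).2.2.1
    have h1 : en P k 0 = 0 := by
      have := hz k (by omega)
      exact Nat.eq_of_beq_eq_true this
    have h2 : en P (k + 1) 0 = 0 := by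
      have := hz (k + 1) (by omega)
      exact Nat.eq_of_beq_eq_true this
    rw [h1, h2]
    simp
  | succ s ih =>
    have ih' := ih (by omega)
    have hcell := axCell_sound h hk (by omega : s < 132) (hc k s hk (by omega)) hl0 hl1 hd
    have hu := uu_pos
    have hs1 : ((s + 1 : ℕ) : ℝ) * uu = ((s : ℝ) + 1) * uu := by push_cast; ring
    have hle := uu_le hs
    rw [hs1] at hle ⊢
    have hle0 : (0 : ℝ) ≤ (s : ℝ) * uu := by positivity
    have hle1 : (s : ℝ) * uu ≤ ((s : ℝ) + 1) * uu := by nlinarith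
    have hadd : ∫ x in (0 : ℝ)..(((s : ℝ) + 1) * uu), Hf d x =
        (∫ x in (0 : ℝ)..((s : ℝ) * uu), Hf d x) +
          ∫ x in ((s : ℝ) * uu)..(((s : ℝ) + 1) * uu), Hf d x := by
      rw [intervalIntegral.integral_add_adjacent_intervals]
      · exact Hf_int hd1 le_rfl hle0 (hle1.trans hle)
      · exact Hf_int hd1 hle0 hle1 hle
    rw [hadd, mul_add]
    linarith

private theorem col {P : Tb} {X : Ax} (h : axAll P X = true) {s : ℕ} (hs : s ≤ 132) :
    en P 85 s = 0 ∧ (∀ k < 85, Nat.shiftRight (pr P k s) 25 = en P (k + 1) s ∧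
      en P (k + 1) s ≤ en P k s) ∧
      ∀ k < 84, 2 * en P (k + 1) s ≤ en P k s + en P (k + 2) s := by
  have h1 := allB_iff.1 (ax_parts h).2.2.2 s (by omega)
  unfold axCol at h1
  simp only [Bool.and_eq_true] at h1
  obtain ⟨h2, h3, h4⟩ := h1
  refine ⟨Nat.eq_of_beq_eq_true h2, fun k hk => ?_, fun k hk => ?_⟩
  · have h5 := allB_iff.1 h3 k hk
    simp only [Bool.and_eq_true] at h5
    exact ⟨Nat.eq_of_beq_eq_true h5.1, Nat.le_of_ble_eq_true h5.2⟩
  · exact Nat.le_of_ble_eq_true (allB_iff.1 h4 k hk)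

/-- a line through two neighbours is below a convex sequence -/
private theorem convex_line {a : ℕ → ℝ}
    (h2 : ∀ k < 84, 2 * a (k + 1) ≤ a k + a (k + 2)) {k : ℕ} (hk : k ≤ 84) :
    ∀ m : ℕ, m ≤ 85 → a k - (a k - a (k + 1)) * ((m : ℝ) - k) ≤ a m := by
  have hD : ∀ i j : ℕ, i ≤ j → j ≤ 84 → a j - a (j + 1) ≤ a i - a (i + 1) := by
    intro i j hij
    induction j, hij using Nat.le_induction with
    | base => intro _; exact le_rfl
    | succ j hij ih =>
      intro hj
      have h3 := ih (by omega)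
      have h4 := h2 j (by omega)
      have e : j + 1 + 1 = j + 2 := rfl
      rw [e]
      linarith
  have hup : ∀ j : ℕ, k + j ≤ 85 → a k - (a k - a (k + 1)) * (j : ℝ) ≤ a (k + j) := by
    intro j
    induction j with
    | zero => intro _; simp
    | succ j ih =>
      intro hj
      have h3 := ih (by omega)
      have h4 := hD k (k + j) (by omega) (by omega)
      have e : k + (j + 1) = k + j + 1 := by omega
      rw [e]
      push_cast
      linarith
  have hdown : ∀ j : ℕ, j ≤ k → a k + (a k - a (k + 1)) * (j : ℝ) ≤ a (k - j) := by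
    intro j
    induction j with
    | zero => intro _; simp
    | succ j ih =>
      intro hj
      have h3 := ih (by omega)
      have h4 := hD (k - (j + 1)) k (by omega) hk
      have e : k - (j + 1) + 1 = k - j := by omega
      rw [e] at h4
      push_cast
      linarith
  intro m hm
  rcases le_total k m with hkm | hkm
  · have h3 := hup (m - k) (by omega)
    have e : k + (m - k) = m := by omega
    rw [e] at h3
    have e2 : ((m - k : ℕ) : ℝ) = (m : ℝ) - k := by
      rw [Nat.cast_sub hkm]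
    rw [e2] at h3
    exact h3
  · have h3 := hdown (k - m) (by omega)
    have e : k - (k - m) = m := by omega
    rw [e] at h3
    have e2 : ((k - m : ℕ) : ℝ) = (k : ℝ) - m := by
      rw [Nat.cast_sub hkm]
    rw [e2] at h3
    linarith

/-- Summation over the cells; a line `Ln P k s` is below the chord of entries `(j, s)`,
`(j + 1, s)` on `[R_j, R_{j+1}]` because the column is convex; for `d ≥ 1.85` the line is `≤ 0`
because it is decreasing and `≤ 0` at `1.85`, and `Hf ≥ 0`. -/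
theorem goodN_of {P : Tb} {X : Ax} (h : axAll P X = true)
    (hc : ∀ k i : ℕ, k ≤ 84 → i < 132 → axCell P X k i = true) : GoodN P := by
  intro k s hk hs d hd
  obtain ⟨hc0, hc1, hc2⟩ := col h hs
  have hde : (de P k s : ℝ) = (en P k s : ℝ) - (en P (k + 1) s : ℝ) := by
    have h1 := hc1 k (by omega)
    unfold de
    rw [h1.1]
    exact Nat.cast_sub h1.2
  have hde0 : (0 : ℝ) ≤ (en P k s : ℝ) - (en P (k + 1) s : ℝ) := by
    rw [← hde]; exact Nat.cast_nonneg _
  have hline := convex_line (a := fun m => (en P m s : ℝ)) (fun m hm => by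
    have := hc2 m hm
    exact_mod_cast this) hk
  have hLn : Ln P k s d = (en P k s : ℝ) - ((en P k s : ℝ) - (en P (k + 1) s : ℝ)) *
      (100 * (d - 1) - k) := by
    unfold Ln
    rw [hde]
    ring
  rw [hLn]
  have hu := uu_pos
  have hint : 0 ≤ 10 ^ 6 / uu * ∫ x in (0 : ℝ)..(s * uu), Hf d x := by
    have h1 : (0 : ℝ) ≤ (s : ℝ) * uu := by positivity
    have h2 := Hf_int_nonneg hd h1
    positivity
  by_cases hy : 100 * (d - 1) < 85
  · have hy0 : 0 ≤ 100 * (d - 1) := by linarith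
    set j : ℕ := ⌊100 * (d - 1)⌋₊ with hj
    have hj1 : (j : ℝ) ≤ 100 * (d - 1) := Nat.floor_le hy0
    have hj2 : 100 * (d - 1) < (j : ℝ) + 1 := Nat.lt_floor_add_one _
    have hj3 : j ≤ 84 := by
      have : (j : ℝ) < 85 := by linarith
      have : j < 85 := by exact_mod_cast this
      omega
    have hcell := int_cells h hc hj3 (d := d) (l := 100 * (d - 1) - j) (by linarith)
      (by linarith) (by ring) s hs
    refine le_trans ?_ hcell
    have h1 := hline j (by omega)
    have h2 := hline (j + 1) (by omega)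
    push_cast at h2
    have h3 : (1 - (100 * (d - 1) - j)) * ((en P k s : ℝ) -
        ((en P k s : ℝ) - (en P (k + 1) s : ℝ)) * ((j : ℝ) - k)) ≤
        (1 - (100 * (d - 1) - j)) * (en P j s : ℝ) :=
      mul_le_mul_of_nonneg_left h1 (by linarith)
    have h4 : (100 * (d - 1) - j) * ((en P k s : ℝ) -
        ((en P k s : ℝ) - (en P (k + 1) s : ℝ)) * ((j : ℝ) + 1 - k)) ≤
        (100 * (d - 1) - j) * (en P (j + 1) s : ℝ) :=
      mul_le_mul_of_nonneg_left h2 (by linarith)
    refine le_trans (le_of_eq ?_) (add_le_add h3 h4)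
    ring
  · refine le_trans ?_ hint
    have h1 := hline 85 le_rfl
    rw [hc0] at h1
    push_cast at h1
    have h2 : ((en P k s : ℝ) - (en P (k + 1) s : ℝ)) * (85 - k) ≤
        ((en P k s : ℝ) - (en P (k + 1) s : ℝ)) * (100 * (d - 1) - k) :=
      mul_le_mul_of_nonneg_left (by linarith [not_lt.1 hy]) hde0
    linarith

private theorem tan_idx {P : Tb} {X : Ax} (h : axAll P X = true) {i : ℕ} (hi : i ≤ 183) :
    Tan ((gt 40 X.TA i : ℝ) / 10 ^ 10) ((gt 40 X.TB i : ℝ) / 10 ^ 8) := by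
  have h1 := (ax_parts h).1
  unfold axTan at h1
  simp only [Bool.and_eq_true] at h1
  obtain ⟨h2, h3, h4⟩ := h1
  rcases Nat.eq_zero_or_pos i with h0 | h0
  · subst h0
    rw [Nat.eq_of_beq_eq_true h2, Nat.eq_of_beq_eq_true h3]
    refine ⟨by simp, ?_⟩
    intro s hs
    simpa using Pool.Agent.Helper91.LC.R54Lower.psiS_nonneg s hs
  · have h5 := allB_iff.1 h4 (i - 1) (by omega)
    have e : i - 1 + 1 = i := by omega
    rw [e] at h5
    exact tanC_sound h5

private theorem cos_idx {P : Tb} {X : Ax} (h : axAll P X = true) {n : ℕ} (hn : n ≤ 132) :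
    (gt 28 X.TK n : ℝ) / 10 ^ 8 ≤ Real.cos (n * uu) := by
  have h1 := (ax_parts h).2.1
  unfold axCos at h1
  simp only [Bool.and_eq_true] at h1
  have h2 := allB_iff.1 h1.2 n (by omega)
  have h3 := cosLB_of (by norm_num) h2
  refine h3.trans ?_
  have hp := Real.pi_lt_d20
  have hp0 := Real.pi_gt_three
  have hn' : (n : ℝ) ≤ 132 := by exact_mod_cast hn
  have hn0 : (0 : ℝ) ≤ (n : ℝ) := Nat.cast_nonneg n
  have e : ((314159266 * n : ℕ) : ℝ) / ((36000000000 : ℕ) : ℝ) = (n : ℝ) * (3.14159266 / 360) := by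
    rw [Nat.cast_mul]
    norm_num
    ring
  rw [e]
  apply Real.cos_le_cos_of_nonneg_of_le_pi
  · have := uu_pos
    positivity
  · linarith
  · unfold uu
    apply mul_le_mul_of_nonneg_left _ hn0
    linarith

private theorem valH_of {P : Tb} {X : Ax} (h : axAll P X = true) {c n i : ℕ} (hn : n ≤ 132)
    (hi : i ≤ 183)
    (hv : 10 ^ 14 * hh P c n + 10 ^ 8 * gt 40 X.TB i * (7056 + (100 + c) ^ 2) ≤
      10 ^ 10 * gt 40 X.TA i + 168 * gt 40 X.TB i * (100 + c) * gt 28 X.TK n) :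
    (hh P c n : ℝ) ≤ 10 ^ 6 * Hf (1 + c / 100) (n * uu) := by
  have hT := tan_idx h hi
  have hC := cos_idx h hn
  set A : ℝ := (gt 40 X.TA i : ℝ) with hA
  set B : ℝ := (gt 40 X.TB i : ℝ) with hB
  set q : ℝ := (gt 28 X.TK n : ℝ) with hq
  have hv' : (10 : ℝ) ^ 14 * (hh P c n : ℝ) + 10 ^ 8 * B * (7056 + (100 + (c : ℝ)) ^ 2) ≤
      10 ^ 10 * A + 168 * B * (100 + (c : ℝ)) * q := by
    rw [hA, hB, hq]
    exact_mod_cast hv
  have hB0 : 0 ≤ B := by rw [hB]; exact Nat.cast_nonneg _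
  have hc0 : (0 : ℝ) ≤ (c : ℝ) := Nat.cast_nonneg c
  have hcos := Real.cos_le_one ((n : ℝ) * uu)
  have hpos : 0 < 0.7056 + (1 + (c : ℝ) / 100) ^ 2 -
      1.68 * (1 + (c : ℝ) / 100) * Real.cos (n * uu) := by
    nlinarith
  have h1 := hT.2 _ hpos
  unfold Hf
  refine le_trans ?_ (mul_le_mul_of_nonneg_left h1 (by norm_num))
  have h2 : B * (100 + (c : ℝ)) * (q / 10 ^ 8) ≤ B * (100 + (c : ℝ)) * Real.cos (n * uu) :=
    mul_le_mul_of_nonneg_left hC (by positivity)
  have h3 : (10 : ℝ) ^ 6 * (A / 10 ^ 10 - B / 10 ^ 8 * (0.7056 + (1 + (c : ℝ) / 100) ^ 2 -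
      1.68 * (1 + (c : ℝ) / 100) * Real.cos (n * uu))) =
      (10 ^ 10 * A - 10 ^ 8 * B * (7056 + (100 + (c : ℝ)) ^ 2) +
        168 * 10 ^ 8 * (B * (100 + (c : ℝ)) * Real.cos (n * uu))) / 10 ^ 14 := by
    ring
  rw [h3, le_div_iff₀ (by norm_num)]
  have h4 : 168 * 10 ^ 8 * (B * (100 + (c : ℝ)) * (q / 10 ^ 8)) =
      168 * B * (100 + (c : ℝ)) * q := by
    ring
  have h5 := mul_le_mul_of_nonneg_left h2 (by norm_num : (0 : ℝ) ≤ 168 * 10 ^ 8)
  rw [h4] at h5
  linarith

theorem goodH_of {P : Tb} {X : Ax} (h : axAll P X = true)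
    (hv : ∀ c n : ℕ, c ≤ 85 → n ≤ 132 → axVal P X c n = true) : GoodH P := by
  intro c n hc hn
  have h1 := hv c n hc hn
  unfold axVal at h1
  simp only [Bool.or_eq_true] at h1
  rcases h1 with h1 | h1
  · rw [Nat.eq_of_beq_eq_true h1]
    have h2 := Hf_nonneg (d := 1 + (c : ℝ) / 100) (x := (n : ℝ) * uu) (by
      have : (0 : ℝ) ≤ (c : ℝ) / 100 := by positivity
      linarith)
    simp only [Nat.cast_zero]
    positivity
  · simp only [Bool.and_eq_true] at h1
    exact valH_of h hn (Nat.le_of_ble_eq_true h1.1) (Nat.le_of_ble_eq_true h1.2)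

end Pool.Agent.Helper58.LD
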