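import Pool.Agent.Helper58.LD.EFL
import Pool.Agent.Helper58.LD.LR
import Pool.Agent.Helper58.LD.DF

/-!
# Project LD (MP_599705_an), validity of a potential
-/

set_option autoImplicit false

namespace Pool.Agent.Helper58.LD

open Complex Metric Set MeasureTheory
open Pool.Agent.Helper91.LC
open Pool.Agent.Helper54.LN

/-- potential `j` is a lower bound for all edges with gap at least 130 degrees -/
def Val (P : Tb) (V : ℝ → ℝ) (E : Set ℂ) (j : ℕ) : Prop :=
  ∀ da φa db φb : ℝ, Edge E da φa db φb → 260 ≤ (φb - φa) / uu →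
    (P.pB j : ℝ) * ((φb - φa) / uu) - (P.pA j : ℝ) ≤ 10 ^ 6 / uu * ∫ θ in φa..φb, V θ

/-- the points in the open sector -/
def sect (E : Set ℂ) (φa φb : ℝ) : Set ℂ :=
  {p | p ∈ E ∧ ∃ d φ : ℝ, 1 ≤ d ∧ d ≤ 2.0401 ∧ φa < φ ∧ φ < φb ∧ p = pol d φ}

end Pool.Agent.Helper58.LD
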