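import Pool.Agent.Helper58.LD.RO
import Pool.Agent.Helper58.LD.LT
import Pool.Agent.Helper58.LD.VAL

/-!
# Project LD (MP_599705_an), piece LD-TO: the total mass
-/

set_option autoImplicit false

namespace Pool.Agent.Helper58.LD

open Complex Metric Set MeasureTheory
open Pool.Agent.Helper91.LC
open Pool.Agent.Helper54.LN

private theorem uu_pos : 0 < uu := by
  unfold uu
  have := Real.pi_pos
  positivity

private theorem pi_eq_uu : Real.pi = 360 * uu := by
  unfold uu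
  ring

private theorem pol_add_two_pi (d φ : ℝ) : pol d (φ + 2 * Real.pi) = pol d φ := by
  rw [pol, pol]
  have h1 : exp (((φ + 2 * Real.pi : ℝ) : ℂ) * I) = exp (φ * I) := by
    push_cast
    rw [add_mul, Complex.exp_add, Complex.exp_two_pi_mul_I, mul_one]
  rw [h1]

/-- an integer shift of the direction -/
private theorem exists_shift (φ ω : ℝ) : ∃ ω' : ℝ, (∀ ψ : ℝ, Real.cos (ψ - ω') = Real.cos (ψ - ω)) ∧
    -Real.pi ≤ φ - ω' ∧ φ - ω' < Real.pi := by
  have hpi := Real.pi_pos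
  set k : ℤ := ⌊(φ - ω + Real.pi) / (2 * Real.pi)⌋ with hk
  have h1 : (k : ℝ) ≤ (φ - ω + Real.pi) / (2 * Real.pi) := Int.floor_le _
  have h2 : (φ - ω + Real.pi) / (2 * Real.pi) < k + 1 := Int.lt_floor_add_one _
  rw [le_div_iff₀ (by positivity)] at h1
  rw [div_lt_iff₀ (by positivity)] at h2
  refine ⟨ω + k * (2 * Real.pi), fun ψ => ?_, by linarith, by linarith⟩
  rw [← sub_sub, Real.cos_sub_int_mul_two_pi]

private theorem exists_q (x : ℝ) (h0 : 720 ≤ x) (h1 : x < 1440) :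
    ∃ q : ℕ, q < 16 ∧ 720 + 45 * (q : ℝ) ≤ x ∧ x ≤ 765 + 45 * (q : ℝ) := by
  refine ⟨⌊(x - 720) / 45⌋₊, ?_, ?_, ?_⟩
  · rw [Nat.floor_lt (by apply div_nonneg <;> linarith)]
    rw [div_lt_iff₀ (by norm_num)]
    norm_num
    linarith
  · have := Nat.floor_le (a := (x - 720) / 45) (by apply div_nonneg <;> linarith)
    rw [le_div_iff₀ (by norm_num)] at this
    linarith
  · have := Nat.lt_floor_add_one ((x - 720) / 45)
    rw [div_lt_iff₀ (by norm_num)] at this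
    linarith

private theorem exists_i (t : ℝ) (h0 : 0 ≤ t) (h1 : 256 * t ≤ 74) :
    ∃ i : ℕ, i < 3 ∧ ((32 * i : ℕ) : ℝ) ≤ 256 * t ∧ 256 * t ≤ ((min (32 * i + 32) 74 : ℕ) : ℝ) := by
  rcases le_total (256 * t) 32 with h2 | h2
  · exact ⟨0, by norm_num, by norm_num; linarith, by norm_num; linarith⟩
  · rcases le_total (256 * t) 64 with h3 | h3
    · exact ⟨1, by norm_num, by norm_num; linarith, by norm_num; linarith⟩
    · exact ⟨2, by norm_num, by norm_num; linarith, by norm_num; linarith⟩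

/-- The total mass.

Proof: `root3`; shift all angles by a multiple of `2π` such that `φ1 - ω ∈ [-π, π)`; put
`x = (φ - ω) / uu + 1080`, so `x1 ∈ [720, 1440]` and, with `q = ⌊(x1 - 720) / 45⌋` (or `q = 15`),
`x1 ∈ [720 + 45 q, 765 + 45 q]`, `x0 ∈ [x1 - 360, x1]`, `x2 ∈ [x1, x1 + 360]`; `256 t ≤ 74`.
`EF_of` gives the facts about the three edges (third edge: `φ2`, `φ0 + 2π`); if a gap is at least
`260 uu > 0` then the pair is an `Edge` and `hval` applies.  Then `chkT_sound`, and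
`∫ φ0..φ1 + ∫ φ1..φ2 + ∫ φ2..φ0+2π = ∫ 0..2π` by periodicity. -/
theorem total {P : Tb} {TD : ℕ → ℕ} {np : ℕ} {V : ℝ → ℝ} {E : Set ℂ} {m' : ℝ}
    (h : Cfg V E m') (hm0 : 0 ≤ m') (hm : m' < 1.0401) (hE : IsClosed E)
    (hper : Function.Periodic V (2 * Real.pi)) (hN : GoodN P) (hH : GoodH P)
    (hD : ∀ i < 3, GoodD P (TD i) (32 * i))
    (hchk : ∀ i < 3, ∀ q < 16, ∃ T : Tree,
      chk (leafT P (TD i) (32 * i) np) T (32 * i) (min (32 * i + 32) 74) (360 + 45 * q)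
        (765 + 45 * q) (720 + 45 * q) (765 + 45 * q) (720 + 45 * q) (1125 + 45 * q) = true)
    (hval : ∀ j < np, Val P V E j) :
    144360001 ≤ 10 ^ 6 / uu * ∫ θ in (0 : ℝ)..(2 * Real.pi), V θ := by
  have hpi := Real.pi_pos
  have hu := uu_pos
  have hpu := pi_eq_uu
  obtain ⟨t, ω₀, d0, d1, d2, φ0, φ1, φ2, ht0, htm, P0, P1, P2, h01, h12, g01, g12, g20, w01, w12,
    c0, c1, c2, c, hc01, hc12, hcE⟩ := root3 (m := 1.0401) hE h.norm (by norm_num)
      (fun w => by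
        obtain ⟨p, hp, hd⟩ := h.cov w
        exact ⟨p, hp, by linarith⟩)
  obtain ⟨ω, hω, hω1, hω2⟩ := exists_shift φ1 ω₀
  rw [← hω] at c0 c1 c2
  have hd0 := le_DD c0
  have hd1 := le_DD c1
  have hd2 := le_DD c2
  -- the size of `t`
  have ht1 : 256 * t ≤ 74 := by
    have h1 : t ^ 2 ≤ 0.08180801 := by
      have : (1.0401 : ℝ) ^ 2 = 1.08180801 := by norm_num
      linarith
    nlinarith
  obtain ⟨i, hi, hi0, hi1⟩ := exists_i t ht0 ht1
  -- coordinates
  have hx : ∀ φ : ℝ, uu * (((φ - ω) / uu + 1080) - 360) = φ - ω + 2 * Real.pi := by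
    intro φ
    rw [hpu]
    field_simp
    ring
  have hDD : ∀ φ : ℝ, DD t (uu * (((φ - ω) / uu + 1080) - 360)) = DD t (φ - ω) := by
    intro φ
    rw [hx, DD_add]
  have hdiff : ∀ a b : ℝ, ((b - ω) / uu + 1080) - ((a - ω) / uu + 1080) = (b - a) / uu := by
    intro a b
    field_simp
    ring
  have hdiff' : ∀ a b : ℝ, ((b - ω) / uu + 1080) + 720 - ((a - ω) / uu + 1080) =
      (b + 2 * Real.pi - a) / uu := by
    intro a b
    rw [hpu]
    field_simp
    ring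
  have hx1a : 720 ≤ (φ1 - ω) / uu + 1080 := by
    have : -360 ≤ (φ1 - ω) / uu := by
      rw [le_div_iff₀ hu]
      linarith
    linarith
  have hx1b : (φ1 - ω) / uu + 1080 < 1440 := by
    have : (φ1 - ω) / uu < 360 := by
      rw [div_lt_iff₀ hu]
      linarith
    linarith
  obtain ⟨q, hq, hq0, hq1⟩ := exists_q _ hx1a hx1b
  obtain ⟨T, hT⟩ := hchk i hi q hq
  have key : ∀ a b : ℝ, a ≤ b → (a - ω) / uu + 1080 ≤ (b - ω) / uu + 1080 := by
    intro a b hab
    have : (a - ω) / uu ≤ (b - ω) / uu := div_le_div_of_nonneg_right (by linarith) hu.le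
    linarith
  have key' : ∀ a b : ℝ, b ≤ a + Real.pi → (b - ω) / uu + 1080 ≤ (a - ω) / uu + 1080 + 360 := by
    intro a b hab
    have h1 : (b - ω) / uu ≤ (a - ω + 360 * uu) / uu :=
      div_le_div_of_nonneg_right (by linarith) hu.le
    have h2 : (a - ω + 360 * uu) / uu = (a - ω) / uu + 360 := by
      field_simp
    linarith
  have key'' : ∀ a b : ℝ, a + Real.pi ≤ b → (a - ω) / uu + 1080 + 360 ≤ (b - ω) / uu + 1080 := by
    intro a b hab
    have h1 : (a - ω + 360 * uu) / uu ≤ (b - ω) / uu :=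
      div_le_div_of_nonneg_right (by linarith) hu.le
    have h2 : (a - ω + 360 * uu) / uu = (a - ω) / uu + 360 := by
      field_simp
    linarith
  have hW1 : ((φ1 - ω) / uu + 1080) + ((φ2 - ω) / uu + 1080) ≤
      2 * ((φ0 - ω) / uu + 1080) + 720 := by
    have h1 : (φ1 - ω + (φ2 - ω)) / uu ≤ (2 * (φ0 - ω) + 720 * uu) / uu :=
      div_le_div_of_nonneg_right (by linarith) hu.le
    have h2 : (2 * (φ0 - ω) + 720 * uu) / uu = 2 * ((φ0 - ω) / uu) + 720 := by
      field_simp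
    have h3 : (φ1 - ω + (φ2 - ω)) / uu = (φ1 - ω) / uu + (φ2 - ω) / uu := add_div _ _ _
    linarith
  have hW2 : 2 * ((φ2 - ω) / uu + 1080) ≤
      ((φ1 - ω) / uu + 1080) + ((φ0 - ω) / uu + 1080) + 720 := by
    have h1 : (2 * (φ2 - ω)) / uu ≤ ((φ1 - ω) + (φ0 - ω) + 720 * uu) / uu :=
      div_le_div_of_nonneg_right (by linarith) hu.le
    have h2 : ((φ1 - ω) + (φ0 - ω) + 720 * uu) / uu = (φ1 - ω) / uu + (φ0 - ω) / uu + 720 := by
      field_simp
    have h3 : (2 * (φ2 - ω)) / uu = 2 * ((φ2 - ω) / uu) := by ring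
    linarith
  -- the edges
  have e01 : EF P np d0 d1 (((φ1 - ω) / uu + 1080) - ((φ0 - ω) / uu + 1080))
      (10 ^ 6 / uu * ∫ θ in φ0..φ1, V θ) := by
    rw [hdiff]
    refine EF_of h hN hH P0 P1 h01 fun j hj hg => hval j hj _ _ _ _ ⟨P0, P1, ?_, g01, c, hc01, hcE⟩ hg
    rw [le_div_iff₀ hu] at hg
    linarith
  have e12 : EF P np d1 d2 (((φ2 - ω) / uu + 1080) - ((φ1 - ω) / uu + 1080))
      (10 ^ 6 / uu * ∫ θ in φ1..φ2, V θ) := by
    rw [hdiff]
    refine EF_of h hN hH P1 P2 h12 fun j hj hg =>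
      hval j hj _ _ _ _ ⟨P1, P2, ?_, g12, c, hc12, fun p hp => ?_⟩ hg
    · rw [le_div_iff₀ hu] at hg
      linarith
    · rw [← hc01]
      exact hcE p hp
  have e20 : EF P np d2 d0 (((φ0 - ω) / uu + 1080) + 720 - ((φ2 - ω) / uu + 1080))
      (10 ^ 6 / uu * ∫ θ in φ2..(φ0 + 2 * Real.pi), V θ) := by
    rw [hdiff']
    refine EF_of h hN hH P2 P0.add_two_pi (by linarith) fun j hj hg =>
      hval j hj _ _ _ _ ⟨P2, P0.add_two_pi, ?_, by linarith, c, ?_, fun p hp => ?_⟩ hg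
    · rw [le_div_iff₀ hu] at hg
      linarith
    · rw [pol_add_two_pi, ← hc12, ← hc01]
    · rw [← hc12, ← hc01]
      exact hcE p hp
  have hB : InB (32 * i) (min (32 * i + 32) 74) (360 + 45 * q) (765 + 45 * q) (720 + 45 * q)
      (765 + 45 * q) (720 + 45 * q) (1125 + 45 * q) t ((φ0 - ω) / uu + 1080)
      ((φ1 - ω) / uu + 1080) ((φ2 - ω) / uu + 1080) := by
    have a1 := key _ _ h01
    have a2 := key _ _ h12
    have a3 := key' _ _ g01
    have a4 := key' _ _ g12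
    refine ⟨hi0, hi1, ?_, ?_, ?_, ?_, ?_, ?_⟩ <;> push_cast <;> linarith
  have hfin := chkT_sound (hD i hi) T hT hB P0.1 P1.1 P2.1 (by rw [hDD]; exact hd0)
    (by rw [hDD]; exact hd1) (by rw [hDD]; exact hd2) (key _ _ h01) (key _ _ h12)
    (key' _ _ g01) (key' _ _ g12) (key'' _ _ g20) hW1 hW2 e01 e12 e20
  have hint : (∫ θ in φ0..φ1, V θ) + (∫ θ in φ1..φ2, V θ) +
      (∫ θ in φ2..(φ0 + 2 * Real.pi), V θ) = ∫ θ in (0 : ℝ)..(2 * Real.pi), V θ := by
    rw [intervalIntegral.integral_add_adjacent_intervals (h.intervalIntegrable _ _)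
      (h.intervalIntegrable _ _), intervalIntegral.integral_add_adjacent_intervals
      (h.intervalIntegrable _ _) (h.intervalIntegrable _ _)]
    have := hper.intervalIntegral_add_eq φ0 0
    rw [zero_add] at this
    exact this
  calc (144360001 : ℝ) ≤ 10 ^ 6 / uu * (∫ θ in φ0..φ1, V θ) + 10 ^ 6 / uu * (∫ θ in φ1..φ2, V θ) +
        10 ^ 6 / uu * (∫ θ in φ2..(φ0 + 2 * Real.pi), V θ) := hfin
    _ = 10 ^ 6 / uu * ∫ θ in (0 : ℝ)..(2 * Real.pi), V θ := by
        rw [← hint]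
        ring

end Pool.Agent.Helper58.LD
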